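import Pool.Agent.Lib.MP_ec2ab1_pr.ClassBB

set_option autoImplicit false
set_option linter.unusedSectionVars false
open MeasureTheory ProbabilityTheory Set Filter Topology

namespace Pool.Agent.MP_ec2ab1_pr

section
variable {μ : Measure ℝ} [IsProbabilityMeasure μ]

lemma log_fV_bound (hμ : MemLp (fun x : ℝ => x) 2 μ) :
    ∃ C : ℝ, 0 ≤ C ∧ ∀ v : ℝ, |Real.log (fV μ v)| ≤ C * (1 + v ^ 2) := by
  obtain ⟨C, hC0, hC⟩ := Kf_bound μ hμ
  set L := Real.log (Real.sqrt (2 * Real.pi)) with hL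
  have hL0 : 0 ≤ L := Real.log_nonneg one_le_sqrt_two_pi
  refine ⟨C + 1 + L, by positivity, fun v => ?_⟩
  rw [log_fV_eq]
  have h := abs_le.1 (hC v)
  rw [abs_le]
  constructor <;> nlinarith [mul_nonneg hL0 (sq_nonneg v), sq_nonneg v, mul_nonneg hC0 (sq_nonneg v)]

lemma measurable_log_fV : Measurable (fun v => Real.log (fV μ v)) :=
  Real.measurable_log.comp (measurable_fV μ)

/-- quadratic bound gives integrability on products -/
lemma integrable_prod_quad {P Q : Measure ℝ} [IsProbabilityMeasure P] [IsProbabilityMeasure Q]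
    (hP : MemLp (fun x : ℝ => x) 2 P) (hQ : MemLp (fun x : ℝ => x) 2 Q) {F : ℝ → ℝ}
    (hF : Measurable F) {C : ℝ} (hC : ∀ y, |F y| ≤ C * (1 + y ^ 2)) (a : ℝ) :
    Integrable (fun p : ℝ × ℝ => F (p.1 + (p.2 - a))) (P.prod Q) := by
  have h1 : MemLp (fun p : ℝ × ℝ => p.1 + (p.2 - a)) 2 (P.prod Q) :=
    (hP.comp_fst Q).add ((hQ.comp_snd P).sub (memLp_const a))
  have h2 : Integrable (fun p : ℝ × ℝ => C * (1 + (p.1 + (p.2 - a)) ^ 2)) (P.prod Q) :=
    ((integrable_const _).add h1.integrable_sq).const_mul C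
  have hm : Measurable (fun p : ℝ × ℝ => p.1 + (p.2 - a)) := by fun_prop
  refine Integrable.mono' h2 (hF.comp hm).aestronglyMeasurable
    (Eventually.of_forall fun p => ?_)
  rw [Real.norm_eq_abs]
  exact hC _

lemma integral_sq_sum {P Q : Measure ℝ} [IsProbabilityMeasure P] [IsProbabilityMeasure Q]
    (hP : MemLp (fun x : ℝ => x) 2 P) (hQ : MemLp (fun x : ℝ => x) 2 Q) (a : ℝ)
    (h0 : ∫ y, (y - a) ∂Q = 0) (h1 : ∫ y, (y - a) ^ 2 ∂Q = 1) :
    ∫ p : ℝ × ℝ, (p.1 + (p.2 - a)) ^ 2 ∂(P.prod Q) = (∫ x, x ^ 2 ∂P) + 1 := by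
  have hQ' : MemLp (fun y : ℝ => y - a) 2 Q := hQ.sub (memLp_const a)
  have iP : Integrable (fun x : ℝ => x) P := hP.integrable (by norm_num)
  have iQ : Integrable (fun y : ℝ => y - a) Q := hQ'.integrable (by norm_num)
  have j1 : Integrable (fun p : ℝ × ℝ => p.1 ^ 2) (P.prod Q) := hP.integrable_sq.comp_fst Q
  have j2 : Integrable (fun p : ℝ × ℝ => p.1 * (p.2 - a)) (P.prod Q) := iP.mul_prod iQ
  have j3 : Integrable (fun p : ℝ × ℝ => (p.2 - a) ^ 2) (P.prod Q) := hQ'.integrable_sq.comp_snd P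
  have e : (fun p : ℝ × ℝ => (p.1 + (p.2 - a)) ^ 2)
      = fun p => (p.1 ^ 2 + 2 * (p.1 * (p.2 - a))) + (p.2 - a) ^ 2 := by funext p; ring
  have j12 : Integrable (fun p : ℝ × ℝ => p.1 ^ 2 + 2 * (p.1 * (p.2 - a))) (P.prod Q) :=
    j1.add (j2.const_mul 2)
  have k1 : ∫ p : ℝ × ℝ, p.1 ^ 2 ∂(P.prod Q) = ∫ x, x ^ 2 ∂P := by
    rw [integral_fun_fst (μ := P) (ν := Q) (fun x => x ^ 2)]; simp
  have k2 : ∫ p : ℝ × ℝ, p.1 * (p.2 - a) ∂(P.prod Q) = (∫ x, x ∂P) * ∫ y, (y - a) ∂Q :=
    integral_prod_mul (μ := P) (ν := Q) (fun x => x) (fun y => y - a)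
  have k3 : ∫ p : ℝ × ℝ, (p.2 - a) ^ 2 ∂(P.prod Q) = ∫ y, (y - a) ^ 2 ∂Q := by
    rw [integral_fun_snd (μ := P) (ν := Q) (fun y => (y - a) ^ 2)]; simp
  rw [e, integral_add j12 j3, integral_add j1 (j2.const_mul 2), integral_const_mul, k1, k2, k3, h0,
    h1]
  ring

/-- the core inequality `E log f_V(V) ≤ E log f_V(X+Y-EX)` as iterated integrals -/
def CoreP (μ : Measure ℝ) : Prop :=
  ∫ x, (∫ z, Real.log (fV μ (x + z)) ∂(gaussianReal 0 1)) ∂μ
    ≤ ∫ x, (∫ y, Real.log (fV μ (x + (y - ∫ w, w ∂μ))) ∂μ) ∂μ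

/-- from the `K` form to the logarithmic form -/
lemma coreP_of_K (hμ : MemLp (fun x : ℝ => x) 2 μ) (hvar : variance (fun x : ℝ => x) μ = 1)
    (hK : ∫ p : ℝ × ℝ, Kf μ (p.1 + (p.2 - 0)) ∂(μ.prod (gaussianReal 0 1))
      ≤ ∫ p : ℝ × ℝ, Kf μ (p.1 + (p.2 - ∫ w, w ∂μ)) ∂(μ.prod μ)) : CoreP μ := by
  set m := ∫ w, w ∂μ with hm
  obtain ⟨C, hC0, hC⟩ := Kf_bound μ hμ
  obtain ⟨C', hC0', hC'⟩ := log_fV_bound (μ := μ) hμ
  have hi : Integrable (fun x : ℝ => x) μ := hμ.integrable (by norm_num)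
  have c1 : ∫ y : ℝ, (y - m) ∂μ = 0 := by
    rw [integral_sub hi (integrable_const _), ← hm]; simp
  have c2 : ∫ y : ℝ, (y - m) ^ 2 ∂μ = 1 := by
    rw [← hvar, variance_eq_integral hμ.aestronglyMeasurable.aemeasurable, ← hm]
  have g1 : ∫ y : ℝ, y ∂(gaussianReal 0 1) = 0 := integral_id_gaussianReal
  have g1' : ∫ y : ℝ, (y - 0) ∂(gaussianReal 0 1) = 0 := by simp [g1]
  have g2 : ∫ y : ℝ, (y - 0) ^ 2 ∂(gaussianReal 0 1) = 1 := by
    have h := variance_id_gaussianReal (μ := 0) (v := 1)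
    rw [variance_eq_integral measurable_id.aemeasurable] at h
    simp only [id_eq, g1, sub_zero, NNReal.coe_one] at h
    simpa using h
  have s1 := integral_sq_sum hμ memLp_gauss 0 g1' g2
  have s2 := integral_sq_sum hμ hμ m c1 c2
  have key : ∀ (Q : Measure ℝ) [IsProbabilityMeasure Q] (hQ : MemLp (fun x : ℝ => x) 2 Q) (a : ℝ),
      ∫ x, (∫ y, Real.log (fV μ (x + (y - a))) ∂Q) ∂μ
        = -Real.log (Real.sqrt (2 * Real.pi))
          - (∫ p : ℝ × ℝ, (p.1 + (p.2 - a)) ^ 2 ∂(μ.prod Q)) / 2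
          + ∫ p : ℝ × ℝ, Kf μ (p.1 + (p.2 - a)) ∂(μ.prod Q) := by
    intro Q _ hQ a
    have i1 := integrable_prod_quad hμ hQ (measurable_log_fV (μ := μ)) hC' a
    have i2 := integrable_prod_quad hμ hQ (Kf_cont (μ := μ)).measurable hC a
    have i3 := integrable_prod_quad hμ hQ (F := fun y => y ^ 2) (by fun_prop) (C := 1)
      (fun y => by rw [abs_of_nonneg (sq_nonneg y)]; linarith) a
    rw [← integral_prod (fun p : ℝ × ℝ => Real.log (fV μ (p.1 + (p.2 - a)))) i1]
    have e : (fun p : ℝ × ℝ => Real.log (fV μ (p.1 + (p.2 - a))))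
        = fun p => (-Real.log (Real.sqrt (2 * Real.pi)) - (p.1 + (p.2 - a)) ^ 2 / 2)
          + Kf μ (p.1 + (p.2 - a)) := by
      funext p; exact log_fV_eq μ _
    have i4 : Integrable (fun p : ℝ × ℝ =>
        -Real.log (Real.sqrt (2 * Real.pi)) - (p.1 + (p.2 - a)) ^ 2 / 2) (μ.prod Q) :=
      (integrable_const _).sub (i3.div_const 2)
    rw [e, integral_add i4 i2, integral_sub (integrable_const _) (i3.div_const 2), integral_div]
    simp
  have k1 := key (gaussianReal 0 1) memLp_gauss 0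
  have k2 := key μ hμ m
  rw [s1] at k1
  rw [s2] at k2
  unfold CoreP
  rw [← hm, k2]
  have k1' : ∫ x, (∫ z, Real.log (fV μ (x + z)) ∂(gaussianReal 0 1)) ∂μ
      = ∫ x, (∫ y, Real.log (fV μ (x + (y - 0))) ∂(gaussianReal 0 1)) ∂μ := by
    simp only [sub_zero]
  rw [k1', k1]
  linarith

lemma coreP_of_pointwise (hμ : MemLp (fun x : ℝ => x) 2 μ)
    (hvar : variance (fun x : ℝ => x) μ = 1)
    (h : ∀ x : ℝ, ∫ z, Kf μ (x + z) ∂(gaussianReal 0 1) ≤ ∫ y, Kf μ (x + (y - ∫ w, w ∂μ)) ∂μ) :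
    CoreP μ := by
  obtain ⟨C, hC0, hC⟩ := Kf_bound μ hμ
  apply coreP_of_K hμ hvar
  have i1 := integrable_prod_quad hμ memLp_gauss (Kf_cont (μ := μ)).measurable hC 0
  have i2 := integrable_prod_quad hμ hμ (Kf_cont (μ := μ)).measurable hC (∫ w, w ∂μ)
  rw [integral_prod _ i1, integral_prod _ i2]
  refine integral_mono i1.integral_prod_left i2.integral_prod_left ?_
  intro x
  show ∫ z, Kf μ (x + (z - 0)) ∂(gaussianReal 0 1) ≤ ∫ y, Kf μ (x + (y - ∫ w, w ∂μ)) ∂μ
  simp only [sub_zero]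
  exact h x

lemma coreP_of_avg (hμ : MemLp (fun x : ℝ => x) 2 μ)
    (hvar : variance (fun x : ℝ => x) μ = 1) (hmean : ∫ w, w ∂μ = 0)
    (h : ∫ z, (∫ x, Kf μ (x + z) ∂μ) ∂(gaussianReal 0 1) ≤ ∫ y, (∫ x, Kf μ (x + y) ∂μ) ∂μ) :
    CoreP μ := by
  obtain ⟨C, hC0, hC⟩ := Kf_bound μ hμ
  apply coreP_of_K hμ hvar
  have i1 := integrable_prod_quad hμ memLp_gauss (Kf_cont (μ := μ)).measurable hC 0
  have i2 := integrable_prod_quad hμ hμ (Kf_cont (μ := μ)).measurable hC (∫ w, w ∂μ)
  rw [integral_prod_symm _ i1, integral_prod_symm _ i2, hmean]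
  simp only [sub_zero]
  exact h

/-- translation invariance -/
lemma coreP_translate (c : ℝ) (hi : Integrable (fun x : ℝ => x) μ)
    (h : CoreP (μ.map (fun x => x - c))) : CoreP μ := by
  have hme : MeasurableEmbedding (fun x : ℝ => x - c) :=
    (MeasurableEquiv.subRight c).measurableEmbedding
  have hfV : ∀ v, fV (μ.map (fun x => x - c)) v = fV μ (v + c) := by
    intro v
    unfold fV
    rw [hme.integral_map]
    refine integral_congr_ae (Eventually.of_forall fun x => ?_)
    show ph (v - (x - c)) = ph (v + c - x)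
    congr 1; ring
  have hmean : ∫ w, w ∂(μ.map (fun x => x - c)) = (∫ w, w ∂μ) - c := by
    rw [hme.integral_map, integral_sub hi (integrable_const _)]; simp
  unfold CoreP at h ⊢
  rw [hmean, hme.integral_map, hme.integral_map] at h
  have e1 : ∀ x : ℝ, ∫ z, Real.log (fV (μ.map (fun x => x - c)) (x - c + z)) ∂(gaussianReal 0 1)
      = ∫ z, Real.log (fV μ (x + z)) ∂(gaussianReal 0 1) := by
    intro x
    refine integral_congr_ae (Eventually.of_forall fun z => ?_)
    show Real.log (fV (μ.map (fun x => x - c)) (x - c + z)) = _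
    rw [hfV]
    congr 2; ring
  have e2 : ∀ x : ℝ, ∫ y, Real.log (fV (μ.map (fun x => x - c)) (x - c + (y - ((∫ w, w ∂μ) - c))))
        ∂(μ.map (fun x => x - c))
      = ∫ y, Real.log (fV μ (x + (y - ∫ w, w ∂μ))) ∂μ := by
    intro x
    rw [hme.integral_map]
    refine integral_congr_ae (Eventually.of_forall fun y => ?_)
    show Real.log (fV (μ.map (fun x => x - c)) (x - c + ((y - c) - ((∫ w, w ∂μ) - c)))) = _
    rw [hfV]
    congr 2; ring
  simp only [e1, e2] at h
  exact h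

/-- reflection invariance -/
lemma coreP_reflect (h : CoreP (μ.map (fun x => -x))) : CoreP μ := by
  have hme : MeasurableEmbedding (fun x : ℝ => -x) :=
    (MeasurableEquiv.neg ℝ).measurableEmbedding
  have hfV : ∀ v, fV (μ.map (fun x => -x)) v = fV μ (-v) := by
    intro v
    unfold fV
    rw [hme.integral_map]
    refine integral_congr_ae (Eventually.of_forall fun x => ?_)
    show ph (v - (-x)) = ph (-v - x)
    rw [← ph_even]
    congr 1; ring
  have hmean : ∫ w, w ∂(μ.map (fun x => -x)) = - (∫ w, w ∂μ) := by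
    rw [hme.integral_map, integral_neg]
  unfold CoreP at h ⊢
  rw [hmean, hme.integral_map, hme.integral_map] at h
  have e1 : ∀ x : ℝ, ∫ z, Real.log (fV (μ.map (fun x => -x)) (-x + z)) ∂(gaussianReal 0 1)
      = ∫ z, Real.log (fV μ (x + z)) ∂(gaussianReal 0 1) := by
    intro x
    rw [← integral_even measurable_ph (fun x => (ph_pos x).le) gauss_density ph_even
      (fun z => Real.log (fV (μ.map (fun x => -x)) (-x + z)))]
    refine integral_congr_ae (Eventually.of_forall fun z => ?_)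
    show Real.log (fV (μ.map (fun x => -x)) (-x + -z)) = _
    rw [hfV]
    congr 2; ring
  have e2 : ∀ x : ℝ, ∫ y, Real.log (fV (μ.map (fun x => -x)) (-x + (y - -(∫ w, w ∂μ))))
        ∂(μ.map (fun x => -x))
      = ∫ y, Real.log (fV μ (x + (y - ∫ w, w ∂μ))) ∂μ := by
    intro x
    rw [hme.integral_map]
    refine integral_congr_ae (Eventually.of_forall fun y => ?_)
    show Real.log (fV (μ.map (fun x => -x)) (-x + ((-y) - -(∫ w, w ∂μ)))) = _
    rw [hfV]
    congr 2; ring
  simp only [e1, e2] at h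
  exact h

/-- **Gibbs**: the two entropy inequalities from the core inequality -/
lemma entropy_of_core (hμ : MemLp (fun x : ℝ => x) 2 μ) (hcore : CoreP μ)
    (hac : lawU μ ≪ volume)
    (hint : Integrable (fun x : ℝ => ((lawU μ).rnDeriv volume x).toReal *
          Real.log (((lawU μ).rnDeriv volume x).toReal)) volume) :
    (-∫ x : ℝ, ((lawU μ).rnDeriv volume x).toReal *
          Real.log (((lawU μ).rnDeriv volume x).toReal))
        ≤ -∫ u, Real.log (fV μ (u - ∫ w, w ∂μ)) ∂(lawU μ) ∧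
    (-∫ u, Real.log (fV μ (u - ∫ w, w ∂μ)) ∂(lawU μ))
      ≤ -∫ x : ℝ, ((lawV μ).rnDeriv volume x).toReal *
          Real.log (((lawV μ).rnDeriv volume x).toReal) := by
  set m := ∫ w, w ∂μ with hm
  obtain ⟨C, hC0, hC⟩ := log_fV_bound (μ := μ) hμ
  have hmeas : Measurable (fun u => Real.log (fV μ (u - m))) :=
    measurable_log_fV.comp (measurable_sub_const m)
  have hU : Integrable (fun u => Real.log (fV μ (u - m))) (lawU μ) :=
    integrable_of_quad (memLp_lawU hμ) hmeas (C := C) (a := m) (fun u => hC (u - m))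
  constructor
  · set g : ℝ → ℝ := fun x => ((lawU μ).rnDeriv volume x).toReal with hg
    set q : ℝ → ℝ := fun u => fV μ (u - m) with hq
    have hqpos : ∀ u, 0 < q u := fun u => fV_pos μ _
    have hlogq : Integrable (fun u => Real.log (q u)) (lawU μ) := hU
    have hgq : Integrable (fun u => g u * Real.log (q u)) volume :=
      (integrable_rnDeriv_smul_iff hac (f := fun u => Real.log (q u))).2 hlogq
    have hgqv : ∫ u, g u * Real.log (q u) = ∫ u, Real.log (q u) ∂(lawU μ) :=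
      integral_rnDeriv_smul hac
    have hgi : Integrable g volume := Measure.integrable_toReal_rnDeriv
    have hg1 : ∫ u, g u = 1 := by
      rw [hg, Measure.integral_toReal_rnDeriv hac]
      simp
    have hg0 : ∀ u, 0 ≤ g u := fun u => ENNReal.toReal_nonneg
    have hfi : Integrable (fV μ) volume := by
      have h1 : Integrable (fun _ : ℝ => (1:ℝ)) (lawV μ) := integrable_const _
      have h2 := (integrable_density (measurable_fV μ) (fun x => (fV_pos μ x).le) (lawV_eq μ)).1 h1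
      simpa using h2
    have hf1 : ∫ u, fV μ u = 1 := by
      have h1 := integral_density (measurable_fV μ) (fun x => (fV_pos μ x).le) (lawV_eq μ)
        (fun _ => (1:ℝ))
      simp only [integral_const, probReal_univ, smul_eq_mul, mul_one] at h1
      exact h1.symm
    have hqi : Integrable q volume := hfi.comp_sub_right m
    have hq1 : ∫ u, q u = 1 := by
      rw [hq, integral_sub_right_eq_self (fun u => fV μ u) m]; exact hf1
    have hpt : ∀ u, g u * Real.log (q u) - g u * Real.log (g u) ≤ q u - g u := by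
      intro u
      by_cases h0 : g u = 0
      · rw [h0]; simp [(hqpos u).le]
      · have hgpos : 0 < g u := lt_of_le_of_ne (hg0 u) (Ne.symm h0)
        have h1 := Real.log_le_sub_one_of_pos (div_pos (hqpos u) hgpos)
        rw [Real.log_div (hqpos u).ne' hgpos.ne'] at h1
        have h2 := mul_le_mul_of_nonneg_left h1 hgpos.le
        have h3 : g u * (q u / g u - 1) = q u - g u := by field_simp
        rw [h3] at h2
        linarith
    have hint' : Integrable (fun u => g u * Real.log (g u)) volume := hint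
    have hI : ∫ u, (g u * Real.log (q u) - g u * Real.log (g u)) ≤ ∫ u, (q u - g u) :=
      integral_mono (hgq.sub hint') (hqi.sub hgi) hpt
    rw [integral_sub hgq hint', integral_sub hqi hgi, hg1, hq1, hgqv] at hI
    have e : ∫ x : ℝ, g x * Real.log (g x) = ∫ x : ℝ, ((lawU μ).rnDeriv volume x).toReal *
          Real.log (((lawU μ).rnDeriv volume x).toReal) := rfl
    rw [← e]
    linarith
  · rw [entropy_V]
    have e1 : ∫ v, Real.log (fV μ v) ∂(lawV μ)
        = ∫ x, (∫ z, Real.log (fV μ (x + z)) ∂(gaussianReal 0 1)) ∂μ := by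
      unfold lawV
      rw [integral_map measurable_add2.aemeasurable measurable_log_fV.aestronglyMeasurable]
      have i1 := integrable_prod_quad hμ memLp_gauss (measurable_log_fV (μ := μ)) hC 0
      simp only [sub_zero] at i1
      rw [integral_prod _ i1]
    have e2 : ∫ u, Real.log (fV μ (u - m)) ∂(lawU μ)
        = ∫ x, (∫ y, Real.log (fV μ (x + (y - m))) ∂μ) ∂μ := by
      unfold lawU
      rw [integral_map measurable_add2.aemeasurable hmeas.aestronglyMeasurable]
      have i1 := integrable_prod_quad hμ hμ (measurable_log_fV (μ := μ)) hC m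
      have e3 : (fun p : ℝ × ℝ => Real.log (fV μ (p.1 + p.2 - m)))
          = fun p => Real.log (fV μ (p.1 + (p.2 - m))) := by
        funext p; rw [add_sub_assoc]
      rw [e3, integral_prod _ i1]
    rw [e1, e2]
    have := hcore
    unfold CoreP at this
    rw [← hm] at this
    linarith

end

end Pool.Agent.MP_ec2ab1_pr
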