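import Pool.Agent.Lib.MP_ec2ab1_pr.Core

set_option autoImplicit false
set_option linter.unusedSectionVars false
open MeasureTheory ProbabilityTheory Set Filter Topology

namespace Pool.Agent.MP_ec2ab1_pr

/-- The glued coupling: `((x₁, y₁), (x', z'))` with `(x₁,y₁) ~ μ ⊗ μ`, `(x',z') ~ μ ⊗ γ` and
`x' + z' = S(x₁ + y₁)`. -/
structure Glued (μ : Measure ℝ) (Q : Measure ((ℝ × ℝ) × (ℝ × ℝ))) : Prop where
  prob : IsProbabilityMeasure Q
  fst : Q.map Prod.fst = μ.prod μ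
  snd : Q.map Prod.snd = μ.prod (gaussianReal 0 1)
  eq : ∀ᵐ q ∂Q, S (lawV μ) (lawU μ) (q.1.1 + q.1.2) = q.2.1 + q.2.2

section
variable {μ : Measure ℝ} [IsProbabilityMeasure μ] {Q : Measure ((ℝ × ℝ) × (ℝ × ℝ))}

lemma memLp_gauss : MemLp (fun x : ℝ => x) 2 (gaussianReal 0 1) :=
  memLp_id_gaussianReal 2

lemma Glued.map_x1 (h : Glued μ Q) : Q.map (fun q => q.1.1) = μ := by
  have h1 : Q.map (fun q => q.1.1) = (Q.map Prod.fst).map Prod.fst := by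
    rw [Measure.map_map measurable_fst measurable_fst]; rfl
  rw [h1, h.fst, Measure.map_fst_prod]; simp

lemma Glued.map_y1 (h : Glued μ Q) : Q.map (fun q => q.1.2) = μ := by
  have h1 : Q.map (fun q => q.1.2) = (Q.map Prod.fst).map Prod.snd := by
    rw [Measure.map_map measurable_snd measurable_fst]; rfl
  rw [h1, h.fst, Measure.map_snd_prod]; simp

lemma Glued.map_x (h : Glued μ Q) : Q.map (fun q => q.2.1) = μ := by
  have h1 : Q.map (fun q => q.2.1) = (Q.map Prod.snd).map Prod.fst := by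
    rw [Measure.map_map measurable_fst measurable_snd]; rfl
  rw [h1, h.snd, Measure.map_fst_prod]; simp

lemma Glued.map_z (h : Glued μ Q) : Q.map (fun q => q.2.2) = gaussianReal 0 1 := by
  have h1 : Q.map (fun q => q.2.2) = (Q.map Prod.snd).map Prod.snd := by
    rw [Measure.map_map measurable_snd measurable_snd]; rfl
  rw [h1, h.snd, Measure.map_snd_prod]; simp

lemma memLp_of_map {Ω : Type*} [MeasurableSpace Ω] {P : Measure Ω} {m : Measure ℝ} {f : Ω → ℝ}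
    (hf : Measurable f) (hm : P.map f = m) (h : MemLp (fun x : ℝ => x) 2 m) : MemLp f 2 P := by
  rw [← hm] at h
  exact (memLp_map_measure_iff h.aestronglyMeasurable hf.aemeasurable).1 h

lemma integral_of_map {Ω : Type*} [MeasurableSpace Ω] {P : Measure Ω} {m : Measure ℝ} {f : Ω → ℝ}
    (hf : Measurable f) (hm : P.map f = m) {g : ℝ → ℝ} (hg : Measurable g) :
    ∫ ω, g (f ω) ∂P = ∫ x, g x ∂m := by
  rw [← hm, integral_map hf.aemeasurable hg.aestronglyMeasurable]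

lemma mx1 : Measurable (fun q : (ℝ × ℝ) × (ℝ × ℝ) => q.1.1) := measurable_fst.comp measurable_fst
lemma my1 : Measurable (fun q : (ℝ × ℝ) × (ℝ × ℝ) => q.1.2) := measurable_snd.comp measurable_fst
lemma mx' : Measurable (fun q : (ℝ × ℝ) × (ℝ × ℝ) => q.2.1) := measurable_fst.comp measurable_snd
lemma mz' : Measurable (fun q : (ℝ × ℝ) × (ℝ × ℝ) => q.2.2) := measurable_snd.comp measurable_snd

lemma Glued.map_U (h : Glued μ Q) : Q.map (fun q => q.1.1 + q.1.2) = lawU μ := by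
  have h1 : Q.map (fun q => q.1.1 + q.1.2) = (Q.map Prod.fst).map (fun p : ℝ × ℝ => p.1 + p.2) := by
    rw [Measure.map_map measurable_add2 measurable_fst]; rfl
  rw [h1, h.fst]; rfl

lemma Glued.map_V (h : Glued μ Q) : Q.map (fun q => q.2.1 + q.2.2) = lawV μ := by
  have h1 : Q.map (fun q => q.2.1 + q.2.2) = (Q.map Prod.snd).map (fun p : ℝ × ℝ => p.1 + p.2) := by
    rw [Measure.map_map measurable_add2 measurable_snd]; rfl
  rw [h1, h.snd]; rfl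

lemma memLp_lawU (hμ : MemLp (fun x : ℝ => x) 2 μ) : MemLp (fun x : ℝ => x) 2 (lawU μ) := by
  unfold lawU
  refine (memLp_map_measure_iff measurable_id'.aestronglyMeasurable
    measurable_add2.aemeasurable).2 ?_
  exact (hμ.comp_fst μ).add (hμ.comp_snd μ)

lemma memLp_lawV (hμ : MemLp (fun x : ℝ => x) 2 μ) : MemLp (fun x : ℝ => x) 2 (lawV μ) := by
  unfold lawV
  refine (memLp_map_measure_iff measurable_id'.aestronglyMeasurable
    measurable_add2.aemeasurable).2 ?_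
  exact (hμ.comp_fst _).add (memLp_gauss.comp_snd μ)

/-- exchangeability -/
lemma exch :
    ∫ p : ℝ × ℝ, S (lawV μ) (lawU μ) (p.1 + p.2) * p.1 ∂(μ.prod μ)
      = ∫ p : ℝ × ℝ, S (lawV μ) (lawU μ) (p.1 + p.2) * p.2 ∂(μ.prod μ) := by
  have h := integral_prod_swap (μ := μ) (ν := μ)
    (fun p : ℝ × ℝ => S (lawV μ) (lawU μ) (p.1 + p.2) * p.2)
  rw [← h]
  refine integral_congr_ae (Eventually.of_forall fun p => ?_)
  show S (lawV μ) (lawU μ) (p.1 + p.2) * p.1 = S (lawV μ) (lawU μ) (p.2 + p.1) * p.1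
  rw [add_comm p.2 p.1]

lemma Glued.exch (h : Glued μ Q) :
    ∫ q, (q.2.1 + q.2.2) * q.1.1 ∂Q = ∫ q, (q.2.1 + q.2.2) * q.1.2 ∂Q := by
  have hSm := measurable_S (lawV μ) (lawU μ) (strictMono_lawV μ)
  have e1 : ∫ q, (q.2.1 + q.2.2) * q.1.1 ∂Q
      = ∫ p : ℝ × ℝ, S (lawV μ) (lawU μ) (p.1 + p.2) * p.1 ∂(μ.prod μ) := by
    have hg : Measurable (fun p : ℝ × ℝ => S (lawV μ) (lawU μ) (p.1 + p.2) * p.1) :=
      (hSm.comp measurable_add2).mul measurable_fst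
    rw [← h.fst, integral_map measurable_fst.aemeasurable hg.aestronglyMeasurable]
    refine integral_congr_ae ?_
    filter_upwards [h.eq] with q hq
    rw [hq]
  have e2 : ∫ q, (q.2.1 + q.2.2) * q.1.2 ∂Q
      = ∫ p : ℝ × ℝ, S (lawV μ) (lawU μ) (p.1 + p.2) * p.2 ∂(μ.prod μ) := by
    have hg : Measurable (fun p : ℝ × ℝ => S (lawV μ) (lawU μ) (p.1 + p.2) * p.2) :=
      (hSm.comp measurable_add2).mul measurable_snd
    rw [← h.fst, integral_map measurable_fst.aemeasurable hg.aestronglyMeasurable]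
    refine integral_congr_ae ?_
    filter_upwards [h.eq] with q hq
    rw [hq]
  rw [e1, e2, _root_.Pool.Agent.MP_ec2ab1_pr.exch]

/-- the coupling inequality coming from common noise -/
lemma Glued.coupling_ineq (h : Glued μ Q) (hμ : MemLp (fun x : ℝ => x) 2 μ)
    [NullSingletonClass (lawU μ)] {ν : Measure ℝ} [IsProbabilityMeasure ν] {a : ℝ}
    (hd : Decomp μ ν a) :
    ∫ q, (a * q.2.1 + q.2.2) * (a * q.1.1 + q.1.2) ∂Q
      + (∫ x, x ∂ν) * (∫ q, (a * q.2.1 + q.2.2) ∂Q + ∫ q, (a * q.1.1 + q.1.2) ∂Q)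
      + ∫ x, x ^ 2 ∂ν ≤ ∫ q, (q.2.1 + q.2.2) * (q.1.1 + q.1.2) ∂Q := by
  have := h.prob
  have hν := hd.memLp hμ
  have hs := strictMono_lawV μ
  have hSm := measurable_S (lawV μ) (lawU μ) hs
  -- the new coupling
  set V : ((ℝ × ℝ) × (ℝ × ℝ)) × ℝ → ℝ := fun ω => a * ω.1.2.1 + ω.1.2.2 + ω.2 with hV
  set U : ((ℝ × ℝ) × (ℝ × ℝ)) × ℝ → ℝ := fun ω => a * ω.1.1.1 + ω.1.1.2 + ω.2 with hU
  have hVmeas : Measurable V :=
    (((mx'.comp measurable_fst).const_mul a).add (mz'.comp measurable_fst)).add measurable_snd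
  have hUmeas : Measurable U :=
    (((mx1.comp measurable_fst).const_mul a).add (my1.comp measurable_fst)).add measurable_snd
  have hVlaw : (Q.prod ν).map V = lawV μ := law_restored Q hd measurable_snd h.snd
  have hUlaw : (Q.prod ν).map U = lawU μ := law_restored Q hd measurable_fst h.fst
  have hre := rearrangement (Q.prod ν) (lawV μ) (lawU μ) hs (memLp_lawV hμ) (memLp_lawU hμ)
    hVmeas hUmeas hVlaw hUlaw
  have hrhs : ∫ u, S (lawV μ) (lawU μ) u * u ∂(lawU μ)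
      = ∫ q, (q.2.1 + q.2.2) * (q.1.1 + q.1.2) ∂Q := by
    have hg : Measurable (fun u : ℝ => S (lawV μ) (lawU μ) u * u) := hSm.mul measurable_id'
    have hm : Measurable (fun q : (ℝ × ℝ) × (ℝ × ℝ) => q.1.1 + q.1.2) := mx1.add my1
    rw [← integral_of_map hm h.map_U hg]
    refine integral_congr_ae ?_
    filter_upwards [h.eq] with q hq
    rw [hq]
  rw [hrhs] at hre
  refine le_trans (le_of_eq ?_) hre
  have m0 : MemLp (fun q : (ℝ × ℝ) × (ℝ × ℝ) => a * q.2.1 + q.2.2) 2 Q :=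
    ((memLp_of_map mx' h.map_x hμ).const_mul a).add (memLp_of_map mz' h.map_z memLp_gauss)
  have m1 : MemLp (fun q : (ℝ × ℝ) × (ℝ × ℝ) => a * q.1.1 + q.1.2) 2 Q :=
    ((memLp_of_map mx1 h.map_x1 hμ).const_mul a).add (memLp_of_map my1 h.map_y1 hμ)
  have i0 : Integrable (fun q : (ℝ × ℝ) × (ℝ × ℝ) => a * q.2.1 + q.2.2) Q := m0.integrable (by norm_num)
  have i1 : Integrable (fun q : (ℝ × ℝ) × (ℝ × ℝ) => a * q.1.1 + q.1.2) Q := m1.integrable (by norm_num)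
  have iν : Integrable (fun x : ℝ => x) ν := hν.integrable (by norm_num)
  have i01 : Integrable (fun q : (ℝ × ℝ) × (ℝ × ℝ) =>
      (a * q.2.1 + q.2.2) * (a * q.1.1 + q.1.2)) Q := m0.integrable_mul m1
  have j1 : Integrable (fun ω : ((ℝ × ℝ) × (ℝ × ℝ)) × ℝ =>
      (a * ω.1.2.1 + ω.1.2.2) * (a * ω.1.1.1 + ω.1.1.2)) (Q.prod ν) := i01.comp_fst ν
  have j2 : Integrable (fun ω : ((ℝ × ℝ) × (ℝ × ℝ)) × ℝ =>
      (a * ω.1.2.1 + ω.1.2.2) * ω.2) (Q.prod ν) := i0.mul_prod iν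
  have j3 : Integrable (fun ω : ((ℝ × ℝ) × (ℝ × ℝ)) × ℝ =>
      (a * ω.1.1.1 + ω.1.1.2) * ω.2) (Q.prod ν) := i1.mul_prod iν
  have j4 : Integrable (fun ω : ((ℝ × ℝ) × (ℝ × ℝ)) × ℝ => ω.2 ^ 2) (Q.prod ν) :=
    hν.integrable_sq.comp_snd Q
  have hexp : (fun ω => V ω * U ω) = fun ω : ((ℝ × ℝ) × (ℝ × ℝ)) × ℝ =>
      (((a * ω.1.2.1 + ω.1.2.2) * (a * ω.1.1.1 + ω.1.1.2) + (a * ω.1.2.1 + ω.1.2.2) * ω.2)
        + (a * ω.1.1.1 + ω.1.1.2) * ω.2) + ω.2 ^ 2 := by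
    funext ω; simp only [hV, hU]; ring
  have j12 : Integrable (fun ω : ((ℝ × ℝ) × (ℝ × ℝ)) × ℝ =>
      (a * ω.1.2.1 + ω.1.2.2) * (a * ω.1.1.1 + ω.1.1.2) + (a * ω.1.2.1 + ω.1.2.2) * ω.2)
      (Q.prod ν) := j1.add j2
  have j123 : Integrable (fun ω : ((ℝ × ℝ) × (ℝ × ℝ)) × ℝ =>
      ((a * ω.1.2.1 + ω.1.2.2) * (a * ω.1.1.1 + ω.1.1.2) + (a * ω.1.2.1 + ω.1.2.2) * ω.2)
        + (a * ω.1.1.1 + ω.1.1.2) * ω.2) (Q.prod ν) := j12.add j3
  have k1 : ∫ ω : ((ℝ × ℝ) × (ℝ × ℝ)) × ℝ,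
      (a * ω.1.2.1 + ω.1.2.2) * (a * ω.1.1.1 + ω.1.1.2) ∂(Q.prod ν)
      = ∫ q, (a * q.2.1 + q.2.2) * (a * q.1.1 + q.1.2) ∂Q := by
    rw [integral_fun_fst (μ := Q) (ν := ν)
      (fun q : (ℝ × ℝ) × (ℝ × ℝ) => (a * q.2.1 + q.2.2) * (a * q.1.1 + q.1.2))]
    simp
  have k2 : ∫ ω : ((ℝ × ℝ) × (ℝ × ℝ)) × ℝ, (a * ω.1.2.1 + ω.1.2.2) * ω.2 ∂(Q.prod ν)
      = (∫ q, (a * q.2.1 + q.2.2) ∂Q) * ∫ x, x ∂ν :=
    integral_prod_mul (μ := Q) (ν := ν)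
      (fun q : (ℝ × ℝ) × (ℝ × ℝ) => a * q.2.1 + q.2.2) (fun x => x)
  have k3 : ∫ ω : ((ℝ × ℝ) × (ℝ × ℝ)) × ℝ, (a * ω.1.1.1 + ω.1.1.2) * ω.2 ∂(Q.prod ν)
      = (∫ q, (a * q.1.1 + q.1.2) ∂Q) * ∫ x, x ∂ν :=
    integral_prod_mul (μ := Q) (ν := ν)
      (fun q : (ℝ × ℝ) × (ℝ × ℝ) => a * q.1.1 + q.1.2) (fun x => x)
  have k4 : ∫ ω : ((ℝ × ℝ) × (ℝ × ℝ)) × ℝ, ω.2 ^ 2 ∂(Q.prod ν) = ∫ x, x ^ 2 ∂ν := by
    rw [integral_fun_snd (μ := Q) (ν := ν) (fun x => x ^ 2)]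
    simp
  rw [hexp, integral_add j123 j4, integral_add j12 j3, integral_add j1 j2, k1, k2, k3, k4]
  ring

end

end Pool.Agent.MP_ec2ab1_pr
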