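import Pool.Agent.Lib.MP_ec2ab1_pr.Moments

set_option autoImplicit false
set_option linter.unusedSectionVars false
open MeasureTheory ProbabilityTheory Set Filter Topology

namespace Pool.Agent.MP_ec2ab1_pr

/-- the density `e^{-Φ}` on `s`, zero elsewhere -/
noncomputable def dens (s : Set ℝ) (Φ : ℝ → ℝ) : ℝ → ℝ := s.indicator (fun x => Real.exp (-Φ x))

lemma dens_nonneg (s : Set ℝ) (Φ : ℝ → ℝ) (x : ℝ) : 0 ≤ dens s Φ x :=
  indicator_nonneg (fun _ _ => (Real.exp_pos _).le) x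

lemma dens_mem {s : Set ℝ} {Φ : ℝ → ℝ} {x : ℝ} (hx : x ∈ s) : dens s Φ x = Real.exp (-Φ x) :=
  indicator_of_mem hx _

lemma dens_notMem {s : Set ℝ} {Φ : ℝ → ℝ} {x : ℝ} (hx : x ∉ s) : dens s Φ x = 0 :=
  indicator_of_notMem hx _

lemma dens_measurable {s : Set ℝ} {Φ : ℝ → ℝ} (hs : MeasurableSet s) (hc : ContinuousOn Φ s) :
    Measurable (dens s Φ) := by
  classical
  have h : ContinuousOn (fun x => Real.exp (-Φ x)) s := Real.continuous_exp.comp_continuousOn hc.neg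
  have h2 := h.measurable_piecewise (continuousOn_const (c := (0:ℝ)) (s := sᶜ)) hs
  have e : s.piecewise (fun x => Real.exp (-Φ x)) (fun _ => (0:ℝ)) = dens s Φ := by
    unfold dens
    exact Set.piecewise_eq_indicator
  rw [← e]
  exact h2

section
variable {μ : Measure ℝ} [IsProbabilityMeasure μ]

lemma tilt_lt_iff {v x y a b : ℝ} :
    Real.exp (v * x - x ^ 2 / 2) * Real.exp (-a) < Real.exp (v * y - y ^ 2 / 2) * Real.exp (-b) ↔
      v * x - x ^ 2 / 2 - a < v * y - y ^ 2 / 2 - b := by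
  rw [← Real.exp_add, ← Real.exp_add, Real.exp_lt_exp]
  constructor <;> intro h <;> linarith

lemma tilt_le_iff {v x y a b : ℝ} :
    Real.exp (v * x - x ^ 2 / 2) * Real.exp (-a) ≤ Real.exp (v * y - y ^ 2 / 2) * Real.exp (-b) ↔
      v * x - x ^ 2 / 2 - a ≤ v * y - y ^ 2 / 2 - b := by
  rw [← Real.exp_add, ← Real.exp_add, Real.exp_le_exp]
  constructor <;> intro h <;> linarith

lemma cm3_nonneg_of_star {s : Set ℝ} {Φ : ℝ → ℝ} (hs : MeasurableSet s) (hs2 : s.OrdConnected)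
    (hc : ContinuousOn Φ s)
    (hd : μ = volume.withDensity (fun x => ENNReal.ofReal (dens s Φ x))) {v m : ℝ}
    (hm : m = K1 μ v) (hsupp : ∀ t, 0 < t → m - t ∈ s → m + t ∈ s)
    (hstar : ∀ t t1, 0 < t → t < t1 → m - t1 ∈ s → m + t1 ∈ s →
      t * (Φ (m + t1) - Φ (m - t1)) ≤ t1 * (Φ (m + t) - Φ (m - t))) :
    0 ≤ cm3 μ v := by
  subst hm
  refine cm3_nonneg_of_pattern (dens_measurable hs hc) (dens_nonneg s Φ) hd v ?_
  set m := K1 μ v with hm
  intro t t1 ht htt hlt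
  have ht1 : 0 < t1 := ht.trans htt
  have h1 : m - t1 ∈ s := by
    by_contra hcon
    rw [dens_notMem hcon, mul_zero] at hlt
    exact absurd hlt (not_lt.2 (mul_nonneg (Real.exp_pos _).le (dens_nonneg s Φ _)))
  have h2 : m + t1 ∈ s := hsupp t1 ht1 h1
  have h3 : m - t ∈ s := hs2.out h1 h2 ⟨by linarith, by linarith⟩
  have h4 : m + t ∈ s := hs2.out h1 h2 ⟨by linarith, by linarith⟩
  rw [dens_mem h1, dens_mem h2, tilt_lt_iff] at hlt
  rw [dens_mem h3, dens_mem h4, tilt_le_iff]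
  have hst := hstar t t1 ht htt h1 h2
  have a1 : 2 * (v - m) * t1 - (Φ (m + t1) - Φ (m - t1)) < 0 := by nlinarith [hlt]
  have a2 : t1 * (2 * (v - m) * t - (Φ (m + t) - Φ (m - t))) ≤ 0 := by
    have := mul_neg_of_pos_of_neg ht a1
    nlinarith [this, hst]
  have a3 : 2 * (v - m) * t - (Φ (m + t) - Φ (m - t)) ≤ 0 := by
    by_contra hcon
    push Not at hcon
    have := mul_pos ht1 hcon
    linarith
  nlinarith [a3]

lemma cm3_nonpos_of_star {s : Set ℝ} {Φ : ℝ → ℝ} (hs : MeasurableSet s) (hs2 : s.OrdConnected)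
    (hc : ContinuousOn Φ s)
    (hd : μ = volume.withDensity (fun x => ENNReal.ofReal (dens s Φ x))) {v m : ℝ}
    (hm : m = K1 μ v) (hsupp : ∀ t, 0 < t → m + t ∈ s → m - t ∈ s)
    (hstar : ∀ t t1, 0 < t → t < t1 → m - t1 ∈ s → m + t1 ∈ s →
      t1 * (Φ (m + t) - Φ (m - t)) ≤ t * (Φ (m + t1) - Φ (m - t1))) :
    cm3 μ v ≤ 0 := by
  subst hm
  refine cm3_nonpos_of_pattern (dens_measurable hs hc) (dens_nonneg s Φ) hd v ?_
  set m := K1 μ v with hm
  intro t t1 ht htt hlt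
  have ht1 : 0 < t1 := ht.trans htt
  have h2 : m + t1 ∈ s := by
    by_contra hcon
    rw [dens_notMem hcon, mul_zero] at hlt
    exact absurd hlt (not_lt.2 (mul_nonneg (Real.exp_pos _).le (dens_nonneg s Φ _)))
  have h1 : m - t1 ∈ s := hsupp t1 ht1 h2
  have h3 : m - t ∈ s := hs2.out h1 h2 ⟨by linarith, by linarith⟩
  have h4 : m + t ∈ s := hs2.out h1 h2 ⟨by linarith, by linarith⟩
  rw [dens_mem h1, dens_mem h2, tilt_lt_iff] at hlt
  rw [dens_mem h3, dens_mem h4, tilt_le_iff]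
  have hst := hstar t t1 ht htt h1 h2
  have a1 : 0 < 2 * (v - m) * t1 - (Φ (m + t1) - Φ (m - t1)) := by nlinarith [hlt]
  have a2 : 0 ≤ t1 * (2 * (v - m) * t - (Φ (m + t) - Φ (m - t))) := by
    have := mul_pos ht a1
    nlinarith [this, hst]
  have a3 : 0 ≤ 2 * (v - m) * t - (Φ (m + t) - Φ (m - t)) := by
    by_contra hcon
    push Not at hcon
    have := mul_neg_of_pos_of_neg ht1 hcon
    linarith
  nlinarith [a3]

variable (μ) in
lemma K1_cont : Continuous (K1 μ) :=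
  continuous_iff_continuousAt.2 fun v => (hasDerivAt_K1 μ v).continuousAt

variable (μ) in
lemma K2_cont : Continuous (K2 μ) :=
  continuous_iff_continuousAt.2 fun v => (hasDerivAt_K2 μ v).continuousAt

lemma K2_mono {S : Set ℝ} (hS : Convex ℝ S) (h : ∀ v ∈ S, 0 ≤ cm3 μ v) : MonotoneOn (K2 μ) S := by
  apply monotoneOn_of_deriv_nonneg hS (K2_cont μ).continuousOn
  · exact fun x _ => (hasDerivAt_K2 μ x).differentiableAt.differentiableWithinAt
  · intro x hx
    rw [(hasDerivAt_K2 μ x).deriv]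
    exact div_nonneg (h x (interior_subset hx)) (Mm0_pos μ x).le

lemma K2_anti {S : Set ℝ} (hS : Convex ℝ S) (h : ∀ v ∈ S, cm3 μ v ≤ 0) : AntitoneOn (K2 μ) S := by
  apply antitoneOn_of_deriv_nonpos hS (K2_cont μ).continuousOn
  · exact fun x _ => (hasDerivAt_K2 μ x).differentiableAt.differentiableWithinAt
  · intro x hx
    rw [(hasDerivAt_K2 μ x).deriv]
    exact div_nonpos_of_nonpos_of_nonneg (h x (interior_subset hx)) (Mm0_pos μ x).le

lemma K1_convex {S : Set ℝ} (hS : Convex ℝ S) (h : ∀ v ∈ S, 0 ≤ cm3 μ v) :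
    ConvexOn ℝ S (K1 μ) := by
  apply MonotoneOn.convexOn_of_deriv hS (K1_cont μ).continuousOn
  · exact fun x _ => (hasDerivAt_K1 μ x).differentiableAt.differentiableWithinAt
  · intro a ha b hb hab
    rw [(hasDerivAt_K1 μ a).deriv, (hasDerivAt_K1 μ b).deriv]
    exact K2_mono hS h (interior_subset ha) (interior_subset hb) hab

/-- comparison of the density with the gaussian density -/
noncomputable def wf (Φ : ℝ → ℝ) (m y : ℝ) : ℝ :=
  y ^ 2 / 2 + Real.log (Real.sqrt (2 * Real.pi)) - Φ (y + m)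

lemma ph_exp (y : ℝ) : ph y = Real.exp (-(y ^ 2 / 2 + Real.log (Real.sqrt (2 * Real.pi)))) := by
  rw [ph_eq, neg_add, Real.exp_add, Real.exp_neg (Real.log _), Real.exp_log sqrt_two_pi_pos, mul_comm]
  congr 2; ring

lemma sgn_pos {s : Set ℝ} {Φ : ℝ → ℝ} {m y : ℝ} (hy : y + m ∈ s) :
    0 < dens s Φ (y + m) - ph y ↔ 0 < wf Φ m y := by
  rw [dens_mem hy, ph_exp, sub_pos, Real.exp_lt_exp]
  unfold wf
  constructor <;> intro h <;> linarith

lemma sgn_neg {s : Set ℝ} {Φ : ℝ → ℝ} {m y : ℝ} (hy : y + m ∈ s) :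
    dens s Φ (y + m) - ph y < 0 ↔ wf Φ m y < 0 := by
  rw [dens_mem hy, ph_exp, sub_neg, Real.exp_lt_exp]
  unfold wf
  constructor <;> intro h <;> linarith

lemma mem_of_pos {s : Set ℝ} {Φ : ℝ → ℝ} {m y : ℝ} (h : 0 < dens s Φ (y + m) - ph y) :
    y + m ∈ s := by
  by_contra hcon
  rw [dens_notMem hcon] at h
  have := ph_pos y
  linarith

lemma contAt_d {s : Set ℝ} {Φ : ℝ → ℝ} (hs : IsOpen s) (hc : ContinuousOn Φ s) {m y : ℝ}
    (hy : y + m ∈ s) : ContinuousAt (fun y => dens s Φ (y + m) - ph y) y := by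
  have h1 : ContinuousAt (dens s Φ) (y + m) := by
    have h2 : ContinuousAt (fun x => Real.exp (-Φ x)) (y + m) :=
      (Real.continuous_exp.continuousAt).comp (hc.continuousAt (hs.mem_nhds hy)).neg
    refine h2.congr ?_
    filter_upwards [hs.mem_nhds hy] with x hx
    exact (dens_mem hx).symm
  have h3 : ContinuousAt (fun y => dens s Φ (y + m)) y :=
    ContinuousAt.comp (g := dens s Φ) (f := fun y => y + m) h1 (by fun_prop)
  have h4 : Continuous ph := by
    have : ph = fun y => Real.exp (-(y ^ 2 / 2 + Real.log (Real.sqrt (2 * Real.pi)))) := by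
      funext y; exact ph_exp y
    rw [this]; fun_prop
  exact h3.sub h4.continuousAt

lemma exists_left {g : ℝ → ℝ} {y : ℝ} (hg : ContinuousAt g y) (h : 0 < g y) {a : ℝ} (ha : a < y) :
    ∃ z, a < z ∧ z < y ∧ 0 < g z := by
  have h1 : ∀ᶠ z in 𝓝[<] y, 0 < g z := (hg.eventually (lt_mem_nhds h)).filter_mono nhdsWithin_le_nhds
  have h2 : ∀ᶠ z in 𝓝[<] y, z < y := self_mem_nhdsWithin
  have h3 : ∀ᶠ z in 𝓝[<] y, a < z := (lt_mem_nhds ha).filter_mono nhdsWithin_le_nhds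
  obtain ⟨z, hz⟩ := (h1.and (h2.and h3)).exists
  exact ⟨z, hz.2.2, hz.2.1, hz.1⟩

lemma exists_right {g : ℝ → ℝ} {y : ℝ} (hg : ContinuousAt g y) (h : g y < 0) :
    ∃ z, y < z ∧ g z < 0 := by
  have h1 : ∀ᶠ z in 𝓝[>] y, g z < 0 := (hg.eventually (gt_mem_nhds h)).filter_mono nhdsWithin_le_nhds
  have h2 : ∀ᶠ z in 𝓝[>] y, y < z := self_mem_nhdsWithin
  obtain ⟨z, hz⟩ := (h1.and h2).exists
  exact ⟨z, hz.2, hz.1⟩

/-- mean value theorem for the comparison function -/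
lemma mvt_wf {s : Set ℝ} {Φ Φ' : ℝ → ℝ} (hs2 : s.OrdConnected) {m a b : ℝ}
    (hV : ∀ x ∈ s, a + m ≤ x → x ≤ b + m → HasDerivAt Φ (Φ' x) x) (hab : a < b)
    (ha : a + m ∈ s) (hb : b + m ∈ s) :
    ∃ c, a < c ∧ c < b ∧ c + m ∈ s ∧ (b - a) * (c - Φ' (c + m)) = wf Φ m b - wf Φ m a := by
  have hder : ∀ y ∈ Icc a b, HasDerivAt (wf Φ m) (y - Φ' (y + m)) y := by
    intro y hy
    have hy' : y + m ∈ s := hs2.out ha hb ⟨by linarith [hy.1], by linarith [hy.2]⟩
    have h1 : HasDerivAt (fun y => Φ (y + m)) (Φ' (y + m)) y :=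
      (hV (y + m) hy' (by linarith [hy.1]) (by linarith [hy.2])).comp_add_const y m
    have h2 : HasDerivAt (fun y : ℝ => y ^ 2 / 2 + Real.log (Real.sqrt (2 * Real.pi))) y y := by
      have h0 : HasDerivAt (fun s : ℝ => s ^ 2) (2 * y) y := by simpa using hasDerivAt_pow 2 y
      exact ((h0.div_const 2).add_const _).congr_deriv (by ring)
    exact h2.sub h1
  obtain ⟨c, hc, hc2⟩ := exists_hasDerivAt_eq_slope (wf Φ m) (fun y => y - Φ' (y + m)) hab
    (fun y hy => (hder y hy).continuousAt.continuousWithinAt)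
    (fun y hy => hder y ⟨hy.1.le, hy.2.le⟩)
  refine ⟨c, hc.1, hc.2, hs2.out ha hb ⟨by linarith [hc.1], by linarith [hc.2]⟩, ?_⟩
  rw [hc2]
  have : b - a ≠ 0 := by linarith [sub_pos.2 hab] |> fun h : 0 < b - a => h.ne'
  field_simp

/-- **class A**: the conclusion for every translate -/
lemma classA {s : Set ℝ} {V V' : ℝ → ℝ} (hs : IsOpen s) (hup : IsUpperSet s)
    (hV : ∀ x ∈ s, HasDerivAt V (V' x) x) (hcV : ConcaveOn ℝ s V')
    (hd : μ = volume.withDensity (fun x => ENNReal.ofReal (dens s V x)))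
    (hμ : MemLp (fun x : ℝ => x) 2 μ) (hvar : variance (fun x : ℝ => x) μ = 1) {m : ℝ}
    (hm : m = ∫ x, x ∂μ) (x : ℝ) :
    ∫ z, Kf μ (x + z) ∂(gaussianReal 0 1) ≤ ∫ y, Kf μ (x + (y - m)) ∂μ := by
  have hs2 : s.OrdConnected := hcV.1.ordConnected
  have hc : ContinuousOn V s := fun x hx => (hV x hx).continuousAt.continuousWithinAt
  have hK : ConvexOn ℝ univ (K1 μ) := by
    refine K1_convex convex_univ fun v _ => ?_
    refine cm3_nonneg_of_star hs.measurableSet hs2 hc hd rfl ?_ ?_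
    · intro t ht h
      exact hup (by linarith) h
    · intro t t1 ht htt h1 h2
      exact odd_part (fun x hx => hV x (hs2.out h1 h2 hx)) (U_anti hcV h1 h2) ht htt
  refine pointwise_of_pattern (dens_measurable hs.measurableSet hc) (dens_nonneg s V) hd hμ hvar hm
    hK ?_ x
  by_cases hne : ∀ᵐ y, dens s V (y + m) - ph y = 0
  · left; exact hne
  right
  have H : ∀ y0 y1 y2 y3, y0 < y1 → y1 < y2 → y2 < y3 → 0 < dens s V (y0 + m) - ph y0 →
      dens s V (y1 + m) - ph y1 < 0 → 0 < dens s V (y2 + m) - ph y2 →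
      dens s V (y3 + m) - ph y3 < 0 → False := by
    intro y0 y1 y2 y3 a01 a12 a23 s0 s1 s2 s3
    have m0 := mem_of_pos s0
    have m1 : y1 + m ∈ s := hup (by linarith) m0
    have m2 : y2 + m ∈ s := hup (by linarith) m0
    have m3 : y3 + m ∈ s := hup (by linarith) m0
    rw [sgn_pos m0] at s0
    rw [sgn_neg m1] at s1
    rw [sgn_pos m2] at s2
    rw [sgn_neg m3] at s3
    obtain ⟨c1, p1, q1, r1, e1⟩ := mvt_wf hs2 (fun x hx _ _ => hV x hx) a01 m0 m1
    obtain ⟨c2, p2, q2, r2, e2⟩ := mvt_wf hs2 (fun x hx _ _ => hV x hx) a12 m1 m2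
    obtain ⟨c3, p3, q3, r3, e3⟩ := mvt_wf hs2 (fun x hx _ _ => hV x hx) a23 m2 m3
    have k1 : c1 - V' (c1 + m) < 0 := by
      by_contra hcon
      push Not at hcon
      have := mul_nonneg (show 0 ≤ y1 - y0 by linarith) hcon
      linarith
    have k2 : 0 < c2 - V' (c2 + m) := by
      by_contra hcon
      push Not at hcon
      have := mul_nonpos_of_nonneg_of_nonpos (show 0 ≤ y2 - y1 by linarith) hcon
      linarith
    have k3 : c3 - V' (c3 + m) < 0 := by
      by_contra hcon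
      push Not at hcon
      have := mul_nonneg (show 0 ≤ y3 - y2 by linarith) hcon
      linarith
    have hc13 : 0 < c3 - c1 := by linarith
    have l1 : 0 < (c3 - c2) / (c3 - c1) := div_pos (by linarith) hc13
    have l2 : 0 < (c2 - c1) / (c3 - c1) := div_pos (by linarith) hc13
    have l3 : (c3 - c2) / (c3 - c1) + (c2 - c1) / (c3 - c1) = 1 := by
      rw [← add_div, div_eq_one_iff_eq hc13.ne']; ring
    have e := hcV.2 r1 r3 l1.le l2.le l3
    have e4 : ((c3 - c2) / (c3 - c1)) • (c1 + m) + ((c2 - c1) / (c3 - c1)) • (c3 + m) = c2 + m := by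
      simp only [smul_eq_mul]; field_simp; ring
    rw [e4] at e
    simp only [smul_eq_mul] at e
    have e5 : (c3 - c2) / (c3 - c1) * c1 + (c2 - c1) / (c3 - c1) * c3 = c2 := by
      field_simp; ring
    have f1 := mul_neg_of_pos_of_neg l1 k1
    have f3 := mul_neg_of_pos_of_neg l2 k3
    nlinarith [f1, f3, e, e5, k2]
  obtain ⟨⟨i0, z0⟩, ⟨i1, z1⟩, ⟨i2, z2⟩⟩ :=
    moments_d (dens_measurable hs.measurableSet hc) (dens_nonneg s V) hd hμ hvar hm
  obtain ⟨y0, y1, y2, y3, a01, a12, a23, s0, s1, s2, s3⟩ := alt4 i0 i1 i2 z0 z1 z2 H hne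
  refine pattern4 H ?_ ?_ a01 a12 a23 s0 s1 s2 s3
  · intro y hy
    obtain ⟨z, _, hz1, hz2⟩ := exists_left (contAt_d hs hc (mem_of_pos hy)) hy (sub_one_lt y)
    exact ⟨z, hz1, hz2⟩
  · intro y1 y h1 h2 h3
    have : y + m ∈ s := hup (by linarith) (mem_of_pos h1)
    exact exists_right (contAt_d hs hc this) h3

end

end Pool.Agent.MP_ec2ab1_pr
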