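import Pool.Agent.Lib.MP_ec2ab1_pr.Even

set_option autoImplicit false
set_option linter.unusedSectionVars false
open MeasureTheory ProbabilityTheory Set Filter Topology

namespace Pool.Agent.MP_ec2ab1_pr

lemma coreB_abs {G G1 d : ℝ → ℝ} (hG : ∀ y, HasDerivAt G (G1 y) y) (h0 : G1 0 = 0)
    (hcc : ConcaveOn ℝ (Ici 0) G1) (i0 : IntegrableOn d (Ioi 0))
    (i2 : IntegrableOn (fun y => y ^ 2 * d y) (Ioi 0)) (z0 : ∫ y in Ioi (0:ℝ), d y = 0)
    (z2 : ∫ y in Ioi (0:ℝ), y ^ 2 * d y = 0) (iG : IntegrableOn (fun y => G y * d y) (Ioi 0))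
    (H : ∀ y0 y1 y2, 0 < y0 → y0 < y1 → y1 < y2 → 0 < d y0 → d y1 < 0 → 0 < d y2 → False)
    (hc : ∀ y, 0 < y → 0 < d y → ∃ z, 0 < z ∧ z < y ∧ 0 < d z) :
    0 ≤ ∫ y in Ioi (0:ℝ), G y * d y := by
  by_cases hne : ∀ᵐ y ∂(volume.restrict (Ioi (0:ℝ))), d y = 0
  · have : ∫ y in Ioi (0:ℝ), G y * d y = 0 := by
      apply integral_eq_zero_of_ae
      filter_upwards [hne] with y hy
      show G y * d y = 0
      rw [hy, mul_zero]
    rw [this]
  obtain ⟨x1, x2, hx1, h12, hp⟩ := pattern3 i0 i2 z0 z2 H hc hne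
  obtain ⟨α, β, hq⟩ := interpB hG h0 hcc hx1 h12
  have iq : IntegrableOn (fun y => α * d y + β * (y ^ 2 * d y)) (Ioi 0) :=
    (i0.const_mul α).add (i2.const_mul β)
  have vq : ∫ y in Ioi (0:ℝ), (α * d y + β * (y ^ 2 * d y)) = 0 := by
    rw [integral_add (i0.const_mul α) (i2.const_mul β), integral_const_mul, integral_const_mul,
      z0, z2]; simp
  have key : 0 ≤ ∫ y in Ioi (0:ℝ), (G y * d y - (α * d y + β * (y ^ 2 * d y))) := by
    apply integral_nonneg_of_ae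
    have hT : ∀ᵐ y ∂(volume.restrict (Ioi (0:ℝ))), y ∉ ({x1, x2} : Set ℝ) := by
      apply ae_restrict_of_ae
      have : volume ({x1, x2} : Set ℝ) = 0 := (Set.toFinite _).measure_zero volume
      rw [← compl_compl ({x1, x2} : Set ℝ)] at this
      exact this
    filter_upwards [hT, ae_restrict_mem measurableSet_Ioi] with y hy hy0
    show 0 ≤ G y * d y - (α * d y + β * (y ^ 2 * d y))
    simp only [mem_insert_iff, mem_singleton_iff, not_or] at hy
    obtain ⟨n1, n2⟩ := hy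
    have hy0' : (0:ℝ) < y := hy0
    have hne : (y - x1) * (x2 - y) ≠ 0 :=
      mul_ne_zero (sub_ne_zero.2 n1) (sub_ne_zero.2 (Ne.symm n2))
    have hsq : 0 < ((y - x1) * (x2 - y)) ^ 2 := by positivity
    have hprod := mul_nonneg (hq y hy0'.le) (hp y hy0')
    have e : (G y - (α + β * y ^ 2)) * ((y - x1) * (x2 - y)) * (d y * ((y - x1) * (x2 - y)))
        = (G y * d y - (α * d y + β * (y ^ 2 * d y))) * ((y - x1) * (x2 - y)) ^ 2 := by ring
    rw [e] at hprod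
    exact nonneg_of_mul_nonneg_left hprod hsq
  rw [integral_sub iG iq, vq] at key
  linarith

section
variable {μ : Measure ℝ} [IsProbabilityMeasure μ] {f : ℝ → ℝ}

lemma half_of_even {g : ℝ → ℝ} (hg : Integrable g) (he : ∀ x, g (-x) = g x) :
    ∫ x, g x = 2 * ∫ x in Ioi (0:ℝ), g x := by
  rw [integral_fold hg, ← integral_const_mul]
  refine integral_congr_ae (Eventually.of_forall fun x => ?_)
  show g x + g (-x) = 2 * g x
  rw [he]; ring

lemma ph_even (y : ℝ) : ph (-y) = ph y := by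
  rw [ph_eq, ph_eq]; simp

lemma Kf_neg (hf : Measurable f) (hf0 : ∀ x, 0 ≤ f x)
    (hd : μ = volume.withDensity (fun x => ENNReal.ofReal (f x))) (he : ∀ x, f (-x) = f x)
    (v : ℝ) : Kf μ (-v) = Kf μ v := by
  unfold Kf
  rw [Mm_neg hf hf0 hd he]
  simp

/-- data shared by the two even classes -/
lemma even_setup (hf : Measurable f) (hf0 : ∀ x, 0 ≤ f x)
    (hd : μ = volume.withDensity (fun x => ENNReal.ofReal (f x))) (he : ∀ x, f (-x) = f x)
    (hμ : MemLp (fun x : ℝ => x) 2 μ) (hvar : variance (fun x : ℝ => x) μ = 1) :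
    (IntegrableOn (fun y => f y - ph y) (Ioi 0) ∧
      IntegrableOn (fun y => y ^ 2 * (f y - ph y)) (Ioi 0) ∧
      ∫ y in Ioi (0:ℝ), (f y - ph y) = 0 ∧ ∫ y in Ioi (0:ℝ), y ^ 2 * (f y - ph y) = 0) ∧
    IntegrableOn (fun y => (∫ x, Kf μ (x + y) ∂μ) * (f y - ph y)) (Ioi 0) ∧
    (∀ y, HasDerivAt (fun y => ∫ x, Kf μ (x + y) ∂μ) (∫ x, K1 μ (x + y) ∂μ) y) ∧
    (∫ x, K1 μ (x + 0) ∂μ) = 0 ∧
    (∫ y, (∫ x, Kf μ (x + y) ∂μ) ∂μ) - ∫ z, (∫ x, Kf μ (x + z) ∂μ) ∂(gaussianReal 0 1)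
      = 2 * ∫ y in Ioi (0:ℝ), (∫ x, Kf μ (x + y) ∂μ) * (f y - ph y) := by
  have hmean : (0:ℝ) = ∫ x, x ∂μ := by
    have h := integral_even hf hf0 hd he (fun x => x)
    rw [integral_neg] at h
    linarith
  obtain ⟨⟨i0, z0⟩, -, ⟨i2, z2⟩⟩ := moments_d hf hf0 hd hμ hvar hmean
  simp only [add_zero] at i0 z0 i2 z2
  obtain ⟨C, hC0, hC⟩ := Kf_bound μ hμ
  obtain ⟨C1, hC10, hC1⟩ := K1_bound (μ := μ) hμ
  obtain ⟨C2, hC2⟩ := avg_bound hμ hC
  have hder : ∀ y, HasDerivAt (fun y => ∫ x, Kf μ (x + y) ∂μ) (∫ x, K1 μ (x + y) ∂μ) y :=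
    fun y => hasDerivAt_avg hμ (hasDerivAt_Kf μ) (K1_cont μ) hC hC1 y
  have hGc : Continuous (fun y => ∫ x, Kf μ (x + y) ∂μ) :=
    continuous_iff_continuousAt.2 fun v => (hder v).continuousAt
  obtain ⟨iF, eF⟩ := int_F_d hf hf0 hd hμ 0 (F := fun y => ∫ x, Kf μ (x + y) ∂μ) hGc.measurable hC2
  simp only [add_zero, sub_zero] at iF eF
  have de : ∀ y, f (-y) - ph (-y) = f y - ph y := fun y => by rw [he, ph_even]
  have Ge : ∀ y, (∫ x, Kf μ (x + -y) ∂μ) = ∫ x, Kf μ (x + y) ∂μ := by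
    intro y
    rw [← integral_even hf hf0 hd he (fun x => Kf μ (x + -y))]
    refine integral_congr_ae (Eventually.of_forall fun x => ?_)
    show Kf μ (-x + -y) = Kf μ (x + y)
    have : -x + -y = -(x + y) := by ring
    rw [this, Kf_neg hf hf0 hd he]
  refine ⟨⟨i0.integrableOn, i2.integrableOn, ?_, ?_⟩, iF.integrableOn, hder, ?_, ?_⟩
  · have := half_of_even i0 de
    rw [z0] at this
    linarith
  · have := half_of_even i2 (fun y => by rw [de]; ring)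
    rw [z2] at this
    linarith
  · have h := integral_even hf hf0 hd he (fun x => K1 μ (x + 0))
    have e : (fun x => K1 μ (-x + 0)) = fun x => - K1 μ (x + 0) := by
      funext x
      rw [add_zero, add_zero, K1_neg hf hf0 hd he]
    rw [e, integral_neg] at h
    linarith
  · rw [← eF]
    exact half_of_even iF (fun y => by rw [de, Ge])

lemma abs_mono {q : ℝ → ℝ} (he : ∀ x, q (-x) = q x) (hq : AntitoneOn q (Ici 0)) (a b : ℝ)
    (hab : |a| ≤ |b|) : q b ≤ q a := by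
  have h : ∀ x, q |x| = q x := by
    intro x
    rcases abs_choice x with h | h
    · rw [h]
    · rw [h, he]
  rw [← h a, ← h b]
  exact hq (abs_nonneg a) (abs_nonneg b) hab

/-- even class, `K''` decreasing on the half line -/
lemma coreB_neg (hf : Measurable f) (hf0 : ∀ x, 0 ≤ f x)
    (hd : μ = volume.withDensity (fun x => ENNReal.ofReal (f x)))
    (hfu : ∀ a b : ℝ, |a| ≤ |b| → f b ≤ f a)
    (hμ : MemLp (fun x : ℝ => x) 2 μ) (hvar : variance (fun x : ℝ => x) μ = 1)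
    (hK : AntitoneOn (K2 μ) (Ici 0))
    (H : ∀ y0 y1 y2, 0 < y0 → y0 < y1 → y1 < y2 → 0 < f y0 - ph y0 → f y1 - ph y1 < 0 →
      0 < f y2 - ph y2 → False)
    (hc : ∀ y, 0 < y → 0 < f y - ph y → ∃ z, 0 < z ∧ z < y ∧ 0 < f z - ph z) :
    ∫ z, (∫ x, Kf μ (x + z) ∂μ) ∂(gaussianReal 0 1) ≤ ∫ y, (∫ x, Kf μ (x + y) ∂μ) ∂μ := by
  have he : ∀ x, f (-x) = f x := fun a =>
    le_antisymm (hfu a (-a) (by rw [abs_neg])) (hfu (-a) a (by rw [abs_neg]))
  obtain ⟨⟨i0, i2, z0, z2⟩, iG, hder, h0, hfin⟩ := even_setup hf hf0 hd he hμ hvar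
  have K2e := K2_neg hf hf0 hd he (μ := μ)
  have K2u := abs_mono K2e hK
  have K2b : ∀ v, |K2 μ v| ≤ K2 μ 0 * (1 + v ^ 2) := by
    intro v
    rw [abs_of_nonneg (K2_nonneg μ v)]
    have h1 := K2u 0 v (by simp)
    have h2 := K2_nonneg μ 0
    nlinarith [mul_nonneg h2 (sq_nonneg v)]
  obtain ⟨C1, hC10, hC1⟩ := K1_bound (μ := μ) hμ
  have hder2 : ∀ y, HasDerivAt (fun y => ∫ x, K1 μ (x + y) ∂μ) (∫ x, K2 μ (x + y) ∂μ) y :=
    fun y => hasDerivAt_avg hμ (hasDerivAt_K1 μ) (K2_cont μ) hC1 K2b y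
  have hanti := avg_anti hf hf0 hd hfu hμ (K2_cont μ).measurable K2b K2u
  have hcc : ConcaveOn ℝ (Ici 0) (fun y => ∫ x, K1 μ (x + y) ∂μ) := by
    apply AntitoneOn.concaveOn_of_deriv (convex_Ici 0)
    · exact fun y _ => (hder2 y).continuousAt.continuousWithinAt
    · exact fun y _ => (hder2 y).differentiableAt.differentiableWithinAt
    · intro a ha b hb hab
      rw [(hder2 a).deriv, (hder2 b).deriv]
      exact hanti (interior_subset ha) (interior_subset hb) hab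
  have := coreB_abs hder h0 hcc i0 i2 z0 z2 iG H hc
  linarith

/-- even class, `K''` increasing on the half line -/
lemma coreB_pos (hf : Measurable f) (hf0 : ∀ x, 0 ≤ f x)
    (hd : μ = volume.withDensity (fun x => ENNReal.ofReal (f x)))
    (hfu : ∀ a b : ℝ, |a| ≤ |b| → f b ≤ f a)
    (hμ : MemLp (fun x : ℝ => x) 2 μ) (hvar : variance (fun x : ℝ => x) μ = 1)
    (hK : MonotoneOn (K2 μ) (Ici 0))
    (H : ∀ y0 y1 y2, 0 < y0 → y0 < y1 → y1 < y2 → f y0 - ph y0 < 0 → 0 < f y1 - ph y1 →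
      f y2 - ph y2 < 0 → False)
    (hc : ∀ y, 0 < y → f y - ph y < 0 → ∃ z, 0 < z ∧ z < y ∧ f z - ph z < 0) :
    ∫ z, (∫ x, Kf μ (x + z) ∂μ) ∂(gaussianReal 0 1) ≤ ∫ y, (∫ x, Kf μ (x + y) ∂μ) ∂μ := by
  have he : ∀ x, f (-x) = f x := fun a =>
    le_antisymm (hfu a (-a) (by rw [abs_neg])) (hfu (-a) a (by rw [abs_neg]))
  obtain ⟨⟨i0, i2, z0, z2⟩, iG, hder, h0, hfin⟩ := even_setup hf hf0 hd he hμ hvar
  have K2e := K2_neg hf hf0 hd he (μ := μ)
  obtain ⟨C1, hC10, hC1⟩ := K1_bound (μ := μ) hμ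
  have K2b0 : ∀ v, 0 ≤ v → K2 μ v ≤ 4 * C1 * (1 + v ^ 2) := by
    intro v hv
    obtain ⟨c, hc, hc2⟩ := exists_hasDerivAt_eq_slope (K1 μ) (K2 μ) (show v < v + 1 by linarith)
      (K1_cont μ).continuousOn (fun y _ => hasDerivAt_K1 μ y)
    have h1 : K2 μ v ≤ K1 μ (v + 1) - K1 μ v := by
      have := hK (show v ∈ Ici (0:ℝ) from hv) (show c ∈ Ici (0:ℝ) from hv.trans hc.1.le) hc.1.le
      rw [hc2] at this
      simpa using this
    have h2 := abs_le.1 (hC1 v)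
    have h3 := abs_le.1 (hC1 (v + 1))
    nlinarith [mul_nonneg hC10 (sq_nonneg (v - 1)), mul_nonneg hC10 (sq_nonneg v)]
  have K2b : ∀ v, |-K2 μ v| ≤ 4 * C1 * (1 + v ^ 2) := by
    intro v
    rw [abs_neg, abs_of_nonneg (K2_nonneg μ v)]
    have h : K2 μ |v| = K2 μ v := by
      rcases abs_choice v with h | h
      · rw [h]
      · rw [h, K2e]
    rw [← h]
    have := K2b0 |v| (abs_nonneg v)
    rwa [sq_abs] at this
  have hnanti : AntitoneOn (fun v => - K2 μ v) (Ici 0) := fun a ha b hb hab => by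
    have := hK ha hb hab
    show - K2 μ b ≤ - K2 μ a
    linarith
  have K2u := abs_mono (q := fun v => - K2 μ v) (fun x => by
    show - K2 μ (-x) = - K2 μ x
    rw [K2e]) hnanti
  have hC1' : ∀ v, |-K1 μ v| ≤ C1 * (1 + v ^ 2) := fun v => by rw [abs_neg]; exact hC1 v
  have hder2 : ∀ y, HasDerivAt (fun y => ∫ x, -K1 μ (x + y) ∂μ) (∫ x, -K2 μ (x + y) ∂μ) y :=
    fun y => hasDerivAt_avg (H := fun v => - K1 μ v) (H' := fun v => - K2 μ v) hμ
      (fun v => (hasDerivAt_K1 μ v).fun_neg) (K2_cont μ).neg hC1' K2b y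
  have hanti := avg_anti hf hf0 hd hfu hμ (q := fun v => - K2 μ v) (K2_cont μ).neg.measurable K2b K2u
  have hcc : ConcaveOn ℝ (Ici 0) (fun y => ∫ x, -K1 μ (x + y) ∂μ) := by
    apply AntitoneOn.concaveOn_of_deriv (convex_Ici 0)
    · exact fun y _ => (hder2 y).continuousAt.continuousWithinAt
    · exact fun y _ => (hder2 y).differentiableAt.differentiableWithinAt
    · intro a ha b hb hab
      rw [(hder2 a).deriv, (hder2 b).deriv]
      exact hanti (interior_subset ha) (interior_subset hb) hab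
  have hderN : ∀ y, HasDerivAt (fun y => - ∫ x, Kf μ (x + y) ∂μ) (∫ x, -K1 μ (x + y) ∂μ) y := by
    intro y
    rw [integral_neg]
    exact (hder y).fun_neg
  have n2 : (fun y => y ^ 2 * -(f y - ph y)) = fun y => - (y ^ 2 * (f y - ph y)) := by
    funext y; ring
  have nG : (fun y => (- ∫ x, Kf μ (x + y) ∂μ) * -(f y - ph y))
      = fun y => (∫ x, Kf μ (x + y) ∂μ) * (f y - ph y) := by
    funext y; ring
  have := coreB_abs (G := fun y => - ∫ x, Kf μ (x + y) ∂μ) (d := fun y => -(f y - ph y)) hderN (by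
      rw [integral_neg, h0, neg_zero]) hcc i0.neg (by rw [n2]; exact i2.neg)
    (by rw [integral_neg, z0, neg_zero]) (by rw [n2, integral_neg, z2, neg_zero])
    (by rw [nG]; exact iG)
    (fun y0 y1 y2 h0 a b s0 s1 s2 => H y0 y1 y2 h0 a b (by linarith) (by linarith) (by linarith))
    (fun y h0 hy => by
      obtain ⟨z, hz0, hz1, hz2⟩ := hc y h0 (by linarith)
      exact ⟨z, hz0, hz1, by linarith⟩)
  rw [nG] at this
  linarith

end

end Pool.Agent.MP_ec2ab1_pr
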