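import Pool.Agent.Lib.MP_ec2ab1_pr.ClassB

set_option autoImplicit false
set_option linter.unusedSectionVars false
open MeasureTheory ProbabilityTheory Set Filter Topology

namespace Pool.Agent.MP_ec2ab1_pr

lemma deriv_odd {s : Set ℝ} {V V' : ℝ → ℝ} (hs : IsOpen s) (hsym : ∀ x ∈ s, -x ∈ s)
    (hVe : ∀ x ∈ s, V (-x) = V x) (hV : ∀ x ∈ s, HasDerivAt V (V' x) x) :
    ∀ x ∈ s, V' (-x) = - V' x := by
  intro x hx
  have h1 : HasDerivAt (fun y => V (-y)) (-V' (-x)) x := by
    have h0 : HasDerivAt V (V' (-x)) (0 - x) := by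
      rw [zero_sub]; exact hV (-x) (hsym x hx)
    have := h0.comp_const_sub 0 x
    simpa only [zero_sub] using this
  have h2 : HasDerivAt V (-V' (-x)) x := by
    refine h1.congr_of_eventuallyEq ?_
    filter_upwards [hs.mem_nhds hx] with y hy
    exact (hVe y hy).symm
  have := h2.unique (hV x hx)
  linarith

lemma mem_sym {s : Set ℝ} (hs2 : s.OrdConnected) (hsym : ∀ x ∈ s, -x ∈ s) {a b : ℝ}
    (hb : b ∈ s) (hab : |a| ≤ |b|) : a ∈ s := by
  have h1 : |b| ∈ s := by
    rcases abs_choice b with h | h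
    · rw [h]; exact hb
    · rw [h]; exact hsym b hb
  have h2 := abs_le.1 hab
  exact hs2.out (hsym _ h1) h1 ⟨h2.1, h2.2⟩

section
variable {μ : Measure ℝ} [IsProbabilityMeasure μ]

lemma dens_unimodal {s : Set ℝ} {Φ : ℝ → ℝ} (hs2 : s.OrdConnected) (hsym : ∀ x ∈ s, -x ∈ s)
    (he : ∀ x ∈ s, Φ (-x) = Φ x) (hm : MonotoneOn Φ (s ∩ Ici 0)) (a b : ℝ) (hab : |a| ≤ |b|) :
    dens s Φ b ≤ dens s Φ a := by
  by_cases hb : b ∈ s
  · have ha := mem_sym hs2 hsym hb hab
    have h : ∀ x ∈ s, Φ |x| = Φ x ∧ |x| ∈ s := by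
      intro x hx
      rcases abs_choice x with h | h
      · rw [h]; exact ⟨rfl, hx⟩
      · rw [h]; exact ⟨he x hx, hsym x hx⟩
    rw [dens_mem ha, dens_mem hb, Real.exp_le_exp, ← (h a ha).1, ← (h b hb).1]
    have := hm ⟨(h a ha).2, abs_nonneg a⟩ ⟨(h b hb).2, abs_nonneg b⟩ hab
    linarith
  · rw [dens_notMem hb]; exact dens_nonneg s Φ a

lemma K1_nonneg_of_even {f : ℝ → ℝ} (hf : Measurable f) (hf0 : ∀ x, 0 ≤ f x)
    (hd : μ = volume.withDensity (fun x => ENNReal.ofReal (f x))) (he : ∀ x, f (-x) = f x)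
    {v : ℝ} (hv : 0 ≤ v) : 0 ≤ K1 μ v := by
  have h0 : K1 μ 0 = 0 := by
    have := K1_neg hf hf0 hd he (μ := μ) 0
    rw [neg_zero] at this
    linarith
  have := K1_mono μ hv
  rwa [h0] at this

/-- **class B1** (centred): even, `V'` convex and nonnegative on the positive part -/
lemma classB1 {s : Set ℝ} {V V' : ℝ → ℝ} (hs : IsOpen s) (hs2 : s.OrdConnected)
    (hsym : ∀ x ∈ s, -x ∈ s) (hVe : ∀ x ∈ s, V (-x) = V x)
    (hV : ∀ x ∈ s, HasDerivAt V (V' x) x) (hpos : ∀ x ∈ s, 0 ≤ x → 0 ≤ V' x)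
    (hcV : ConvexOn ℝ (s ∩ Ici 0) V')
    (hd : μ = volume.withDensity (fun x => ENNReal.ofReal (dens s V x)))
    (hμ : MemLp (fun x : ℝ => x) 2 μ) (hvar : variance (fun x : ℝ => x) μ = 1) :
    ∫ z, (∫ x, Kf μ (x + z) ∂μ) ∂(gaussianReal 0 1) ≤ ∫ y, (∫ x, Kf μ (x + y) ∂μ) ∂μ := by
  have hc : ContinuousOn V s := fun x hx => (hV x hx).continuousAt.continuousWithinAt
  have hfm := dens_measurable hs.measurableSet hc
  have hodd := deriv_odd hs hsym hVe hV
  have hmono : MonotoneOn V (s ∩ Ici 0) := by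
    apply monotoneOn_of_deriv_nonneg hcV.1 (hc.mono inter_subset_left)
    · exact fun x hx => (hV x (interior_subset hx).1).differentiableAt.differentiableWithinAt
    · intro x hx
      have := interior_subset hx
      rw [(hV x this.1).deriv]
      exact hpos x this.1 this.2
  have hfu := dens_unimodal hs2 hsym hVe hmono
  have he : ∀ x, dens s V (-x) = dens s V x := fun a =>
    le_antisymm (hfu a (-a) (by rw [abs_neg])) (hfu (-a) a (by rw [abs_neg]))
  have hK : AntitoneOn (K2 μ) (Ici 0) := by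
    refine K2_anti (convex_Ici 0) fun v hv => ?_
    have hm0 : 0 ≤ K1 μ v := K1_nonneg_of_even hfm (dens_nonneg s V) hd he hv
    refine cm3_nonpos_of_star hs.measurableSet hs2 hc hd rfl ?_ ?_
    · intro t ht h
      refine mem_sym hs2 hsym h ?_
      rw [abs_of_nonneg (show 0 ≤ K1 μ v + t by linarith), abs_le]
      constructor <;> linarith
    · intro t t1 ht htt h1 h2
      exact odd_part' (fun x hx => hV x (hs2.out h1 h2 hx))
        (U_mono_odd hsym hs2 hodd hcV hm0 h2) ht htt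
  refine coreB_neg hfm (dens_nonneg s V) hd hfu hμ hvar hK ?_ ?_
  · intro y0 y1 y2 p0 a01 a12 s0 s1 s2
    rw [← add_zero y0] at s0
    rw [← add_zero y1] at s1
    rw [← add_zero y2] at s2
    have e0 : ph (y0 + 0) = ph y0 := by rw [add_zero]
    have e1 : ph (y1 + 0) = ph y1 := by rw [add_zero]
    have e2 : ph (y2 + 0) = ph y2 := by rw [add_zero]
    rw [e0] at s0
    rw [e1] at s1
    rw [e2] at s2
    have m2 := mem_of_pos s2
    have mem : ∀ y, 0 ≤ y → y ≤ y2 → y + 0 ∈ s := by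
      intro y hy hy2
      refine mem_sym hs2 hsym m2 ?_
      rw [add_zero, add_zero, abs_of_nonneg hy, abs_of_nonneg (hy.trans hy2)]
      exact hy2
    have m0 := mem y0 p0.le (by linarith)
    have m1 := mem y1 (by linarith) (by linarith)
    have m00 := mem 0 le_rfl (by linarith)
    rw [sgn_pos m0] at s0
    rw [sgn_neg m1] at s1
    rw [sgn_pos m2] at s2
    obtain ⟨c1, p1, q1, r1, e1⟩ := mvt_wf hs2 (fun x hx _ _ => hV x hx) a01 m0 m1
    obtain ⟨c2, p2, q2, r2, e2⟩ := mvt_wf hs2 (fun x hx _ _ => hV x hx) a12 m1 m2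
    rw [add_zero] at r1 r2 e1 e2 m00
    have k1 : c1 - V' c1 < 0 := by
      by_contra hcon
      push Not at hcon
      have := mul_nonneg (show 0 ≤ y1 - y0 by linarith) hcon
      linarith
    have k2 : 0 < c2 - V' c2 := by
      by_contra hcon
      push Not at hcon
      have := mul_nonpos_of_nonneg_of_nonpos (show 0 ≤ y2 - y1 by linarith) hcon
      linarith
    have hV0 : V' 0 = 0 := by
      have := hodd 0 m00
      rw [neg_zero] at this
      linarith
    have hc1 : 0 < c1 := by linarith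
    have hc2 : 0 < c2 := by linarith
    have l1 : 0 ≤ 1 - c1 / c2 := by rw [sub_nonneg, div_le_one hc2]; linarith
    have l2 : 0 < c1 / c2 := div_pos hc1 hc2
    have e := hcV.2 (show (0:ℝ) ∈ s ∩ Ici 0 from ⟨m00, mem_Ici.2 le_rfl⟩)
      (show c2 ∈ s ∩ Ici 0 from ⟨r2, hc2.le⟩) l1 l2.le (by ring)
    have e4 : (1 - c1 / c2) • (0:ℝ) + (c1 / c2) • c2 = c1 := by
      simp only [smul_eq_mul]; field_simp; ring
    rw [e4, hV0] at e
    simp only [smul_eq_mul, mul_zero, zero_add] at e
    have e5 : (c1 / c2) * (c2 - V' c2) = c1 - c1 / c2 * V' c2 := by field_simp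
    have f2 := mul_pos l2 k2
    rw [e5] at f2
    linarith
  · intro y hy hyd
    have hyd' : 0 < dens s V (y + 0) - ph y := by rw [add_zero]; exact hyd
    obtain ⟨z, h1, h2, h3⟩ := exists_left (contAt_d hs hc (mem_of_pos hyd')) hyd' hy
    rw [add_zero] at h3
    exact ⟨z, h1, h2, h3⟩

/-- **class B2** (centred): density `e^{-κ|x| - V(x)}`, `V` even, `V'` concave, nonnegative on
the half line -/
lemma classB2 {V V' : ℝ → ℝ} {κ : ℝ} (hκ : 0 ≤ κ) (hVe : ∀ x, V (-x) = V x)
    (hV : ∀ x, HasDerivAt V (V' x) x) (hpos : ∀ x, 0 ≤ x → 0 ≤ V' x)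
    (hcV : ConcaveOn ℝ (Ici 0) V')
    (hd : μ = volume.withDensity (fun x => ENNReal.ofReal (dens univ (fun x => κ * |x| + V x) x)))
    (hμ : MemLp (fun x : ℝ => x) 2 μ) (hvar : variance (fun x : ℝ => x) μ = 1) :
    ∫ z, (∫ x, Kf μ (x + z) ∂μ) ∂(gaussianReal 0 1) ≤ ∫ y, (∫ x, Kf μ (x + y) ∂μ) ∂μ := by
  have hVc : Continuous V := continuous_iff_continuousAt.2 fun v => (hV v).continuousAt
  set Φ : ℝ → ℝ := fun x => κ * |x| + V x with hΦ
  have hc : ContinuousOn Φ univ := by
    apply Continuous.continuousOn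
    rw [hΦ]; fun_prop
  have hfm := dens_measurable MeasurableSet.univ hc
  have hodd := deriv_odd isOpen_univ (fun x _ => mem_univ (-x)) (fun x _ => hVe x) (fun x _ => hV x)
  have hmonoV : MonotoneOn V (Ici 0) := by
    apply monotoneOn_of_deriv_nonneg (convex_Ici 0) hVc.continuousOn
    · exact fun x _ => (hV x).differentiableAt.differentiableWithinAt
    · intro x hx
      rw [(hV x).deriv]
      exact hpos x (interior_subset hx)
  have hmono : MonotoneOn Φ (univ ∩ Ici 0) := by
    rintro a ⟨_, ha⟩ b ⟨_, hb⟩ hab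
    have ha' : (0:ℝ) ≤ a := ha
    have hb' : (0:ℝ) ≤ b := hb
    have h1 := hmonoV ha hb hab
    show κ * |a| + V a ≤ κ * |b| + V b
    rw [abs_of_nonneg ha', abs_of_nonneg hb']
    have := mul_le_mul_of_nonneg_left hab hκ
    linarith
  have hΦe : ∀ x ∈ (univ : Set ℝ), Φ (-x) = Φ x := by
    intro x _
    show κ * |-x| + V (-x) = κ * |x| + V x
    rw [abs_neg, hVe]
  have hfu := dens_unimodal (s := univ) (Φ := Φ) ordConnected_univ (fun x _ => mem_univ (-x)) hΦe hmono
  have he : ∀ x, dens univ Φ (-x) = dens univ Φ x := fun a =>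
    le_antisymm (hfu a (-a) (by rw [abs_neg])) (hfu (-a) a (by rw [abs_neg]))
  have hK : MonotoneOn (K2 μ) (Ici 0) := by
    refine K2_mono (convex_Ici 0) fun v hv => ?_
    have hm0 : 0 ≤ K1 μ v := K1_nonneg_of_even hfm (dens_nonneg univ Φ) hd he hv
    set m := K1 μ v with hm
    refine cm3_nonneg_of_star MeasurableSet.univ ordConnected_univ hc hd hm ?_ ?_
    · intro t ht h
      exact mem_univ _
    · intro t t1 ht htt _ _
      have hneg : ConvexOn ℝ (univ ∩ Ici 0) (fun x => - V' x) := by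
        rw [univ_inter]; exact hcV.neg
      have hU := U_mono_odd (s := univ) (F := fun x => - V' x) (fun x _ => mem_univ (-x))
        ordConnected_univ (fun x hx => by
          show - V' (-x) = - - V' x
          rw [hodd x hx]) hneg hm0 (mem_univ (m + t1))
      have hU' : AntitoneOn (fun t => V' (m + t) + V' (m - t)) (Icc 0 t1) := by
        intro a ha b hb hab
        have := hU ha hb hab
        simp only at this ⊢
        linarith
      have h1 := odd_part (fun x _ => hV x) hU' ht htt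
      have h2 : t * (|m + t1| - |m - t1|) ≤ t1 * (|m + t| - |m - t|) := by
        have t1pos : 0 < t1 := ht.trans htt
        rw [abs_of_nonneg (show 0 ≤ m + t1 by linarith), abs_of_nonneg (show 0 ≤ m + t by linarith)]
        rcases le_total t1 m with h | h
        · rw [abs_of_nonneg (show 0 ≤ m - t1 by linarith), abs_of_nonneg (show 0 ≤ m - t by linarith)]
          nlinarith
        · rw [abs_of_nonpos (show m - t1 ≤ 0 by linarith)]
          rcases le_total t m with h' | h'
          · rw [abs_of_nonneg (show 0 ≤ m - t by linarith)]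
            nlinarith
          · rw [abs_of_nonpos (show m - t ≤ 0 by linarith)]
            nlinarith
      have h3 := mul_le_mul_of_nonneg_left h2 hκ
      show t * ((κ * |m + t1| + V (m + t1)) - (κ * |m - t1| + V (m - t1)))
        ≤ t1 * ((κ * |m + t| + V (m + t)) - (κ * |m - t| + V (m - t)))
      nlinarith [h1, h3]
  have hΦd : ∀ x, 0 < x → HasDerivAt Φ (κ + V' x) x := by
    intro x hx
    have h1 : HasDerivAt (fun x : ℝ => κ * |x|) κ x := by
      have h2 : HasDerivAt (fun x : ℝ => κ * x) κ x := by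
        simpa using (hasDerivAt_id x).const_mul κ
      refine h2.congr_of_eventuallyEq ?_
      filter_upwards [lt_mem_nhds hx] with y hy
      show κ * |y| = κ * y
      rw [abs_of_pos hy]
    exact h1.add (hV x)
  refine coreB_pos hfm (dens_nonneg univ Φ) hd hfu hμ hvar hK ?_ ?_
  · intro y0 y1 y2 p0 a01 a12 s0 s1 s2
    have m0 : ∀ y : ℝ, y + 0 ∈ (univ : Set ℝ) := fun y => mem_univ _
    have s0' : wf Φ 0 y0 < 0 := by
      rw [← sgn_neg (m0 y0), add_zero]; exact s0
    have s1' : 0 < wf Φ 0 y1 := by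
      rw [← sgn_pos (m0 y1), add_zero]; exact s1
    have s2' : wf Φ 0 y2 < 0 := by
      rw [← sgn_neg (m0 y2), add_zero]; exact s2
    obtain ⟨c1, p1, q1, r1, e1⟩ := mvt_wf (Φ := Φ) (Φ' := fun x => κ + V' x) (m := 0)
      ordConnected_univ (fun x _ hx1 _ => hΦd x (by linarith)) a01 (m0 y0) (m0 y1)
    obtain ⟨c2, p2, q2, r2, e2⟩ := mvt_wf (Φ := Φ) (Φ' := fun x => κ + V' x) (m := 0)
      ordConnected_univ (fun x _ hx1 _ => hΦd x (by linarith)) a12 (m0 y1) (m0 y2)
    simp only [add_zero] at e1 e2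
    have k1 : 0 < c1 - (κ + V' c1) := by
      by_contra hcon
      push Not at hcon
      have := mul_nonpos_of_nonneg_of_nonpos (show 0 ≤ y1 - y0 by linarith) hcon
      linarith
    have k2 : c2 - (κ + V' c2) < 0 := by
      by_contra hcon
      push Not at hcon
      have := mul_nonneg (show 0 ≤ y2 - y1 by linarith) hcon
      linarith
    have hV0 : V' 0 = 0 := by
      have := hodd 0 (mem_univ _)
      rw [neg_zero] at this
      linarith
    have hc1 : 0 < c1 := by linarith
    have hc2 : 0 < c2 := by linarith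
    have l1 : 0 ≤ 1 - c1 / c2 := by rw [sub_nonneg, div_le_one hc2]; linarith
    have l2 : 0 < c1 / c2 := div_pos hc1 hc2
    have e := hcV.2 (show (0:ℝ) ∈ Ici 0 from mem_Ici.2 le_rfl)
      (show c2 ∈ Ici (0:ℝ) from hc2.le) l1 l2.le (by ring)
    have e4 : (1 - c1 / c2) • (0:ℝ) + (c1 / c2) • c2 = c1 := by
      simp only [smul_eq_mul]; field_simp; ring
    rw [e4, hV0] at e
    simp only [smul_eq_mul, mul_zero, zero_add] at e
    have e5 : (c1 / c2) * (c2 - (κ + V' c2)) = c1 - c1 / c2 * κ - c1 / c2 * V' c2 := by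
      field_simp; ring
    have f2 := mul_neg_of_pos_of_neg l2 k2
    rw [e5] at f2
    have f3 : c1 / c2 * κ ≤ κ := by
      have : c1 / c2 ≤ 1 := by linarith
      nlinarith
    linarith
  · intro y hy hyd
    have hyd' : 0 < -(dens univ Φ (y + 0) - ph y) := by rw [add_zero]; linarith
    have hcont := (contAt_d isOpen_univ hc (m := 0) (y := y) (mem_univ _)).neg
    obtain ⟨z, h1, h2, h3⟩ := exists_left hcont hyd' hy
    have h3' : 0 < -(dens univ Φ (z + 0) - ph z) := h3
    rw [add_zero] at h3'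
    exact ⟨z, h1, h2, by linarith⟩

end

end Pool.Agent.MP_ec2ab1_pr
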