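import Pool.Agent.Lib.MP_ec2ab1_pr.Cross

set_option autoImplicit false
set_option linter.unusedSectionVars false
open MeasureTheory ProbabilityTheory Set Filter Topology

namespace Pool.Agent.MP_ec2ab1_pr

/-- four point inequality for convex functions -/
lemma four_point {s : Set ℝ} {F : ℝ → ℝ} (hF : ConvexOn ℝ s F) {a b c d : ℝ} (ha : a ∈ s)
    (hd : d ∈ s) (hab : a ≤ b) (hbd : b ≤ d) (hsum : a + d = b + c) :
    F b + F c ≤ F a + F d := by
  rcases eq_or_lt_of_le (hab.trans hbd) with h | h
  · have h1 : b = a := by linarith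
    have h2 : c = d := by linarith
    rw [h1, h2]
  · have hpos : 0 < d - a := by linarith
    have l1 : 0 ≤ (d - b) / (d - a) := div_nonneg (by linarith) hpos.le
    have l2 : 0 ≤ (b - a) / (d - a) := div_nonneg (by linarith) hpos.le
    have l3 : (d - b) / (d - a) + (b - a) / (d - a) = 1 := by
      rw [← add_div]; rw [div_eq_one_iff_eq hpos.ne']; ring
    have e1 := hF.2 ha hd l1 l2 l3
    have e2 := hF.2 ha hd l2 l1 (by rw [add_comm]; exact l3)
    have b1 : ((d - b) / (d - a)) • a + ((b - a) / (d - a)) • d = b := by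
      simp only [smul_eq_mul]; field_simp; ring
    have c1 : ((b - a) / (d - a)) • a + ((d - b) / (d - a)) • d = c := by
      have : c = a + d - b := by linarith
      rw [this]
      simp only [smul_eq_mul]; field_simp; ring
    rw [b1] at e1
    rw [c1] at e2
    simp only [smul_eq_mul] at e1 e2
    have e3 : (d - b) / (d - a) * F a + (b - a) / (d - a) * F d
        + ((b - a) / (d - a) * F a + (d - b) / (d - a) * F d) = F a + F d := by
      have : (d - b) / (d - a) * F a + (b - a) / (d - a) * F d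
        + ((b - a) / (d - a) * F a + (d - b) / (d - a) * F d)
        = ((d - b) / (d - a) + (b - a) / (d - a)) * (F a + F d) := by ring
      rw [this, l3, one_mul]
    linarith

lemma concave_zero {h : ℝ → ℝ} {t1 : ℝ} (hc : ConcaveOn ℝ (Icc 0 t1) h) (h0 : h 0 = 0) {t : ℝ}
    (ht : 0 < t) (htt : t < t1) : t * h t1 ≤ t1 * h t := by
  have hpos : 0 < t1 := ht.trans htt
  have l1 : 0 ≤ 1 - t / t1 := by
    rw [sub_nonneg, div_le_one hpos]; exact htt.le
  have l2 : 0 ≤ t / t1 := (div_pos ht hpos).le
  have e := hc.2 (left_mem_Icc.2 hpos.le) (right_mem_Icc.2 hpos.le) l1 l2 (by ring)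
  have e1 : (1 - t / t1) • (0:ℝ) + (t / t1) • t1 = t := by
    simp only [smul_eq_mul]; field_simp; ring
  rw [e1, h0] at e
  simp only [smul_eq_mul, mul_zero, zero_add] at e
  have := mul_le_mul_of_nonneg_left e hpos.le
  have e2 : t1 * (t / t1 * h t1) = t * h t1 := by field_simp
  rw [e2] at this
  exact this

/-- star-shapedness of the odd part -/
lemma odd_part {V V' : ℝ → ℝ} {m t1 : ℝ}
    (hV : ∀ x ∈ Icc (m - t1) (m + t1), HasDerivAt V (V' x) x)
    (hU : AntitoneOn (fun t => V' (m + t) + V' (m - t)) (Icc 0 t1)) {t : ℝ}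
    (ht : 0 < t) (htt : t < t1) :
    t * (V (m + t1) - V (m - t1)) ≤ t1 * (V (m + t) - V (m - t)) := by
  have hder : ∀ t ∈ Icc (0:ℝ) t1, HasDerivAt (fun t => V (m + t) - V (m - t))
      (V' (m + t) + V' (m - t)) t := by
    intro t ht
    have h1 : HasDerivAt (fun t => V (m + t)) (V' (m + t)) t := by
      have := (hV (m + t) ⟨by linarith [ht.1, ht.2], by linarith [ht.2]⟩).comp_const_add m t
      exact this
    have h2 : HasDerivAt (fun t => V (m - t)) (-V' (m - t)) t := by
      have := (hV (m - t) ⟨by linarith [ht.2], by linarith [ht.1, ht.2]⟩).comp_const_sub m t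
      exact this
    have := h1.sub h2
    exact this.congr_deriv (by ring)
  have hc : ConcaveOn ℝ (Icc 0 t1) (fun t => V (m + t) - V (m - t)) := by
    apply AntitoneOn.concaveOn_of_deriv (convex_Icc 0 t1)
    · intro t ht
      exact (hder t ht).continuousAt.continuousWithinAt
    · intro t ht
      exact (hder t (interior_subset ht)).differentiableAt.differentiableWithinAt
    · intro a ha b hb hab
      rw [(hder a (interior_subset ha)).deriv, (hder b (interior_subset hb)).deriv]
      exact hU (interior_subset ha) (interior_subset hb) hab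
  have h := concave_zero hc (by simp) ht htt
  exact h

lemma odd_part' {V V' : ℝ → ℝ} {m t1 : ℝ}
    (hV : ∀ x ∈ Icc (m - t1) (m + t1), HasDerivAt V (V' x) x)
    (hU : MonotoneOn (fun t => V' (m + t) + V' (m - t)) (Icc 0 t1)) {t : ℝ}
    (ht : 0 < t) (htt : t < t1) :
    t1 * (V (m + t) - V (m - t)) ≤ t * (V (m + t1) - V (m - t1)) := by
  have h := odd_part (V := fun x => - V x) (V' := fun x => - V' x) (m := m) (t1 := t1)
    (fun x hx => (hV x hx).fun_neg) (by
      intro a ha b hb hab
      have := hU ha hb hab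
      simp only at this ⊢
      linarith) ht htt
  have e1 : t * ((fun x => - V x) (m + t1) - (fun x => - V x) (m - t1))
    = - (t * (V (m + t1) - V (m - t1))) := by ring
  have e2 : t1 * ((fun x => - V x) (m + t) - (fun x => - V x) (m - t))
    = - (t1 * (V (m + t) - V (m - t))) := by ring
  rw [e1, e2] at h
  linarith

lemma U_anti {s : Set ℝ} {F : ℝ → ℝ} (hF : ConcaveOn ℝ s F) {m t1 : ℝ} (h1 : m - t1 ∈ s)
    (h2 : m + t1 ∈ s) : AntitoneOn (fun t => F (m + t) + F (m - t)) (Icc 0 t1) := by
  intro a ha b hb hab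
  have hb1 : m - b ∈ s := hF.1.ordConnected.out h1 h2 ⟨by linarith [hb.2], by linarith [hb.1, hb.2]⟩
  have hb2 : m + b ∈ s := hF.1.ordConnected.out h1 h2 ⟨by linarith [hb.1, hb.2], by linarith [hb.2]⟩
  have h := four_point hF.neg (a := m - b) (b := m - a) (c := m + a) (d := m + b) hb1 hb2
    (by linarith) (by linarith [ha.1, hb.1]) (by ring)
  simp only [Pi.neg_apply] at h
  show F (m + b) + F (m - b) ≤ F (m + a) + F (m - a)
  linarith

lemma U_mono_odd {s : Set ℝ} {F : ℝ → ℝ} (hs : ∀ x ∈ s, -x ∈ s) (hs2 : s.OrdConnected)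
    (hodd : ∀ x ∈ s, F (-x) = - F x) (hF : ConvexOn ℝ (s ∩ Ici 0) F) {m t1 : ℝ} (hm : 0 ≤ m)
    (h2 : m + t1 ∈ s) : MonotoneOn (fun t => F (m + t) + F (m - t)) (Icc 0 t1) := by
  have hmem : ∀ x, 0 ≤ x → x ≤ m + t1 → x ∈ s := by
    intro x hx hx2
    exact hs2.out (hs _ h2) h2 ⟨by linarith, hx2⟩
  have key1 : ∀ a b, 0 ≤ a → a ≤ b → b ≤ m → b ≤ t1 →
      F (m + a) + F (m - a) ≤ F (m + b) + F (m - b) := by
    intro a b ha hab hbm hbt
    have h := four_point hF (a := m - b) (b := m - a) (c := m + a) (d := m + b)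
      ⟨hmem _ (by linarith) (by linarith), show (0:ℝ) ≤ m - b by linarith⟩
      ⟨hmem _ (by linarith) (by linarith), show (0:ℝ) ≤ m + b by linarith⟩
      (by linarith) (by linarith) (by ring)
    linarith
  have key2 : ∀ a b, m ≤ a → a ≤ b → b ≤ t1 →
      F (m + a) + F (m - a) ≤ F (m + b) + F (m - b) := by
    intro a b hma hab hbt
    have o1 : F (m - a) = - F (a - m) := by
      have := hodd (a - m) (hmem _ (by linarith) (by linarith))
      rw [← this]; congr 1; ring
    have o2 : F (m - b) = - F (b - m) := by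
      have := hodd (b - m) (hmem _ (by linarith) (by linarith))
      rw [← this]; congr 1; ring
    have h := four_point hF (a := a - m) (b := b - m) (c := m + a) (d := m + b)
      ⟨hmem _ (by linarith) (by linarith), show (0:ℝ) ≤ a - m by linarith⟩
      ⟨hmem _ (by linarith) (by linarith), show (0:ℝ) ≤ m + b by linarith⟩
      (by linarith) (by linarith) (by ring)
    rw [o1, o2]
    linarith
  intro a ha b hb hab
  show F (m + a) + F (m - a) ≤ F (m + b) + F (m - b)
  rcases le_total b m with h | h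
  · exact key1 a b ha.1 hab h hb.2
  · rcases le_total m a with h' | h'
    · exact key2 a b h' hab hb.2
    · exact (key1 a m ha.1 h' le_rfl (h.trans hb.2)).trans (key2 m b le_rfl h hb.2)

/-- sign of a function with convex derivative and three zeros -/
lemma sign_three {F G : ℝ → ℝ} (hF : ∀ y, HasDerivAt F (G y) y) (hG : ConvexOn ℝ univ G)
    {x1 x2 x3 : ℝ} (h12 : x1 < x2) (h23 : x2 < x3) (f1 : F x1 = 0) (f2 : F x2 = 0)
    (f3 : F x3 = 0) (y : ℝ) : 0 ≤ F y * ((y - x1) * (y - x2) * (y - x3)) := by
  have hcont : Continuous F := continuous_iff_continuousAt.2 fun y => (hF y).continuousAt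
  obtain ⟨p, hp, hp0⟩ := exists_hasDerivAt_eq_zero h12 hcont.continuousOn (by rw [f1, f2])
    (fun x _ => hF x)
  obtain ⟨q, hq, hq0⟩ := exists_hasDerivAt_eq_zero h23 hcont.continuousOn (by rw [f2, f3])
    (fun x _ => hF x)
  have hpq : p < q := hp.2.trans hq.1
  -- signs of G
  have g1 : ∀ z, z ≤ p → 0 ≤ G z := by
    intro z hz
    have h := four_point hG (a := z) (b := p) (c := z + q - p) (d := q) (mem_univ _) (mem_univ _)
      hz hpq.le (by ring)
    by_contra hc
    push Not at hc
    rcases eq_or_lt_of_le hz with he | hl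
    · rw [he, hp0] at hc; exact lt_irrefl _ hc
    · have l1 : 0 < (q - p) / (q - z) := div_pos (by linarith) (by linarith)
      have l2 : 0 ≤ (p - z) / (q - z) := div_nonneg (by linarith) (by linarith)
      have hqz : 0 < q - z := by linarith
      have l3 : (q - p) / (q - z) + (p - z) / (q - z) = 1 := by
        rw [← add_div, div_eq_one_iff_eq hqz.ne']; ring
      have e := hG.2 (mem_univ z) (mem_univ q) l1.le l2 l3
      have e1 : ((q - p) / (q - z)) • z + ((p - z) / (q - z)) • q = p := by
        simp only [smul_eq_mul]; field_simp; ring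
      rw [e1, hp0, hq0] at e
      simp only [smul_eq_mul, mul_zero, add_zero] at e
      have := mul_neg_of_pos_of_neg l1 hc
      linarith
  have g2 : ∀ z, p ≤ z → z ≤ q → G z ≤ 0 := by
    intro z hz1 hz2
    have := hG.le_max_of_mem_Icc (mem_univ p) (mem_univ q) (show z ∈ Icc p q from ⟨hz1, hz2⟩)
    rw [hp0, hq0] at this
    simpa using this
  have g3 : ∀ z, q ≤ z → 0 ≤ G z := by
    intro z hz
    by_contra hc
    push Not at hc
    rcases eq_or_lt_of_le hz with he | hl
    · rw [← he, hq0] at hc; exact lt_irrefl _ hc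
    · have hqz : 0 < z - p := by linarith
      have l1 : 0 < (q - p) / (z - p) := div_pos (by linarith) hqz
      have l2 : 0 ≤ (z - q) / (z - p) := div_nonneg (by linarith) hqz.le
      have l3 : (z - q) / (z - p) + (q - p) / (z - p) = 1 := by
        rw [← add_div, div_eq_one_iff_eq hqz.ne']; ring
      have e := hG.2 (mem_univ p) (mem_univ z) l2 l1.le l3
      have e1 : ((z - q) / (z - p)) • p + ((q - p) / (z - p)) • z = q := by
        simp only [smul_eq_mul]; field_simp; ring
      rw [e1, hp0, hq0] at e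
      simp only [smul_eq_mul, mul_zero, zero_add] at e
      have := mul_neg_of_pos_of_neg l1 hc
      linarith
  have m1 : MonotoneOn F (Iic p) := by
    apply monotoneOn_of_deriv_nonneg (convex_Iic p) hcont.continuousOn
    · exact fun x _ => (hF x).differentiableAt.differentiableWithinAt
    · intro x hx
      rw [(hF x).deriv]
      have hx' : x ∈ Iic p := interior_subset hx
      exact g1 x hx'
  have m2 : AntitoneOn F (Icc p q) := by
    apply antitoneOn_of_deriv_nonpos (convex_Icc p q) hcont.continuousOn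
    · exact fun x _ => (hF x).differentiableAt.differentiableWithinAt
    · intro x hx
      rw [(hF x).deriv]
      exact g2 x (interior_subset hx).1 (interior_subset hx).2
  have m3 : MonotoneOn F (Ici q) := by
    apply monotoneOn_of_deriv_nonneg (convex_Ici q) hcont.continuousOn
    · exact fun x _ => (hF x).differentiableAt.differentiableWithinAt
    · intro x hx
      rw [(hF x).deriv]
      exact g3 x (interior_subset hx)
  obtain ⟨hp1, hp2⟩ := hp
  obtain ⟨hq1, hq2⟩ := hq
  rcases le_total y x1 with a | a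
  · have : F y ≤ F x1 := m1 (show y ≤ p by linarith) (show x1 ≤ p by linarith) a
    rw [f1] at this
    have h1 : (y - x1) * (y - x2) * (y - x3) ≤ 0 :=
      mul_nonpos_of_nonneg_of_nonpos (mul_nonneg_of_nonpos_of_nonpos (by linarith) (by linarith))
        (by linarith)
    exact mul_nonneg_of_nonpos_of_nonpos this h1
  rcases le_total y x2 with b | b
  · have h0 : 0 ≤ F y := by
      rcases le_total y p with c | c
      · have : F x1 ≤ F y := m1 (show x1 ≤ p by linarith) (show y ≤ p by linarith) a
        rwa [f1] at this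
      · have : F x2 ≤ F y := m2 ⟨c, by linarith⟩ ⟨hp2.le, hq1.le⟩ b
        rwa [f2] at this
    have h1 : 0 ≤ (y - x1) * (y - x2) * (y - x3) :=
      mul_nonneg_of_nonpos_of_nonpos
        (mul_nonpos_of_nonneg_of_nonpos (by linarith) (by linarith)) (by linarith)
    exact mul_nonneg h0 h1
  rcases le_total y x3 with c | c
  · have h0 : F y ≤ 0 := by
      rcases le_total y q with d | d
      · have : F y ≤ F x2 := m2 ⟨hp2.le, hq1.le⟩ ⟨by linarith, d⟩ b
        rwa [f2] at this
      · have : F y ≤ F x3 := m3 (show q ≤ y from d) (show q ≤ x3 from hq2.le) c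
        rwa [f3] at this
    have h1 : (y - x1) * (y - x2) * (y - x3) ≤ 0 :=
      mul_nonpos_of_nonneg_of_nonpos (mul_nonneg (by linarith) (by linarith)) (by linarith)
    exact mul_nonneg_of_nonpos_of_nonpos h0 h1
  · have h0 : 0 ≤ F y := by
      have : F x3 ≤ F y := m3 (show q ≤ x3 from hq2.le) (show q ≤ y by linarith) c
      rwa [f3] at this
    have h1 : 0 ≤ (y - x1) * (y - x2) * (y - x3) :=
      mul_nonneg (mul_nonneg (by linarith) (by linarith)) (by linarith)
    exact mul_nonneg h0 h1

/-- quadratic interpolation of a function with convex derivative -/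
lemma interpA {F F' : ℝ → ℝ} (hF : ∀ y, HasDerivAt F (F' y) y) (hc : ConvexOn ℝ univ F')
    {x1 x2 x3 : ℝ} (h12 : x1 < x2) (h23 : x2 < x3) :
    ∃ α β γ : ℝ, ∀ y, 0 ≤ (F y - (α + β * y + γ * y ^ 2)) * ((y - x1) * (y - x2) * (y - x3)) := by
  set A := (F x2 - F x1) / (x2 - x1) with hA
  set B := ((F x3 - F x1) / (x3 - x1) - A) / (x3 - x2) with hB
  refine ⟨F x1 - A * x1 + B * x1 * x2, A - B * (x1 + x2), B, fun y => ?_⟩
  have hq : ∀ y, (F x1 - A * x1 + B * x1 * x2) + (A - B * (x1 + x2)) * y + B * y ^ 2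
      = F x1 + A * (y - x1) + B * (y - x1) * (y - x2) := by intro y; ring
  rw [hq]
  have hA' : A * (x2 - x1) = F x2 - F x1 := by
    rw [hA]; field_simp [(sub_pos.2 h12).ne']
  have hB' : B * (x3 - x2) * (x3 - x1) = F x3 - F x1 - A * (x3 - x1) := by
    have n1 : x3 - x2 ≠ 0 := (sub_pos.2 h23).ne'
    have n2 : x3 - x1 ≠ 0 := by linarith [sub_pos.2 h23, sub_pos.2 h12] |> fun h : 0 < x3 - x1 => h.ne'
    rw [hB]
    field_simp
  have hG : ∀ y, HasDerivAt (fun y => F y - (F x1 + A * (y - x1) + B * (y - x1) * (y - x2)))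
      (F' y - (A + B * (2 * y - x1 - x2))) y := by
    intro y
    have e1 : HasDerivAt (fun y : ℝ => y - x1) 1 y := (hasDerivAt_id y).sub_const x1
    have e2 : HasDerivAt (fun y : ℝ => y - x2) 1 y := (hasDerivAt_id y).sub_const x2
    have e3 := ((e1.const_mul B).mul e2)
    have e4 := ((e1.const_mul A).const_add (F x1)).add e3
    have e5 := (hF y).sub e4
    refine e5.congr_deriv ?_
    ring
  have hGc : ConvexOn ℝ univ (fun y => F' y - (A + B * (2 * y - x1 - x2))) := by
    refine ⟨convex_univ, ?_⟩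
    intro a _ b _ u v hu hv huv
    have h := hc.2 (mem_univ a) (mem_univ b) hu hv huv
    simp only [smul_eq_mul] at h ⊢
    have hv' : v = 1 - u := by linarith
    rw [hv'] at h ⊢
    nlinarith [h]
  exact sign_three hG hGc h12 h23 (by simp) (by linarith) (by linarith) y

/-- interpolation by `α + β y²` on the half line, concave derivative vanishing at `0` -/
lemma interpB {G G' : ℝ → ℝ} (hG : ∀ y, HasDerivAt G (G' y) y) (h0 : G' 0 = 0)
    (hc : ConcaveOn ℝ (Ici 0) G') {x1 x2 : ℝ} (hx1 : 0 ≤ x1) (h12 : x1 < x2) :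
    ∃ α β : ℝ, ∀ y, 0 ≤ y → 0 ≤ (G y - (α + β * y ^ 2)) * ((y - x1) * (x2 - y)) := by
  have hpos : 0 < x2 ^ 2 - x1 ^ 2 := by nlinarith
  set β := (G x2 - G x1) / (x2 ^ 2 - x1 ^ 2) with hβ
  have hβ' : β * (x2 ^ 2 - x1 ^ 2) = G x2 - G x1 := by rw [hβ]; field_simp
  refine ⟨G x1 - β * x1 ^ 2, β, fun y hy => ?_⟩
  set H : ℝ → ℝ := fun y => G y - (G x1 - β * x1 ^ 2 + β * y ^ 2) with hH
  have hHd : ∀ y, HasDerivAt H (G' y - 2 * β * y) y := by
    intro y
    have e1 : HasDerivAt (fun y : ℝ => y ^ 2) (2 * y) y := by simpa using hasDerivAt_pow 2 y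
    have e2 := (hG y).sub ((e1.const_mul β).const_add (G x1 - β * x1 ^ 2))
    exact e2.congr_deriv (by ring)
  have f1 : H x1 = 0 := by rw [hH]; ring
  have f2 : H x2 = 0 := by rw [hH]; simp only; linarith
  have hcont : Continuous H := continuous_iff_continuousAt.2 fun y => (hHd y).continuousAt
  obtain ⟨p, hp, hp0⟩ := exists_hasDerivAt_eq_zero h12 hcont.continuousOn (by rw [f1, f2])
    (fun x _ => hHd x)
  have hppos : 0 < p := lt_of_le_of_lt hx1 hp.1
  have g1 : ∀ z, 0 ≤ z → z ≤ p → 0 ≤ G' z - 2 * β * z := by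
    intro z hz hzp
    have l1 : 0 ≤ 1 - z / p := by rw [sub_nonneg, div_le_one hppos]; exact hzp
    have l2 : 0 ≤ z / p := div_nonneg hz hppos.le
    have e := hc.2 (mem_Ici.2 (le_refl (0:ℝ))) (show p ∈ Ici (0:ℝ) from hppos.le) l1 l2 (by ring)
    have e1 : (1 - z / p) • (0:ℝ) + (z / p) • p = z := by
      simp only [smul_eq_mul]; field_simp; ring
    rw [e1, h0] at e
    simp only [smul_eq_mul, mul_zero, zero_add] at e
    have : G' p = 2 * β * p := by linarith
    rw [this] at e
    have e2 : z / p * (2 * β * p) = 2 * β * z := by field_simp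
    rw [e2] at e
    linarith
  have g2 : ∀ z, p ≤ z → G' z - 2 * β * z ≤ 0 := by
    intro z hz
    have hzpos : 0 < z := by linarith
    have l1 : 0 ≤ 1 - p / z := by rw [sub_nonneg, div_le_one hzpos]; exact hz
    have l2 : 0 < p / z := div_pos hppos hzpos
    have e := hc.2 (mem_Ici.2 (le_refl (0:ℝ))) (show z ∈ Ici (0:ℝ) from hzpos.le) l1 l2.le (by ring)
    have e1 : (1 - p / z) • (0:ℝ) + (p / z) • z = p := by
      simp only [smul_eq_mul]; field_simp; ring
    rw [e1, h0] at e
    simp only [smul_eq_mul, mul_zero, zero_add] at e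
    have : G' p = 2 * β * p := by linarith
    rw [this] at e
    have e2 : (p / z) * (G' z - 2 * β * z) ≤ 0 := by
      have : (p / z) * (2 * β * z) = 2 * β * p := by field_simp
      linarith [this]
    by_contra hcon
    push Not at hcon
    have := mul_pos l2 hcon
    linarith
  have m1 : MonotoneOn H (Icc 0 p) := by
    apply monotoneOn_of_deriv_nonneg (convex_Icc 0 p) hcont.continuousOn
    · exact fun x _ => (hHd x).differentiableAt.differentiableWithinAt
    · intro x hx
      rw [(hHd x).deriv]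
      exact g1 x (interior_subset hx).1 (interior_subset hx).2
  have m2 : AntitoneOn H (Ici p) := by
    apply antitoneOn_of_deriv_nonpos (convex_Ici p) hcont.continuousOn
    · exact fun x _ => (hHd x).differentiableAt.differentiableWithinAt
    · intro x hx
      rw [(hHd x).deriv]
      exact g2 x (interior_subset hx)
  obtain ⟨hp1, hp2⟩ := hp
  show 0 ≤ H y * ((y - x1) * (x2 - y))
  rcases le_total y x1 with a | a
  · have : H y ≤ H x1 := m1 ⟨hy, by linarith⟩ ⟨hx1, hp1.le⟩ a
    rw [f1] at this
    exact mul_nonneg_of_nonpos_of_nonpos this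
      (mul_nonpos_of_nonpos_of_nonneg (by linarith) (by linarith))
  rcases le_total y x2 with b | b
  · have h0 : 0 ≤ H y := by
      rcases le_total y p with c | c
      · have : H x1 ≤ H y := m1 ⟨hx1, hp1.le⟩ ⟨hy, c⟩ a
        rwa [f1] at this
      · have : H x2 ≤ H y := m2 (show p ≤ y from c) (show p ≤ x2 from hp2.le) b
        rwa [f2] at this
    exact mul_nonneg h0 (mul_nonneg (by linarith) (by linarith))
  · have : H y ≤ H x2 := m2 (show p ≤ x2 from hp2.le) (show p ≤ y by linarith) b
    rw [f2] at this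
    exact mul_nonneg_of_nonpos_of_nonpos this
      (mul_nonpos_of_nonneg_of_nonpos (by linarith) (by linarith))

end Pool.Agent.MP_ec2ab1_pr
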