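import Pool.Agent.Lib.MP_ec2ab1_pr.Glue

set_option autoImplicit false
open MeasureTheory ProbabilityTheory Set Filter Topology

namespace Pool.Agent.MP_ec2ab1_pr

/-- `X` has the law of `a X + ξ` with `ξ ~ ν` independent of `X`. -/
def Decomp (μ ν : Measure ℝ) (a : ℝ) : Prop :=
  μ = ((μ.map (fun x => a * x)).prod ν).map (fun p : ℝ × ℝ => p.1 + p.2)

lemma measurable_add2 : Measurable (fun p : ℝ × ℝ => p.1 + p.2) :=
  measurable_fst.add measurable_snd

lemma Decomp.map_eq {μ ν : Measure ℝ} [IsProbabilityMeasure μ] [IsProbabilityMeasure ν] {a : ℝ}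
    (h : Decomp μ ν a) : (μ.prod ν).map (fun p : ℝ × ℝ => a * p.1 + p.2) = μ := by
  have hm : Measurable (fun x : ℝ => a * x) := measurable_const_mul a
  conv_rhs => rw [h]
  have h2 : (μ.map (fun x => a * x)).prod ν
      = (μ.prod ν).map (Prod.map (fun x => a * x) (fun y => y)) := by
    rw [← Measure.map_prod_map μ ν hm measurable_id', Measure.map_id']
  rw [h2, Measure.map_map measurable_add2 (hm.prodMap measurable_id')]
  rfl

lemma Decomp.lintegral {μ ν : Measure ℝ} [IsProbabilityMeasure μ] [IsProbabilityMeasure ν] {a : ℝ}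
    (h : Decomp μ ν a) {ψ : ℝ → ENNReal} (hψ : Measurable ψ) :
    ∫⁻ x, ∫⁻ y, ψ (a * x + y) ∂ν ∂μ = ∫⁻ x, ψ x ∂μ := by
  have hm : Measurable (fun p : ℝ × ℝ => a * p.1 + p.2) :=
    (measurable_fst.const_mul a).add measurable_snd
  have h1 : ∫⁻ x, ψ x ∂μ = ∫⁻ p, ψ (a * p.1 + p.2) ∂(μ.prod ν) := by
    conv_lhs => rw [← h.map_eq]
    rw [lintegral_map hψ hm]
  have hψ2 : Measurable (fun p : ℝ × ℝ => ψ (a * p.1 + p.2)) := hψ.comp hm
  rw [h1, lintegral_prod _ hψ2.aemeasurable]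

/-- adding the common noise restores the law of the sum. -/
lemma law_restored {Ω : Type*} [MeasurableSpace Ω] (Q : Measure Ω) [IsProbabilityMeasure Q]
    {μ ν ρ : Measure ℝ} [IsProbabilityMeasure μ] [IsProbabilityMeasure ν] [IsProbabilityMeasure ρ]
    {a : ℝ} (h : Decomp μ ν a) {g : Ω → ℝ × ℝ} (hg : Measurable g) (hgm : Q.map g = μ.prod ρ) :
    (Q.prod ν).map (fun ω => a * (g ω.1).1 + (g ω.1).2 + ω.2)
      = (μ.prod ρ).map (fun p : ℝ × ℝ => p.1 + p.2) := by
  have hm1 : Measurable (fun ω : Ω × ℝ => a * (g ω.1).1 + (g ω.1).2 + ω.2) :=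
    (((measurable_fst.comp (hg.comp measurable_fst)).const_mul a).add
      (measurable_snd.comp (hg.comp measurable_fst))).add measurable_snd
  refine Measure.ext_of_lintegral _ ?_
  intro ψ hψ
  have hψ1 : Measurable (fun ω : Ω × ℝ => ψ (a * (g ω.1).1 + (g ω.1).2 + ω.2)) := hψ.comp hm1
  have hψ2 : Measurable (fun p : ℝ × ℝ => ψ (p.1 + p.2)) := hψ.comp measurable_add2
  rw [lintegral_map hψ hm1, lintegral_map hψ measurable_add2, lintegral_prod _ hψ1.aemeasurable,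
    lintegral_prod_symm _ hψ2.aemeasurable]
  have hm3 : Measurable (fun r : (ℝ × ℝ) × ℝ => ψ (a * r.1.1 + r.1.2 + r.2)) :=
    hψ.comp (((measurable_fst.comp measurable_fst).const_mul a).add
      (measurable_snd.comp measurable_fst) |>.add measurable_snd)
  have hφ : Measurable (fun p : ℝ × ℝ => ∫⁻ y, ψ (a * p.1 + p.2 + y) ∂ν) :=
    hm3.lintegral_prod_right'
  have e1 : ∫⁻ ω, ∫⁻ y, ψ (a * (g ω).1 + (g ω).2 + y) ∂ν ∂Q
      = ∫⁻ p, ∫⁻ y, ψ (a * p.1 + p.2 + y) ∂ν ∂(μ.prod ρ) := by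
    rw [← hgm, lintegral_map hφ hg]
  rw [e1, lintegral_prod_symm _ hφ.aemeasurable]
  refine lintegral_congr fun z => ?_
  have e2 := h.lintegral (ψ := fun t => ψ (t + z)) (hψ.comp (measurable_add_const z))
  rw [← e2]
  refine lintegral_congr fun x => lintegral_congr fun y => ?_
  show ψ (a * x + z + y) = ψ (a * x + y + z)
  congr 1
  ring

section moments
variable {μ ν : Measure ℝ} [IsProbabilityMeasure μ] [IsProbabilityMeasure ν] {a : ℝ}

lemma Decomp.memLp (h : Decomp μ ν a) (hμ : MemLp (fun x : ℝ => x) 2 μ) :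
    MemLp (fun x : ℝ => x) 2 ν := by
  have hm : Measurable (fun p : ℝ × ℝ => a * p.1 + p.2) :=
    (measurable_fst.const_mul a).add measurable_snd
  have h1 : MemLp (fun p : ℝ × ℝ => a * p.1 + p.2) 2 (μ.prod ν) := by
    have := hμ
    rw [← h.map_eq] at this
    exact (memLp_map_measure_iff this.aestronglyMeasurable hm.aemeasurable).1 this
  have h2 : MemLp (fun p : ℝ × ℝ => a * p.1) 2 (μ.prod ν) := by
    exact (hμ.comp_fst ν).const_mul a
  have h3 : MemLp (fun p : ℝ × ℝ => p.2) 2 (μ.prod ν) := by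
    have := h1.sub h2
    refine this.congr_norm measurable_snd.aestronglyMeasurable
      (Eventually.of_forall fun p => ?_)
    simp
  have h4 : (μ.prod ν).map Prod.snd = ν := Measure.map_snd_prod.trans (by simp)
  rw [← h4]
  exact (memLp_map_measure_iff measurable_id'.aestronglyMeasurable measurable_snd.aemeasurable).2 h3

lemma Decomp.mean (h : Decomp μ ν a) (hμ : MemLp (fun x : ℝ => x) 2 μ) :
    ∫ x, x ∂ν = (1 - a) * ∫ x, x ∂μ := by
  have hν := h.memLp hμ
  have hm : Measurable (fun p : ℝ × ℝ => a * p.1 + p.2) :=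
    (measurable_fst.const_mul a).add measurable_snd
  have hi1 : Integrable (fun x : ℝ => x) μ := hμ.integrable (by norm_num)
  have hi2 : Integrable (fun x : ℝ => x) ν := hν.integrable (by norm_num)
  have e1 : ∫ x, x ∂μ = ∫ p, (a * p.1 + p.2) ∂(μ.prod ν) := by
    conv_lhs => rw [← h.map_eq]
    rw [integral_map hm.aemeasurable (by fun_prop)]
  have e2 : ∫ p, (a * p.1 + p.2) ∂(μ.prod ν) = a * ∫ x, x ∂μ + ∫ x, x ∂ν := by
    rw [integral_add ((hi1.comp_fst ν).const_mul a) (hi2.comp_snd μ), integral_const_mul,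
      integral_fun_fst (μ := μ) (ν := ν) (fun x => x), integral_fun_snd (μ := μ) (ν := ν) (fun x => x)]
    simp
  rw [e2] at e1
  linarith

lemma Decomp.second (h : Decomp μ ν a) (hμ : MemLp (fun x : ℝ => x) 2 μ) :
    ∫ x, x ^ 2 ∂ν = (1 - a ^ 2) * ∫ x, x ^ 2 ∂μ
      - 2 * a * (1 - a) * (∫ x, x ∂μ) ^ 2 := by
  have hν := h.memLp hμ
  have hm : Measurable (fun p : ℝ × ℝ => a * p.1 + p.2) :=
    (measurable_fst.const_mul a).add measurable_snd
  have hi1 : Integrable (fun x : ℝ => x) μ := hμ.integrable (by norm_num)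
  have hi2 : Integrable (fun x : ℝ => x) ν := hν.integrable (by norm_num)
  have e1 : ∫ x, x ^ 2 ∂μ = ∫ p, (a * p.1 + p.2) ^ 2 ∂(μ.prod ν) := by
    conv_lhs => rw [← h.map_eq]
    rw [integral_map hm.aemeasurable (by fun_prop)]
  have hs1 : Integrable (fun p : ℝ × ℝ => a ^ 2 * p.1 ^ 2) (μ.prod ν) :=
    (hμ.integrable_sq.comp_fst ν).const_mul (a ^ 2)
  have hs2 : Integrable (fun p : ℝ × ℝ => p.2 ^ 2) (μ.prod ν) := hν.integrable_sq.comp_snd μ
  have hs3 : Integrable (fun p : ℝ × ℝ => 2 * a * (p.1 * p.2)) (μ.prod ν) :=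
    (hi1.mul_prod hi2).const_mul (2 * a)
  have e2 : ∫ p, (a * p.1 + p.2) ^ 2 ∂(μ.prod ν) = a ^ 2 * ∫ x, x ^ 2 ∂μ
      + 2 * a * ((∫ x, x ∂μ) * ∫ x, x ∂ν) + ∫ x, x ^ 2 ∂ν := by
    have : (fun p : ℝ × ℝ => (a * p.1 + p.2) ^ 2)
        = fun p => (a ^ 2 * p.1 ^ 2 + 2 * a * (p.1 * p.2)) + p.2 ^ 2 := by
      funext p; ring
    have hs13 : Integrable (fun p : ℝ × ℝ => a ^ 2 * p.1 ^ 2 + 2 * a * (p.1 * p.2)) (μ.prod ν) :=
      hs1.add hs3
    rw [this, integral_add hs13 hs2, integral_add hs1 hs3, integral_const_mul,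
      integral_const_mul, integral_prod_mul (μ := μ) (ν := ν) (fun x => x) (fun x => x),
      integral_fun_fst (μ := μ) (ν := ν) (fun x => x ^ 2), integral_fun_snd (μ := μ) (ν := ν) (fun x => x ^ 2)]
    simp
  rw [e2, h.mean hμ] at e1
  linarith

end moments

end Pool.Agent.MP_ec2ab1_pr
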