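import Pool.Agent.Lib.MP_ec2ab1_pr.Kfun

set_option autoImplicit false
set_option linter.unusedSectionVars false
open MeasureTheory ProbabilityTheory Set Filter Topology

namespace Pool.Agent.MP_ec2ab1_pr

/-- a single sign change `(-,+)` gives a separating threshold for a monotone weight -/
lemma exists_threshold {S : Set ℝ} {ψ D : ℝ → ℝ} (hψ : MonotoneOn ψ S)
    (hD : ∀ t ∈ S, ∀ t1 ∈ S, t < t1 → D t1 < 0 → D t ≤ 0)
    (hN : ∃ n ∈ S, D n < 0) (hP : ∃ p ∈ S, 0 < D p) :
    ∃ c : ℝ, ∀ t ∈ S, 0 ≤ (ψ t - c) * D t := by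
  have key : ∀ n ∈ S, D n < 0 → ∀ p ∈ S, 0 < D p → ψ n ≤ ψ p := by
    intro n hn hn0 p hp hp0
    rcases lt_trichotomy n p with h | h | h
    · exact hψ hn hp h.le
    · subst h; linarith
    · have := hD p hp n hn h hn0
      linarith
  obtain ⟨n0, hn0, hn0'⟩ := hN
  obtain ⟨p0, hp0, hp0'⟩ := hP
  set A : Set ℝ := ψ '' {t | t ∈ S ∧ D t < 0} with hA
  have hne : A.Nonempty := ⟨ψ n0, n0, ⟨hn0, hn0'⟩, rfl⟩
  have hub : ∀ p ∈ S, 0 < D p → ∀ y ∈ A, y ≤ ψ p := by
    rintro p hp hp' y ⟨n, ⟨hn, hn'⟩, rfl⟩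
    exact key n hn hn' p hp hp'
  have hbdd : BddAbove A := ⟨ψ p0, fun y hy => hub p0 hp0 hp0' y hy⟩
  refine ⟨sSup A, fun t ht => ?_⟩
  rcases lt_trichotomy (D t) 0 with h | h | h
  · have h1 : ψ t ≤ sSup A := le_csSup hbdd ⟨t, ⟨ht, h⟩, rfl⟩
    exact mul_nonneg_of_nonpos_of_nonpos (by linarith) h.le
  · rw [h]; simp
  · have h1 : sSup A ≤ ψ t := csSup_le hne (hub t ht h)
    exact mul_nonneg (by linarith) h.le

lemma ae_zero_of_signed {S : Set ℝ} (hS : MeasurableSet S) {D : ℝ → ℝ}
    (h1 : IntegrableOn D S) (h0 : ∫ t in S, D t = 0) (hs : ∀ t ∈ S, 0 ≤ D t) :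
    ∀ᵐ t ∂(volume.restrict S), D t = 0 := by
  have h2 : 0 ≤ᵐ[volume.restrict S] D := by
    filter_upwards [ae_restrict_mem hS] with t ht
    exact hs t ht
  have h3 := (integral_eq_zero_iff_of_nonneg_ae h2 h1).1 h0
  filter_upwards [h3] with t ht
  exact ht

/-- Chebyshev-type inequality for a single sign change -/
lemma cross_nonneg {S : Set ℝ} (hS : MeasurableSet S) {ψ D : ℝ → ℝ} (hψ : MonotoneOn ψ S)
    (h1 : IntegrableOn D S) (h2 : IntegrableOn (fun t => ψ t * D t) S)
    (h0 : ∫ t in S, D t = 0)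
    (hD : ∀ t ∈ S, ∀ t1 ∈ S, t < t1 → D t1 < 0 → D t ≤ 0) :
    0 ≤ ∫ t in S, ψ t * D t := by
  by_cases hN : ∃ n ∈ S, D n < 0
  · by_cases hP : ∃ p ∈ S, 0 < D p
    · obtain ⟨c, hc⟩ := exists_threshold hψ hD hN hP
      have h3 : 0 ≤ ∫ t in S, (ψ t - c) * D t := by
        apply setIntegral_nonneg hS hc
      have h4 : ∫ t in S, (ψ t - c) * D t = (∫ t in S, ψ t * D t) - c * ∫ t in S, D t := by
        rw [← integral_const_mul, ← integral_sub h2 (h1.const_mul c)]
        refine integral_congr_ae (Eventually.of_forall fun t => ?_)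
        show (ψ t - c) * D t = ψ t * D t - c * D t
        ring
      rw [h4, h0] at h3
      linarith
    · push Not at hP
      have h3 := ae_zero_of_signed hS (D := fun t => - D t) h1.neg (by
        rw [integral_neg, h0, neg_zero]) (fun t ht => by
          have := hP t ht
          show 0 ≤ - D t
          linarith)
      have : ∫ t in S, ψ t * D t = 0 := by
        rw [← integral_zero ℝ ℝ (μ := volume.restrict S)]
        refine integral_congr_ae ?_
        filter_upwards [h3] with t ht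
        have : D t = 0 := by linarith
        rw [this, mul_zero]
      rw [this]
  · push Not at hN
    have h3 := ae_zero_of_signed hS h1 h0 hN
    have : ∫ t in S, ψ t * D t = 0 := by
      rw [← integral_zero ℝ ℝ (μ := volume.restrict S)]
      refine integral_congr_ae ?_
      filter_upwards [h3] with t ht
      rw [ht, mul_zero]
    rw [this]

lemma integral_fold {g : ℝ → ℝ} (hg : Integrable g) :
    ∫ x, g x = ∫ t in Ioi (0:ℝ), (g t + g (-t)) := by
  have h1 : IntegrableOn (fun t => g (-t)) (Ioi (0:ℝ)) := hg.comp_neg.integrableOn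
  rw [integral_add hg.integrableOn h1, integral_comp_neg_Ioi, neg_zero]
  rw [← intervalIntegral.integral_Iic_add_Ioi (b := (0:ℝ)) hg.integrableOn hg.integrableOn]
  ring

section
variable {μ : Measure ℝ} [IsProbabilityMeasure μ] {f : ℝ → ℝ}

lemma integral_density (hf : Measurable f) (hf0 : ∀ x, 0 ≤ f x)
    (hd : μ = volume.withDensity (fun x => ENNReal.ofReal (f x))) (g : ℝ → ℝ) :
    ∫ x, g x ∂μ = ∫ x, f x * g x := by
  rw [hd, integral_withDensity_eq_integral_toReal_smul hf.ennreal_ofReal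
    (Eventually.of_forall fun x => ENNReal.ofReal_lt_top)]
  refine integral_congr_ae (Eventually.of_forall fun x => ?_)
  show (ENNReal.ofReal (f x)).toReal • g x = f x * g x
  rw [ENNReal.toReal_ofReal (hf0 x), smul_eq_mul]

lemma integrable_density (hf : Measurable f) (hf0 : ∀ x, 0 ≤ f x)
    (hd : μ = volume.withDensity (fun x => ENNReal.ofReal (f x))) {g : ℝ → ℝ} :
    Integrable g μ ↔ Integrable (fun x => f x * g x) := by
  rw [hd, integrable_withDensity_iff hf.ennreal_ofReal
    (Eventually.of_forall fun x => ENNReal.ofReal_lt_top)]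
  constructor
  · intro h
    refine h.congr (Eventually.of_forall fun x => ?_)
    show g x * (ENNReal.ofReal (f x)).toReal = f x * g x
    rw [ENNReal.toReal_ofReal (hf0 x), mul_comm]
  · intro h
    refine h.congr (Eventually.of_forall fun x => ?_)
    show f x * g x = g x * (ENNReal.ofReal (f x)).toReal
    rw [ENNReal.toReal_ofReal (hf0 x), mul_comm]

/-- the central moments of the tilted law in terms of the reflected difference -/
lemma central_fold (hf : Measurable f) (hf0 : ∀ x, 0 ≤ f x)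
    (hd : μ = volume.withDensity (fun x => ENNReal.ofReal (f x))) (v m : ℝ) (k : ℕ) (hk : Odd k)
    (hi : Integrable (fun x => (x - m) ^ k * Real.exp (v * x - x ^ 2 / 2)) μ) :
    IntegrableOn (fun t => t ^ k * (Real.exp (v * (m + t) - (m + t) ^ 2 / 2) * f (m + t)
        - Real.exp (v * (m - t) - (m - t) ^ 2 / 2) * f (m - t))) (Ioi 0) ∧
    ∫ x, (x - m) ^ k * Real.exp (v * x - x ^ 2 / 2) ∂μ
      = ∫ t in Ioi (0:ℝ), t ^ k * (Real.exp (v * (m + t) - (m + t) ^ 2 / 2) * f (m + t)
        - Real.exp (v * (m - t) - (m - t) ^ 2 / 2) * f (m - t)) := by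
  rw [integrable_density hf hf0 hd] at hi
  rw [integral_density hf hf0 hd]
  set G : ℝ → ℝ := fun t => t ^ k * (Real.exp (v * (m + t) - (m + t) ^ 2 / 2) * f (m + t)) with hG
  have hGi : Integrable G := by
    have h := hi.comp_add_left m
    refine h.congr (Eventually.of_forall fun t => ?_)
    show f (m + t) * ((m + t - m) ^ k * Real.exp (v * (m + t) - (m + t) ^ 2 / 2)) = _
    rw [hG]
    have : m + t - m = t := by ring
    simp only [this]
    ring
  have hval : ∫ x, f x * ((x - m) ^ k * Real.exp (v * x - x ^ 2 / 2)) = ∫ t, G t := by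
    rw [← integral_add_left_eq_self (fun x => f x * ((x - m) ^ k * Real.exp (v * x - x ^ 2 / 2))) m]
    refine integral_congr_ae (Eventually.of_forall fun t => ?_)
    show f (m + t) * ((m + t - m) ^ k * Real.exp (v * (m + t) - (m + t) ^ 2 / 2)) = _
    rw [hG]
    have : m + t - m = t := by ring
    simp only [this]
    ring
  have hfold : ∀ t, G t + G (-t) = t ^ k * (Real.exp (v * (m + t) - (m + t) ^ 2 / 2) * f (m + t)
        - Real.exp (v * (m - t) - (m - t) ^ 2 / 2) * f (m - t)) := by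
    intro t
    rw [hG]
    simp only [hk.neg_pow, ← sub_eq_add_neg]
    ring
  constructor
  · have h := hGi.integrableOn.add (hGi.comp_neg.integrableOn (s := Ioi (0:ℝ)))
    refine h.congr (Eventually.of_forall fun t => ?_)
    exact hfold t
  · rw [hval, integral_fold hGi]
    refine integral_congr_ae (Eventually.of_forall fun t => ?_)
    exact hfold t

variable (μ) in
lemma integrable_cm (v m : ℝ) (k : ℕ) :
    Integrable (fun x => (x - m) ^ k * Real.exp (v * x - x ^ 2 / 2)) μ := by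
  have h : (fun x : ℝ => (x - m) ^ k * Real.exp (v * x - x ^ 2 / 2)) = fun x =>
      ∑ i ∈ Finset.range (k + 1), ((-m) ^ (k - i) * (k.choose i : ℝ)) *
        (x ^ i * Real.exp (v * x - x ^ 2 / 2)) := by
    funext x
    rw [sub_eq_add_neg, add_pow, Finset.sum_mul]
    refine Finset.sum_congr rfl fun i _ => ?_
    ring
  rw [h]
  exact integrable_finsetSum _ fun i _ => (integrable_Mm μ i v).const_mul _

lemma cm1_zero (v : ℝ) : ∫ x, (x - K1 μ v) ^ 1 * Real.exp (v * x - x ^ 2 / 2) ∂μ = 0 := by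
  have e : (fun x : ℝ => (x - K1 μ v) ^ 1 * Real.exp (v * x - x ^ 2 / 2))
      = fun x => (x ^ 1 * Real.exp (v * x - x ^ 2 / 2))
        - K1 μ v * (x ^ 0 * Real.exp (v * x - x ^ 2 / 2)) := by
    funext x; ring
  rw [e, integral_sub (integrable_Mm μ 1 v) ((integrable_Mm μ 0 v).const_mul _), integral_const_mul]
  show Mm μ 1 v - K1 μ v * Mm μ 0 v = 0
  unfold K1
  have := (Mm0_pos μ v).ne'
  field_simp
  ring

lemma cm3_nonneg_of_pattern (hf : Measurable f) (hf0 : ∀ x, 0 ≤ f x)
    (hd : μ = volume.withDensity (fun x => ENNReal.ofReal (f x))) (v : ℝ)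
    (hpat : ∀ t t1, 0 < t → t < t1 →
      Real.exp (v * (K1 μ v + t1) - (K1 μ v + t1) ^ 2 / 2) * f (K1 μ v + t1)
        < Real.exp (v * (K1 μ v - t1) - (K1 μ v - t1) ^ 2 / 2) * f (K1 μ v - t1) →
      Real.exp (v * (K1 μ v + t) - (K1 μ v + t) ^ 2 / 2) * f (K1 μ v + t)
        ≤ Real.exp (v * (K1 μ v - t) - (K1 μ v - t) ^ 2 / 2) * f (K1 μ v - t)) :
    0 ≤ cm3 μ v := by
  set m := K1 μ v with hm
  set D : ℝ → ℝ := fun t => Real.exp (v * (m + t) - (m + t) ^ 2 / 2) * f (m + t)
        - Real.exp (v * (m - t) - (m - t) ^ 2 / 2) * f (m - t) with hD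
  obtain ⟨i1, e1⟩ := central_fold hf hf0 hd v m 1 (by decide) (integrable_cm μ v m 1)
  obtain ⟨i3, e3⟩ := central_fold hf hf0 hd v m 3 (by decide) (integrable_cm μ v m 3)
  rw [cm1_zero] at e1
  have h := cross_nonneg (S := Ioi (0:ℝ)) measurableSet_Ioi (ψ := fun t => t ^ 2)
    (D := fun t => t ^ 1 * D t) (by
      intro a ha b hb hab
      have ha' : (0:ℝ) < a := ha
      show a ^ 2 ≤ b ^ 2
      nlinarith) i1 (by
      refine i3.congr (Eventually.of_forall fun t => ?_)
      show t ^ 3 * D t = t ^ 2 * (t ^ 1 * D t)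
      ring) e1.symm (by
      intro t ht t1 ht1 htt h
      have ht' : (0:ℝ) < t := ht
      have ht1' : (0:ℝ) < t1 := ht1
      have h' : D t1 < 0 := by
        simp only [pow_one] at h
        by_contra hc
        push Not at hc
        nlinarith [mul_nonneg ht1'.le hc]
      have h2 : D t ≤ 0 := by
        have := hpat t t1 ht' htt (by
          have : D t1 < 0 := h'
          rw [hD] at this
          linarith)
        rw [hD]
        show _ - _ ≤ _
        linarith
      show t ^ 1 * D t ≤ 0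
      rw [pow_one]
      exact mul_nonpos_of_nonneg_of_nonpos ht'.le h2)
  have e : cm3 μ v = ∫ t in Ioi (0:ℝ), t ^ 2 * (t ^ 1 * D t) := by
    show ∫ x, (x - m) ^ 3 * Real.exp (v * x - x ^ 2 / 2) ∂μ = _
    rw [e3]
    refine integral_congr_ae (Eventually.of_forall fun t => ?_)
    show t ^ 3 * D t = t ^ 2 * (t ^ 1 * D t)
    ring
  rw [e]
  exact h

lemma cm3_nonpos_of_pattern (hf : Measurable f) (hf0 : ∀ x, 0 ≤ f x)
    (hd : μ = volume.withDensity (fun x => ENNReal.ofReal (f x))) (v : ℝ)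
    (hpat : ∀ t t1, 0 < t → t < t1 →
      Real.exp (v * (K1 μ v - t1) - (K1 μ v - t1) ^ 2 / 2) * f (K1 μ v - t1)
        < Real.exp (v * (K1 μ v + t1) - (K1 μ v + t1) ^ 2 / 2) * f (K1 μ v + t1) →
      Real.exp (v * (K1 μ v - t) - (K1 μ v - t) ^ 2 / 2) * f (K1 μ v - t)
        ≤ Real.exp (v * (K1 μ v + t) - (K1 μ v + t) ^ 2 / 2) * f (K1 μ v + t)) :
    cm3 μ v ≤ 0 := by
  set m := K1 μ v with hm
  set D : ℝ → ℝ := fun t => Real.exp (v * (m + t) - (m + t) ^ 2 / 2) * f (m + t)
        - Real.exp (v * (m - t) - (m - t) ^ 2 / 2) * f (m - t) with hD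
  obtain ⟨i1, e1⟩ := central_fold hf hf0 hd v m 1 (by decide) (integrable_cm μ v m 1)
  obtain ⟨i3, e3⟩ := central_fold hf hf0 hd v m 3 (by decide) (integrable_cm μ v m 3)
  rw [cm1_zero] at e1
  have h := cross_nonneg (S := Ioi (0:ℝ)) measurableSet_Ioi (ψ := fun t => t ^ 2)
    (D := fun t => -(t ^ 1 * D t)) (by
      intro a ha b hb hab
      have ha' : (0:ℝ) < a := ha
      show a ^ 2 ≤ b ^ 2
      nlinarith) i1.neg (by
      refine i3.neg.congr (Eventually.of_forall fun t => ?_)
      show -(t ^ 3 * D t) = t ^ 2 * -(t ^ 1 * D t)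
      ring) (by rw [integral_neg, ← e1, neg_zero]) (by
      intro t ht t1 ht1 htt h
      have ht' : (0:ℝ) < t := ht
      have ht1' : (0:ℝ) < t1 := ht1
      have h' : 0 < D t1 := by
        simp only [pow_one] at h
        by_contra hc
        push Not at hc
        nlinarith [mul_nonneg ht1'.le (neg_nonneg.2 hc)]
      have h2 : 0 ≤ D t := by
        have := hpat t t1 ht' htt (by
          have : 0 < D t1 := h'
          rw [hD] at this
          linarith)
        rw [hD]
        show _ ≤ _ - _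
        linarith
      show -(t ^ 1 * D t) ≤ 0
      rw [pow_one]
      have := mul_nonneg ht'.le h2
      linarith)
  have e : cm3 μ v = -∫ t in Ioi (0:ℝ), t ^ 2 * -(t ^ 1 * D t) := by
    show ∫ x, (x - m) ^ 3 * Real.exp (v * x - x ^ 2 / 2) ∂μ = _
    rw [e3, ← integral_neg]
    refine integral_congr_ae (Eventually.of_forall fun t => ?_)
    show t ^ 3 * D t = -(t ^ 2 * -(t ^ 1 * D t))
    ring
  rw [e]
  linarith

end

end Pool.Agent.MP_ec2ab1_pr
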