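import Pool.Agent.Lib.MP_ec2ab1_pr.ClassA

set_option autoImplicit false
set_option linter.unusedSectionVars false
open MeasureTheory ProbabilityTheory Set Filter Topology

namespace Pool.Agent.MP_ec2ab1_pr

section
variable {μ : Measure ℝ} [IsProbabilityMeasure μ] {f : ℝ → ℝ}

lemma integral_even (hf : Measurable f) (hf0 : ∀ x, 0 ≤ f x)
    (hd : μ = volume.withDensity (fun x => ENNReal.ofReal (f x))) (he : ∀ x, f (-x) = f x)
    (g : ℝ → ℝ) : ∫ x, g (-x) ∂μ = ∫ x, g x ∂μ := by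
  rw [integral_density hf hf0 hd, integral_density hf hf0 hd,
    ← integral_neg_eq_self (fun x => f x * g x)]
  refine integral_congr_ae (Eventually.of_forall fun x => ?_)
  show f x * g (-x) = f (-x) * g (-x)
  rw [he]

lemma Mm_neg (hf : Measurable f) (hf0 : ∀ x, 0 ≤ f x)
    (hd : μ = volume.withDensity (fun x => ENNReal.ofReal (f x))) (he : ∀ x, f (-x) = f x)
    (n : ℕ) (v : ℝ) : Mm μ n (-v) = (-1) ^ n * Mm μ n v := by
  unfold Mm
  rw [← integral_const_mul, ← integral_even hf hf0 hd he]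
  refine integral_congr_ae (Eventually.of_forall fun x => ?_)
  show (-x) ^ n * Real.exp (-v * -x - (-x) ^ 2 / 2) = (-1) ^ n * (x ^ n * Real.exp (v * x - x ^ 2 / 2))
  rw [neg_pow, mul_assoc]
  congr 3
  ring_nf

lemma K1_neg (hf : Measurable f) (hf0 : ∀ x, 0 ≤ f x)
    (hd : μ = volume.withDensity (fun x => ENNReal.ofReal (f x))) (he : ∀ x, f (-x) = f x)
    (v : ℝ) : K1 μ (-v) = - K1 μ v := by
  unfold K1
  rw [Mm_neg hf hf0 hd he, Mm_neg hf hf0 hd he]
  ring

lemma K2_neg (hf : Measurable f) (hf0 : ∀ x, 0 ≤ f x)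
    (hd : μ = volume.withDensity (fun x => ENNReal.ofReal (f x))) (he : ∀ x, f (-x) = f x)
    (v : ℝ) : K2 μ (-v) = K2 μ v := by
  unfold K2
  rw [K1_neg hf hf0 hd he, Mm_neg hf hf0 hd he, Mm_neg hf hf0 hd he]
  ring

variable (μ) in
lemma K1_mono : Monotone (K1 μ) := by
  apply monotone_of_deriv_nonneg
  · exact fun x => (hasDerivAt_K1 μ x).differentiableAt
  · intro x
    rw [(hasDerivAt_K1 μ x).deriv]
    exact K2_nonneg μ x

lemma K1_bound (hμ : MemLp (fun x : ℝ => x) 2 μ) :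
    ∃ C : ℝ, 0 ≤ C ∧ ∀ v : ℝ, |K1 μ v| ≤ C * (1 + v ^ 2) := by
  obtain ⟨C, hC0, hC⟩ := Kf_bound μ hμ
  refine ⟨4 * C, by positivity, fun v => ?_⟩
  have h1 := abs_le.1 (hC v)
  have h2 := abs_le.1 (hC (v + 1))
  have h3 := abs_le.1 (hC (v - 1))
  obtain ⟨c, hc, hc2⟩ := exists_hasDerivAt_eq_slope (Kf μ) (K1 μ) (show v < v + 1 by linarith)
    Kf_cont.continuousOn (fun y _ => hasDerivAt_Kf μ y)
  obtain ⟨e, he, he2⟩ := exists_hasDerivAt_eq_slope (Kf μ) (K1 μ) (show v - 1 < v by linarith)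
    Kf_cont.continuousOn (fun y _ => hasDerivAt_Kf μ y)
  have a1 : K1 μ v ≤ Kf μ (v + 1) - Kf μ v := by
    have := K1_mono μ hc.1.le
    rw [hc2] at this
    simpa using this
  have a2 : Kf μ v - Kf μ (v - 1) ≤ K1 μ v := by
    have := K1_mono μ he.2.le
    rw [he2] at this
    simpa using this
  rw [abs_le]
  constructor
  · nlinarith [mul_nonneg hC0 (sq_nonneg (v - 1)), mul_nonneg hC0 (sq_nonneg (v + 1)),
      mul_nonneg hC0 (sq_nonneg v)]
  · nlinarith [mul_nonneg hC0 (sq_nonneg (v - 1)), mul_nonneg hC0 (sq_nonneg (v + 1)),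
      mul_nonneg hC0 (sq_nonneg v)]

/-- differentiation of `y ↦ ∫ H(x+y) μ(dx)` for quadratically bounded data -/
lemma hasDerivAt_avg (hμ : MemLp (fun x : ℝ => x) 2 μ) {H H' : ℝ → ℝ}
    (hH : ∀ v, HasDerivAt H (H' v) v) (hH' : Continuous H') {C C' : ℝ}
    (hC : ∀ v, |H v| ≤ C * (1 + v ^ 2)) (hC' : ∀ v, |H' v| ≤ C' * (1 + v ^ 2)) (y : ℝ) :
    HasDerivAt (fun y => ∫ x, H (x + y) ∂μ) (∫ x, H' (x + y) ∂μ) y := by
  have hHc : Continuous H := continuous_iff_continuousAt.2 fun v => (hH v).continuousAt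
  have hC0 : 0 ≤ C' := by
    have := (abs_nonneg _).trans (hC' 0)
    simpa using this
  refine (hasDerivAt_integral_of_dominated_loc_of_deriv_le (𝕜 := ℝ) (μ := μ)
    (F := fun z x => H (x + z)) (F' := fun z x => H' (x + z)) (s := Metric.ball y 1)
    (bound := fun x => C' * (1 + 2 * (x - (-y)) ^ 2 + 2)) (Metric.ball_mem_nhds y one_pos) ?_ ?_ ?_
    ?_ ?_ ?_).2
  · exact Eventually.of_forall fun z =>
      (hHc.comp (continuous_add_const z)).measurable.aestronglyMeasurable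
  · exact integrable_of_quad hμ (hHc.comp (continuous_add_const y)).measurable (C := C) (a := -y)
      (fun x => by
        have := hC (x + y)
        have e : x - -y = x + y := by ring
        rw [e]; exact this)
  · exact (hH'.comp (continuous_add_const y)).measurable.aestronglyMeasurable
  · refine Eventually.of_forall fun x z hz => ?_
    rw [Metric.mem_ball, Real.dist_eq] at hz
    have hz' := abs_lt.1 hz
    rw [Real.norm_eq_abs]
    refine (hC' (x + z)).trans ?_
    refine mul_le_mul_of_nonneg_left ?_ hC0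
    have h1 : (x + z) ^ 2 ≤ 2 * (x - -y) ^ 2 + 2 * (z - y) ^ 2 := by
      nlinarith [sq_nonneg ((x - -y) - (z - y))]
    have h2 : (z - y) ^ 2 ≤ 1 := by nlinarith
    linarith
  · have h1 : MemLp (fun x : ℝ => x - (-y)) 2 μ := hμ.sub (memLp_const (-y))
    refine Integrable.const_mul ?_ C'
    exact ((integrable_const _).add (h1.integrable_sq.const_mul 2)).add (integrable_const _)
  · exact Eventually.of_forall fun x z _ => (hH (x + z)).comp_const_add x z

lemma avg_bound (hμ : MemLp (fun x : ℝ => x) 2 μ) {H : ℝ → ℝ} {C : ℝ}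
    (hC : ∀ v, |H v| ≤ C * (1 + v ^ 2)) :
    ∃ C' : ℝ, ∀ y : ℝ, |∫ x, H (x + y) ∂μ| ≤ C' * (1 + y ^ 2) := by
  have hC0 : 0 ≤ C := by
    have := (abs_nonneg _).trans (hC 0)
    simpa using this
  set M := ∫ x, x ^ 2 ∂μ with hM
  have hM0 : 0 ≤ M := integral_nonneg fun x => sq_nonneg x
  refine ⟨C * (2 + 2 * M), fun y => ?_⟩
  have hi : Integrable (fun x : ℝ => C * ((1 + 2 * y ^ 2) + 2 * x ^ 2)) μ :=
    ((integrable_const _).add (hμ.integrable_sq.const_mul 2)).const_mul C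
  have h1 : |∫ x, H (x + y) ∂μ| ≤ ∫ x, C * ((1 + 2 * y ^ 2) + 2 * x ^ 2) ∂μ := by
    rw [← Real.norm_eq_abs]
    refine norm_integral_le_of_norm_le hi (Eventually.of_forall fun x => ?_)
    rw [Real.norm_eq_abs]
    refine (hC (x + y)).trans (mul_le_mul_of_nonneg_left ?_ hC0)
    nlinarith [sq_nonneg (x - y)]
  refine h1.trans (le_of_eq_of_le ?_ (?_ : C * ((1 + 2 * y ^ 2) + 2 * M) ≤ _))
  · rw [integral_const_mul, integral_add (integrable_const _) (hμ.integrable_sq.const_mul 2),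
      integral_const_mul]
    simp [hM]
  · rw [mul_assoc]
    refine mul_le_mul_of_nonneg_left ?_ hC0
    nlinarith [mul_nonneg hM0 (sq_nonneg y), sq_nonneg y]

/-- Wintner: the average of an even unimodal function against an even unimodal density is
unimodal. -/
lemma avg_anti (hf : Measurable f) (hf0 : ∀ x, 0 ≤ f x)
    (hd : μ = volume.withDensity (fun x => ENNReal.ofReal (f x)))
    (hfu : ∀ a b : ℝ, |a| ≤ |b| → f b ≤ f a) (hμ : MemLp (fun x : ℝ => x) 2 μ)
    {q : ℝ → ℝ} (hq : Measurable q) {C : ℝ} (hC : ∀ v, |q v| ≤ C * (1 + v ^ 2))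
    (hqu : ∀ a b : ℝ, |a| ≤ |b| → q b ≤ q a) :
    AntitoneOn (fun y => ∫ x, q (x + y) ∂μ) (Ici 0) := by
  intro y1 hy1 y2 hy2 h12
  have hy1' : (0:ℝ) ≤ y1 := hy1
  set c := (y1 + y2) / 2 with hc
  set δ := (y2 - y1) / 2 with hδ
  have hc0 : 0 ≤ c := by rw [hc]; linarith
  have hδ0 : 0 ≤ δ := by rw [hδ]; linarith
  have ii : ∀ y, Integrable (fun x => q (x + y)) μ := fun y =>
    integrable_of_quad hμ (hq.comp (measurable_add_const y)) (C := C) (a := -y) (fun x => by
        have := hC (x + y)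
        have e : x - -y = x + y := by ring
        rw [e]; exact this)
  show ∫ x, q (x + y2) ∂μ ≤ ∫ x, q (x + y1) ∂μ
  rw [← sub_nonneg, ← integral_sub (ii y1) (ii y2), integral_density hf hf0 hd]
  have i3 := (integrable_density hf hf0 hd).1 ((ii y1).sub (ii y2))
  rw [← integral_sub_right_eq_self _ c]
  have i4 : Integrable (fun u => f (u - c) * (q (u - c + y1) - q (u - c + y2))) := by
    have := i3.comp_sub_right c
    exact this
  rw [integral_fold i4]
  refine setIntegral_nonneg measurableSet_Ioi fun u hu => ?_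
  have hu' : (0:ℝ) < u := hu
  have e1 : u - c + y1 = u - δ := by rw [hc, hδ]; ring
  have e2 : u - c + y2 = u + δ := by rw [hc, hδ]; ring
  have e3 : -u - c + y1 = -(u + δ) := by rw [hc, hδ]; ring
  have e4 : -u - c + y2 = -(u - δ) := by rw [hc, hδ]; ring
  have qe : ∀ a, q (-a) = q a := fun a =>
    le_antisymm (hqu a (-a) (by rw [abs_neg])) (hqu (-a) a (by rw [abs_neg]))
  have fe : ∀ a, f (-a) = f a := fun a =>
    le_antisymm (hfu a (-a) (by rw [abs_neg])) (hfu (-a) a (by rw [abs_neg]))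
  have e5 : f (-u - c) = f (u + c) := by
    have : -u - c = -(u + c) := by ring
    rw [this, fe]
  rw [e1, e2, e3, e4, qe, qe, e5]
  have a1 : |u - δ| ≤ |u + δ| := by
    rw [abs_of_nonneg (show 0 ≤ u + δ by linarith), abs_le]
    constructor <;> linarith
  have a2 : |u - c| ≤ |u + c| := by
    rw [abs_of_nonneg (show 0 ≤ u + c by linarith), abs_le]
    constructor <;> linarith
  have b1 := hqu _ _ a1
  have b2 := hfu _ _ a2
  nlinarith [mul_nonneg (sub_nonneg.2 b1) (sub_nonneg.2 b2)]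

end

end Pool.Agent.MP_ec2ab1_pr
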