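import Pool.Agent.Lib.MP_ec2ab1_pr.Rbound

set_option autoImplicit false
set_option linter.unusedSectionVars false
open MeasureTheory ProbabilityTheory Set Filter Topology

namespace Pool.Agent.MP_ec2ab1_pr

section
variable {μ : Measure ℝ} [IsProbabilityMeasure μ]

lemma integrable_log_fV (hμ : MemLp (fun x : ℝ => x) 2 μ) :
    Integrable (fun v => Real.log (fV μ v)) (lawV μ) := by
  set m := ∫ x, x ∂μ with hm
  set M := ∫ x, x ^ 2 ∂μ with hM
  have hi : Integrable (fun x : ℝ => x) μ := hμ.integrable (by norm_num)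
  have hsq : ∀ v : ℝ, ∫ x, (v - x) ^ 2 ∂μ = v ^ 2 - 2 * v * m + M := by
    intro v
    have e : (fun x : ℝ => (v - x) ^ 2) = fun x => (v ^ 2 + (-(2 * v)) * x) + x ^ 2 := by
      funext x; ring
    have i1 : Integrable (fun x : ℝ => v ^ 2 + (-(2 * v)) * x) μ :=
      (integrable_const _).add (hi.const_mul _)
    rw [e, integral_add i1 hμ.integrable_sq, integral_add (integrable_const _) (hi.const_mul _),
      integral_const_mul]
    simp only [integral_const, probReal_univ, smul_eq_mul, one_mul]
    ring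
  have hV := memLp_lawV hμ
  have hVi : Integrable (fun x : ℝ => x) (lawV μ) := hV.integrable (by norm_num)
  have hdom : Integrable (fun v : ℝ => Real.log (Real.sqrt (2 * Real.pi))
      + (v ^ 2 - 2 * v * m + M) / 2) (lawV μ) := by
    refine (integrable_const _).add (Integrable.div_const ?_ 2)
    refine (hV.integrable_sq.sub ?_).add (integrable_const _)
    have := (hVi.const_mul 2).mul_const m
    exact this
  refine Integrable.mono' hdom (Real.measurable_log.comp (measurable_fV μ)).aestronglyMeasurable ?_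
  refine Eventually.of_forall fun v => ?_
  have h1 := log_fV_ge μ hμ v
  have h2 := log_fV_nonpos μ v
  rw [hsq v] at h1
  rw [Real.norm_eq_abs, abs_of_nonpos h2]
  linarith

lemma lawU_nullSingleton (hac : lawU μ ≪ volume) : NullSingletonClass (lawU μ) :=
  ⟨fun x => hac (measure_singleton x)⟩

/-- rewriting the entropy integral of `X + Z` -/
lemma entropy_V :
    ∫ x, ((lawV μ).rnDeriv volume x).toReal * Real.log (((lawV μ).rnDeriv volume x).toReal)
      = ∫ v, Real.log (fV μ v) ∂(lawV μ) := by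
  have h1 : (lawV μ).rnDeriv volume =ᵐ[volume] fun v => ENNReal.ofReal (fV μ v) := by
    conv_lhs => rw [lawV_eq]
    exact Measure.rnDeriv_withDensity volume (measurable_fV μ).ennreal_ofReal
  have h2 := integral_rnDeriv_smul (lawV_ac μ) (f := fun v => Real.log (fV μ v))
  rw [← h2]
  refine integral_congr_ae ?_
  filter_upwards [h1] with v hv
  rw [hv, ENNReal.toReal_ofReal (fV_pos μ v).le, smul_eq_mul]

/-- **Entropy comparison from the transport bound.** -/
lemma entropy_le_of_R (hμ : MemLp (fun x : ℝ => x) 2 μ) (hac : lawU μ ≪ volume)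
    (hint : Integrable (fun x : ℝ => ((lawU μ).rnDeriv volume x).toReal *
          Real.log (((lawU μ).rnDeriv volume x).toReal)) volume)
    (hRi : Integrable ((core (lawU μ)).indicator (fun u => fV μ (S (lawV μ) (lawU μ) u))))
    {δ : ℝ}
    (hR : ∫ u, (core (lawU μ)).indicator (fun u => fV μ (S (lawV μ) (lawU μ) u)) u ≤ 1 - δ) :
    (-∫ x : ℝ, ((lawU μ).rnDeriv volume x).toReal *
          Real.log (((lawU μ).rnDeriv volume x).toReal)) + δ
      ≤ -∫ x : ℝ, ((lawV μ).rnDeriv volume x).toReal *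
          Real.log (((lawV μ).rnDeriv volume x).toReal) := by
  have hns := lawU_nullSingleton hac
  have hs := strictMono_lawV μ
  have hSm := measurable_S (lawV μ) (lawU μ) hs
  have hmap := map_S (lawV μ) (lawU μ) hs
  set g : ℝ → ℝ := fun x => ((lawU μ).rnDeriv volume x).toReal with hg
  set q : ℝ → ℝ := (core (lawU μ)).indicator (fun u => fV μ (S (lawV μ) (lawU μ) u)) with hq
  have hlogV := integrable_log_fV hμ
  -- log q is integrable w.r.t. lawU and its integral is that of log fV
  have hae : (fun u => Real.log (q u)) =ᵐ[lawU μ] fun u => Real.log (fV μ (S (lawV μ) (lawU μ) u)) := by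
    filter_upwards [ae_mem_core (lawU μ)] with u hu
    rw [hq, indicator_of_mem hu]
  have hlogS : Integrable (fun u => Real.log (fV μ (S (lawV μ) (lawU μ) u))) (lawU μ) := by
    have h1 := hlogV
    rw [← hmap] at h1
    exact (integrable_map_measure (Real.measurable_log.comp (measurable_fV μ)).aestronglyMeasurable
      hSm.aemeasurable).1 h1
  have hlogq : Integrable (fun u => Real.log (q u)) (lawU μ) := hlogS.congr hae.symm
  have hval : ∫ u, Real.log (q u) ∂(lawU μ) = ∫ v, Real.log (fV μ v) ∂(lawV μ) := by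
    rw [integral_congr_ae hae]
    conv_rhs => rw [← hmap]
    have hlm : Measurable (fun v => Real.log (fV μ v)) :=
      Real.measurable_log.comp (measurable_fV μ)
    rw [integral_map hSm.aemeasurable hlm.aestronglyMeasurable]
  have hgq : Integrable (fun u => g u * Real.log (q u)) volume := by
    have := (integrable_rnDeriv_smul_iff hac (f := fun u => Real.log (q u))).2 hlogq
    exact this
  have hgqv : ∫ u, g u * Real.log (q u) = ∫ u, Real.log (q u) ∂(lawU μ) :=
    integral_rnDeriv_smul hac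
  have hgi : Integrable g volume := Measure.integrable_toReal_rnDeriv
  have hg1 : ∫ u, g u = 1 := by
    rw [hg, Measure.integral_toReal_rnDeriv hac]
    simp
  have hg0 : ∀ u, 0 ≤ g u := fun u => ENNReal.toReal_nonneg
  have hq0 : ∀ u, 0 ≤ q u := by
    intro u
    by_cases hu : u ∈ core (lawU μ)
    · rw [hq, indicator_of_mem hu]; exact (fV_pos μ _).le
    · rw [hq, indicator_of_notMem hu]
  -- a.e. where the density is non zero we are in the core
  have hcore : ∀ᵐ u ∂(volume : Measure ℝ), g u ≠ 0 → u ∈ core (lawU μ) := by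
    have h1 := ae_mem_core (lawU μ)
    rw [← Measure.withDensity_rnDeriv_eq (lawU μ) volume hac] at h1
    have h2 := (ae_withDensity_iff (Measure.measurable_rnDeriv _ _)).1 h1
    have hsim : (volume.withDensity ((lawU μ).rnDeriv volume)) = lawU μ :=
      Measure.withDensity_rnDeriv_eq (lawU μ) volume hac
    rw [hsim] at h2
    filter_upwards [h2] with u hu hgu
    refine hu ?_
    intro h0
    apply hgu
    show ((lawU μ).rnDeriv volume u).toReal = 0
    rw [h0]; rfl
  have hpt : ∀ᵐ u ∂(volume : Measure ℝ), g u * Real.log (q u) - g u * Real.log (g u) ≤ q u - g u := by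
    filter_upwards [hcore] with u hu
    by_cases h0 : g u = 0
    · rw [h0]; simp [hq0 u]
    · have hgpos : 0 < g u := lt_of_le_of_ne (hg0 u) (Ne.symm h0)
      have hqpos : 0 < q u := by
        rw [hq, indicator_of_mem (hu h0)]; exact fV_pos μ _
      have h1 := Real.log_le_sub_one_of_pos (div_pos hqpos hgpos)
      rw [Real.log_div hqpos.ne' hgpos.ne'] at h1
      have h2 := mul_le_mul_of_nonneg_left h1 hgpos.le
      have h3 : g u * (q u / g u - 1) = q u - g u := by field_simp
      rw [h3] at h2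
      linarith
  have hint' : Integrable (fun u => g u * Real.log (g u)) volume := hint
  have hI : ∫ u, (g u * Real.log (q u) - g u * Real.log (g u)) ≤ ∫ u, (q u - g u) :=
    integral_mono_ae (hgq.sub hint') (hRi.sub hgi) hpt
  rw [integral_sub hgq hint', integral_sub hRi hgi, hg1, hgqv, hval] at hI
  rw [entropy_V]
  have : ∫ x : ℝ, g x * Real.log (g x) = ∫ x : ℝ, ((lawU μ).rnDeriv volume x).toReal *
          Real.log (((lawU μ).rnDeriv volume x).toReal) := rfl
  rw [← this]
  have h4 : ∫ (a : ℝ), q a ≤ 1 - δ := hR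
  linarith

end

/-- main theorem in the language of the frozen statement, with an explicit deficit -/
theorem selfdecomp_entropy (μ : Measure ℝ) [IsProbabilityMeasure μ]
    (hμ : MemLp (fun x : ℝ => x) 2 μ) (hvar : variance (fun x : ℝ => x) μ = 1)
    (hsd : ∀ a : ℝ, 0 < a → a < 1 → ∃ ν : Measure ℝ, IsProbabilityMeasure ν ∧
      μ = ((μ.map (fun x => a * x)).prod ν).map (fun p : ℝ × ℝ => p.1 + p.2))
    (hac : (μ.prod μ).map (fun p : ℝ × ℝ => p.1 + p.2) ≪ volume)
    (hint : Integrable (fun x : ℝ =>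
        (((μ.prod μ).map (fun p : ℝ × ℝ => p.1 + p.2)).rnDeriv volume x).toReal *
          Real.log ((((μ.prod μ).map (fun p : ℝ × ℝ => p.1 + p.2)).rnDeriv volume x).toReal))
        volume) :
    ∃ π : Measure (ℝ × ℝ), IsProbabilityMeasure π ∧
      π.map Prod.fst = (μ.prod μ).map (fun p : ℝ × ℝ => p.1 + p.2) ∧
      π.map Prod.snd = (μ.prod (gaussianReal 0 1)).map (fun p : ℝ × ℝ => p.1 + p.2) ∧
      (-∫ x : ℝ,
          (((μ.prod μ).map (fun p : ℝ × ℝ => p.1 + p.2)).rnDeriv volume x).toReal *
            Real.log ((((μ.prod μ).map (fun p : ℝ × ℝ => p.1 + p.2)).rnDeriv volume x).toReal))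
        + 3 / 4 * variance (fun p : ℝ × ℝ => p.1 - p.2) π
        ≤
      -∫ x : ℝ,
          (((μ.prod (gaussianReal 0 1)).map (fun p : ℝ × ℝ => p.1 + p.2)).rnDeriv volume x).toReal *
            Real.log ((((μ.prod (gaussianReal 0 1)).map
              (fun p : ℝ × ℝ => p.1 + p.2)).rnDeriv volume x).toReal) := by
  have hac' : lawU μ ≪ volume := hac
  have hns := lawU_nullSingleton hac'
  obtain ⟨Q, hQ1, hQ2, hQ3, hQ4⟩ := exists_glue μ
  have hG : Glued μ Q := ⟨hQ1, hQ2, hQ3, hQ4⟩
  have hR1 := hG.R_le_one hμ hvar (by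
    intro a ha1 ha0
    obtain ⟨ν, hν, hd⟩ := hsd a ha0 ha1
    exact ⟨a, le_rfl, ha1, ν, hν, hd⟩)
  obtain ⟨hRi, hReq⟩ := hG.R_eq hμ
  have hmU : Measurable (fun q : (ℝ × ℝ) × (ℝ × ℝ) => q.1.1 + q.1.2) := mx1.add my1
  have hmV : Measurable (fun q : (ℝ × ℝ) × (ℝ × ℝ) => q.2.1 + q.2.2) := mx'.add mz'
  have hmp : Measurable (fun q : (ℝ × ℝ) × (ℝ × ℝ) => (q.1.1 + q.1.2, q.2.1 + q.2.2)) :=
    hmU.prodMk hmV
  refine ⟨Q.map (fun q => (q.1.1 + q.1.2, q.2.1 + q.2.2)),
    Measure.isProbabilityMeasure_map hmp.aemeasurable, ?_, ?_, ?_⟩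
  · rw [Measure.map_map measurable_fst hmp]
    exact hG.map_U
  · rw [Measure.map_map measurable_snd hmp]
    exact hG.map_V
  · have hvr : variance (fun p : ℝ × ℝ => p.1 - p.2)
        (Q.map (fun q => (q.1.1 + q.1.2, q.2.1 + q.2.2)))
        = variance (fun q : (ℝ × ℝ) × (ℝ × ℝ) => (q.1.1 + q.1.2) - (q.2.1 + q.2.2)) Q := by
      rw [variance_map (by fun_prop) hmp.aemeasurable]
      rfl
    rw [hvr]
    exact entropy_le_of_R hμ hac' hint hRi (by rw [hReq]; exact hR1)

end Pool.Agent.MP_ec2ab1_pr
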