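import Pool.Agent.Lib.MP_ec2ab1_pr.Layer

set_option autoImplicit false
open MeasureTheory ProbabilityTheory Set Filter Topology

namespace Pool.Agent.MP_ec2ab1_pr

/-- standard gaussian density -/
noncomputable def ph (t : ℝ) : ℝ := gaussianPDFReal 0 1 t

lemma ph_eq (t : ℝ) : ph t = (Real.sqrt (2 * Real.pi))⁻¹ * Real.exp (-t ^ 2 / 2) := by
  unfold ph gaussianPDFReal
  simp

lemma ph_pos (t : ℝ) : 0 < ph t := gaussianPDFReal_pos 0 1 t one_ne_zero

lemma measurable_ph : Measurable ph := measurable_gaussianPDFReal 0 1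

lemma sqrt_two_pi_pos : 0 < Real.sqrt (2 * Real.pi) := Real.sqrt_pos.2 (by positivity)

lemma one_le_sqrt_two_pi : 1 ≤ Real.sqrt (2 * Real.pi) := by
  rw [Real.one_le_sqrt]
  have := Real.pi_gt_three
  linarith

lemma ph_le_one (t : ℝ) : ph t ≤ 1 := by
  rw [ph_eq]
  have h1 : (Real.sqrt (2 * Real.pi))⁻¹ ≤ 1 := inv_le_one_of_one_le₀ one_le_sqrt_two_pi
  have h2 : Real.exp (-t ^ 2 / 2) ≤ 1 := Real.exp_le_one_iff.2 (by nlinarith [sq_nonneg t])
  have h3 := mul_le_mul h1 h2 (Real.exp_pos (-t ^ 2 / 2)).le (zero_le_one' ℝ)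
  linarith

lemma hasDerivAt_neg_ph (t : ℝ) : HasDerivAt (fun s => - ph s) (t * ph t) t := by
  have h1 : HasDerivAt (fun s : ℝ => Real.exp (-s ^ 2 / 2)) (Real.exp (-t ^ 2 / 2) * (-t)) t := by
    have h2 : HasDerivAt (fun s : ℝ => -s ^ 2 / 2) (-t) t := by
      have h0 : HasDerivAt (fun s : ℝ => s ^ 2) (2 * t) t := by
        simpa using hasDerivAt_pow 2 t
      have h3 : HasDerivAt (fun s : ℝ => -s ^ 2 / 2) (-(2 * t) / 2) t := (h0.fun_neg).div_const 2
      exact h3.congr_deriv (by ring)
    exact h2.exp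
  have h4 := (h1.const_mul (Real.sqrt (2 * Real.pi))⁻¹).fun_neg
  have h5 : (fun s => - ph s) = fun s => -((Real.sqrt (2 * Real.pi))⁻¹ * Real.exp (-s ^ 2 / 2)) := by
    funext s; rw [ph_eq]
  rw [h5]
  refine h4.congr_deriv ?_
  rw [ph_eq]
  ring

lemma tendsto_neg_ph : Tendsto (fun s => - ph s) atTop (𝓝 0) := by
  have h1 : Tendsto (fun s : ℝ => -s ^ 2 / 2) atTop atBot := by
    have : Tendsto (fun s : ℝ => s ^ 2 / 2) atTop atTop :=
      (tendsto_pow_atTop two_ne_zero).atTop_div_const (by norm_num)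
    have h := tendsto_neg_atTop_atBot.comp this
    refine h.congr (fun s => ?_)
    simp [neg_div]
  have h2 := (Real.tendsto_exp_atBot.comp h1).const_mul (Real.sqrt (2 * Real.pi))⁻¹
  have h3 := h2.neg
  simp only [mul_zero, neg_zero] at h3
  refine h3.congr (fun s => ?_)
  simp [ph_eq]

lemma integrable_id_gaussian : Integrable (fun z : ℝ => z) (gaussianReal 0 1) :=
  (memLp_id_gaussianReal (μ := 0) (v := 1) 1).integrable (by simp)

lemma integral_gaussian (g : ℝ → ℝ) : ∫ z, g z ∂(gaussianReal 0 1) = ∫ z, ph z * g z := by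
  rw [integral_gaussianReal_eq_integral_smul one_ne_zero]
  rfl

lemma integrable_mul_ph : Integrable (fun z => z * ph z) := by
  have h := integrable_id_gaussian
  rw [gaussianReal_of_var_ne_zero 0 one_ne_zero] at h
  have h2 := (integrable_withDensity_iff (measurable_gaussianPDF 0 1)
    (Eventually.of_forall fun x => gaussianPDF_lt_top)).1 h
  refine h2.congr (Eventually.of_forall fun z => ?_)
  simp only [toReal_gaussianPDF]
  rfl

/-- `E[Z; Z > t] = φ(t)` -/
lemma gaussian_tail_mean (t : ℝ) : ∫ z in Ioi t, z ∂(gaussianReal 0 1) = ph t := by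
  rw [← integral_indicator measurableSet_Ioi, integral_gaussian]
  have h1 : (fun z => ph z * (Ioi t).indicator (fun z => z) z)
      = (Ioi t).indicator (fun z => z * ph z) := by
    funext z
    by_cases hz : z ∈ Ioi t
    · rw [indicator_of_mem hz, indicator_of_mem hz]; ring
    · rw [indicator_of_notMem hz, indicator_of_notMem hz]; ring
  rw [h1, integral_indicator measurableSet_Ioi]
  have h2 := integral_Ioi_of_hasDerivAt_of_tendsto' (a := t) (f := fun s => - ph s)
    (f' := fun z => z * ph z) (fun x _ => hasDerivAt_neg_ph x) integrable_mul_ph.integrableOn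
    tendsto_neg_ph
  rw [h2]
  ring

section
variable (μ : Measure ℝ) [IsProbabilityMeasure μ]

/-- density of `X + Z` -/
noncomputable def fV (v : ℝ) : ℝ := ∫ x, ph (v - x) ∂μ

/-- law of `X + Z` -/
noncomputable def lawV (μ : Measure ℝ) : Measure ℝ :=
  (μ.prod (gaussianReal 0 1)).map (fun p : ℝ × ℝ => p.1 + p.2)

/-- law of `X + Y` -/
noncomputable def lawU (μ : Measure ℝ) : Measure ℝ :=
  (μ.prod μ).map (fun p : ℝ × ℝ => p.1 + p.2)

lemma integrable_ph_sub (v : ℝ) : Integrable (fun x => ph (v - x)) μ := by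
  refine Integrable.of_bound (C := 1) (measurable_ph.comp (measurable_const.sub measurable_id)).aestronglyMeasurable ?_
  refine Eventually.of_forall fun x => ?_
  rw [Real.norm_eq_abs, abs_of_pos (ph_pos _)]
  exact ph_le_one _

lemma fV_pos (v : ℝ) : 0 < fV μ v := by
  unfold fV
  rw [integral_pos_iff_support_of_nonneg (fun x => (ph_pos _).le) (integrable_ph_sub μ v)]
  have : Function.support (fun x => ph (v - x)) = univ := by
    ext x; simp [(ph_pos _).ne']
  rw [this]; simp

lemma fV_le_one (v : ℝ) : fV μ v ≤ 1 := by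
  unfold fV
  calc ∫ x, ph (v - x) ∂μ ≤ ∫ _x, (1:ℝ) ∂μ :=
        integral_mono (integrable_ph_sub μ v) (integrable_const _) (fun x => ph_le_one _)
    _ = 1 := by simp

lemma measurable_fV : Measurable (fV μ) := by
  unfold fV
  have : StronglyMeasurable (fun p : ℝ × ℝ => ph (p.1 - p.2)) :=
    (measurable_ph.comp (measurable_fst.sub measurable_snd)).stronglyMeasurable
  exact this.integral_prod_right.measurable

lemma lawV_eq : lawV μ = volume.withDensity (fun v => ENNReal.ofReal (fV μ v)) := by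
  refine Measure.ext_of_lintegral _ ?_
  intro ψ hψ
  unfold lawV
  have hadd : Measurable (fun p : ℝ × ℝ => p.1 + p.2) := measurable_fst.add measurable_snd
  have hψ2 : Measurable (fun p : ℝ × ℝ => ψ (p.1 + p.2)) := hψ.comp hadd
  rw [lintegral_map hψ hadd, lintegral_prod _ hψ2.aemeasurable,
    lintegral_withDensity_eq_lintegral_mul _ (measurable_fV μ).ennreal_ofReal hψ]
  have h1 : ∀ x : ℝ, ∫⁻ z, ψ (x + z) ∂(gaussianReal 0 1)
      = ∫⁻ v, ENNReal.ofReal (ph (v - x)) * ψ v := by
    intro x
    have hψ3 : Measurable (fun z : ℝ => ψ (x + z)) := hψ.comp (measurable_const_add x)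
    rw [gaussianReal_of_var_ne_zero 0 one_ne_zero,
      lintegral_withDensity_eq_lintegral_mul _ (measurable_gaussianPDF 0 1) hψ3]
    rw [← lintegral_add_right_eq_self (fun v => ENNReal.ofReal (ph (v - x)) * ψ v) x]
    refine lintegral_congr fun z => ?_
    simp only [Pi.mul_apply]
    rw [add_sub_cancel_right, add_comm x z]
    rfl
  simp_rw [h1]
  rw [lintegral_lintegral_swap]
  · refine lintegral_congr fun v => ?_
    simp only [Pi.mul_apply]
    rw [lintegral_mul_const _ (by
      exact (measurable_ph.comp (measurable_const.sub measurable_id)).ennreal_ofReal)]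
    congr 1
    unfold fV
    rw [ofReal_integral_eq_lintegral_ofReal (integrable_ph_sub μ v)
      (Eventually.of_forall fun x => (ph_pos _).le)]
  · exact ((measurable_ph.comp (measurable_snd.sub measurable_fst)).ennreal_ofReal.mul
      (hψ.comp measurable_snd)).aemeasurable

instance : IsProbabilityMeasure (lawV μ) :=
  Measure.isProbabilityMeasure_map (measurable_fst.add measurable_snd).aemeasurable

instance : IsProbabilityMeasure (lawU μ) :=
  Measure.isProbabilityMeasure_map (measurable_fst.add measurable_snd).aemeasurable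

lemma lawV_ac : lawV μ ≪ volume := by
  rw [lawV_eq]; exact withDensity_absolutelyContinuous _ _

instance : NullSingletonClass (lawV μ) := by
  refine ⟨fun x => ?_⟩
  exact lawV_ac μ (measure_singleton x)

lemma lawV_Ioc_pos (a b : ℝ) (hab : a < b) : 0 < lawV μ (Ioc a b) := by
  rw [lawV_eq, withDensity_apply _ measurableSet_Ioc]
  rw [setLIntegral_pos_iff (measurable_fV μ).ennreal_ofReal]
  have : Function.support (fun v => ENNReal.ofReal (fV μ v)) = univ := by
    ext v; simp [fV_pos μ v]
  rw [this, univ_inter]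
  simp [hab]

lemma strictMono_lawV : StrictMono (cdf (lawV μ)) :=
  strictMono_cdf _ (lawV_Ioc_pos μ)

lemma integrable_snd_prod : Integrable (fun p : ℝ × ℝ => p.2) (μ.prod (gaussianReal 0 1)) :=
  integrable_id_gaussian.comp_snd μ

/-- `E[Z; X + Z > s] = f_V(s)`. -/
lemma stein_fV (s : ℝ) :
    ∫ p in {p : ℝ × ℝ | s < p.1 + p.2}, p.2 ∂(μ.prod (gaussianReal 0 1)) = fV μ s := by
  have hms : MeasurableSet {p : ℝ × ℝ | s < p.1 + p.2} :=
    measurableSet_lt measurable_const (measurable_fst.add measurable_snd)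
  rw [← integral_indicator hms, integral_prod _ ((integrable_snd_prod μ).indicator hms)]
  unfold fV
  refine integral_congr_ae (Eventually.of_forall fun x => ?_)
  show ∫ z, {p : ℝ × ℝ | s < p.1 + p.2}.indicator (fun p => p.2) (x, z) ∂(gaussianReal 0 1)
    = ph (s - x)
  rw [← gaussian_tail_mean (s - x), ← integral_indicator measurableSet_Ioi]
  refine integral_congr_ae (Eventually.of_forall fun z => ?_)
  show {p : ℝ × ℝ | s < p.1 + p.2}.indicator (fun p => p.2) (x, z)
    = (Ioi (s - x)).indicator (fun z => z) z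
  by_cases hz : s < x + z
  · rw [indicator_of_mem (show (x, z) ∈ {p : ℝ × ℝ | s < p.1 + p.2} from hz),
      indicator_of_mem (show z ∈ Ioi (s - x) from by
        show s - x < z
        linarith)]
  · rw [indicator_of_notMem (show (x, z) ∉ {p : ℝ × ℝ | s < p.1 + p.2} from hz),
      indicator_of_notMem (show z ∉ Ioi (s - x) from by
        show ¬ (s - x < z)
        intro h
        exact hz (by linarith))]

/-- lower bound for the density -/
lemma log_fV_ge (hμ : MemLp (fun x : ℝ => x) 2 μ) (v : ℝ) :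
    -(Real.log (Real.sqrt (2 * Real.pi))) - (∫ x, (v - x) ^ 2 ∂μ) / 2 ≤ Real.log (fV μ v) := by
  have hi : Integrable (fun x : ℝ => (v - x) ^ 2) μ := by
    have h1 : MemLp (fun x : ℝ => v - x) 2 μ := (memLp_const v).sub hμ
    exact h1.integrable_sq
  set t0 : ℝ := -(∫ x, (v - x) ^ 2 ∂μ) / 2 with ht0
  have h2 : (Real.sqrt (2 * Real.pi))⁻¹ * Real.exp t0 ≤ fV μ v := by
    unfold fV
    have h3 : ∀ x : ℝ, (Real.sqrt (2 * Real.pi))⁻¹ * (Real.exp t0 * (1 + (-(v - x) ^ 2 / 2 - t0)))
        ≤ ph (v - x) := by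
      intro x
      rw [ph_eq]
      refine mul_le_mul_of_nonneg_left ?_ (inv_nonneg.2 sqrt_two_pi_pos.le)
      have h4 := Real.add_one_le_exp (-(v - x) ^ 2 / 2 - t0)
      have h5 : Real.exp (-(v - x) ^ 2 / 2) = Real.exp t0 * Real.exp (-(v - x) ^ 2 / 2 - t0) := by
        rw [← Real.exp_add]; congr 1; ring
      rw [h5]
      refine mul_le_mul_of_nonneg_left ?_ (Real.exp_pos _).le
      linarith
    have hint : Integrable (fun x => (Real.sqrt (2 * Real.pi))⁻¹ *
        (Real.exp t0 * (1 + (-(v - x) ^ 2 / 2 - t0)))) μ := by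
      refine Integrable.const_mul (Integrable.const_mul ?_ _) _
      have h11 : Integrable (fun x => (1 - t0) - (v - x) ^ 2 / 2) μ :=
        (integrable_const _).sub (hi.div_const 2)
      refine h11.congr (Eventually.of_forall fun x => ?_)
      ring
    have h6 := integral_mono hint (integrable_ph_sub μ v) h3
    refine le_trans (le_of_eq ?_) h6
    rw [integral_const_mul, integral_const_mul]
    have h10 : (fun x => 1 + (-(v - x) ^ 2 / 2 - t0)) = fun x => (1 - t0) - (v - x) ^ 2 / 2 := by
      funext x; ring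
    rw [h10, integral_sub (integrable_const _) (hi.div_const 2), integral_div]
    simp only [integral_const, probReal_univ, smul_eq_mul, one_mul]
    rw [ht0]
    ring
  have h7 : 0 < (Real.sqrt (2 * Real.pi))⁻¹ * Real.exp t0 := by
    have := sqrt_two_pi_pos
    positivity
  have h8 := Real.log_le_log h7 h2
  rw [Real.log_mul (inv_ne_zero sqrt_two_pi_pos.ne') (Real.exp_pos _).ne', Real.log_inv,
    Real.log_exp] at h8
  have h9 : t0 = - ((∫ x, (v - x) ^ 2 ∂μ) / 2) := by rw [ht0]; ring
  rw [h9] at h8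
  linarith

lemma log_fV_nonpos (v : ℝ) : Real.log (fV μ v) ≤ 0 :=
  Real.log_nonpos (fV_pos μ v).le (fV_le_one μ v)

end

end Pool.Agent.MP_ec2ab1_pr
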