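import Pool.Agent.Lib.MP_ec2ab1_pr.Gauss

set_option autoImplicit false
open MeasureTheory ProbabilityTheory Set Filter Topology

namespace Pool.Agent.MP_ec2ab1_pr

lemma compProd_comap_map {α β γ' : Type*} [MeasurableSpace α] [MeasurableSpace β]
    [MeasurableSpace γ'] (m : Measure α) [IsProbabilityMeasure m] (κ : Kernel β γ')
    [IsMarkovKernel κ] {T : α → β} (hT : Measurable T) :
    (m ⊗ₘ (κ.comap T hT)).map (fun q => (T q.1, q.2)) = (m.map T) ⊗ₘ κ := by
  have hTm : Measurable (fun q : α × γ' => (T q.1, q.2)) :=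
    (hT.comp measurable_fst).prodMk measurable_snd
  have : IsProbabilityMeasure (m.map T) := Measure.isProbabilityMeasure_map hT.aemeasurable
  ext s hs
  rw [Measure.map_apply hTm hs, Measure.compProd_apply (hTm hs), Measure.compProd_apply hs,
    lintegral_map (Kernel.measurable_kernel_prodMk_left hs) hT]
  rfl

lemma exists_glue (μ : Measure ℝ) [IsProbabilityMeasure μ] [NullSingletonClass (lawU μ)] :
    ∃ Q : Measure ((ℝ × ℝ) × (ℝ × ℝ)), IsProbabilityMeasure Q ∧
      Q.map Prod.fst = μ.prod μ ∧ Q.map Prod.snd = μ.prod (gaussianReal 0 1) ∧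
      ∀ᵐ q ∂Q, S (lawV μ) (lawU μ) (q.1.1 + q.1.2) = q.2.1 + q.2.2 := by
  set γ := gaussianReal 0 1 with hγ
  have hadd : Measurable (fun p : ℝ × ℝ => p.1 + p.2) := measurable_fst.add measurable_snd
  have hs := strictMono_lawV μ
  have hSm := measurable_S (lawV μ) (lawU μ) hs
  set κ := condDistrib (fun p : ℝ × ℝ => p) (fun p : ℝ × ℝ => p.1 + p.2) (μ.prod γ) with hκ
  set T0 : ℝ × ℝ → ℝ := fun p => S (lawV μ) (lawU μ) (p.1 + p.2) with hT0
  have hT0m : Measurable T0 := hSm.comp hadd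
  have hmapT0 : (μ.prod μ).map T0 = lawV μ := by
    have : (μ.prod μ).map T0 = (lawU μ).map (S (lawV μ) (lawU μ)) := by
      have h := Measure.map_map (μ := μ.prod μ) hSm hadd
      exact h.symm
    rw [this, map_S _ _ hs]
  have hΘ : ((μ.prod μ) ⊗ₘ (κ.comap T0 hT0m)).map (fun q => (T0 q.1, q.2))
      = (μ.prod γ).map (fun p => (p.1 + p.2, p)) := by
    rw [compProd_comap_map, hmapT0]
    have hY : AEMeasurable (fun p : ℝ × ℝ => p) (μ.prod γ) := aemeasurable_id
    exact compProd_map_condDistrib hY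
  refine ⟨(μ.prod μ) ⊗ₘ (κ.comap T0 hT0m), inferInstance, ?_, ?_, ?_⟩
  · exact Measure.fst_compProd (μ.prod μ) (κ.comap T0 hT0m)
  · have hTm : Measurable (fun q : (ℝ × ℝ) × (ℝ × ℝ) => (T0 q.1, q.2)) :=
      (hT0m.comp measurable_fst).prodMk measurable_snd
    have h1 : ((μ.prod μ) ⊗ₘ (κ.comap T0 hT0m)).map Prod.snd
        = (((μ.prod μ) ⊗ₘ (κ.comap T0 hT0m)).map (fun q => (T0 q.1, q.2))).map Prod.snd := by
      rw [Measure.map_map measurable_snd hTm]
      rfl
    have hpm : Measurable (fun p : ℝ × ℝ => (p.1 + p.2, p)) := hadd.prodMk measurable_id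
    rw [h1, hΘ, Measure.map_map measurable_snd hpm]
    exact Measure.map_id
  · have hTm : Measurable (fun q : (ℝ × ℝ) × (ℝ × ℝ) => (T0 q.1, q.2)) :=
      (hT0m.comp measurable_fst).prodMk measurable_snd
    have h2 : ∀ᵐ t ∂((μ.prod γ).map (fun p : ℝ × ℝ => (p.1 + p.2, p))),
        t.1 = t.2.1 + t.2.2 := by
      have hms : MeasurableSet {t : ℝ × (ℝ × ℝ) | t.1 = t.2.1 + t.2.2} :=
        measurableSet_eq_fun measurable_fst (hadd.comp measurable_snd)
      have hpm : Measurable (fun p : ℝ × ℝ => (p.1 + p.2, p)) := hadd.prodMk measurable_id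
      rw [ae_map_iff hpm.aemeasurable hms]
      exact Eventually.of_forall fun p => rfl
    rw [← hΘ] at h2
    exact ae_of_ae_map hTm.aemeasurable h2

end Pool.Agent.MP_ec2ab1_pr
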