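import Pool.Agent.Lib.MP_ec2ab1_pr.Final

set_option autoImplicit false
set_option linter.unusedSectionVars false
open MeasureTheory ProbabilityTheory Set Filter Topology

namespace Pool.Agent.MP_ec2ab1_pr

section
variable (μ : Measure ℝ) [IsProbabilityMeasure μ]

/-- the measure `e^{-x²/2} μ(dx)` -/
noncomputable def damp : Measure ℝ :=
  μ.withDensity (fun x => ENNReal.ofReal (Real.exp (-x ^ 2 / 2)))

/-- moments of `e^{vx-x²/2} μ(dx)` -/
noncomputable def Mm (n : ℕ) (v : ℝ) : ℝ := ∫ x, x ^ n * Real.exp (v * x - x ^ 2 / 2) ∂μ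

lemma meas_damp : Measurable (fun x : ℝ => ENNReal.ofReal (Real.exp (-x ^ 2 / 2))) := by fun_prop

lemma tilt_le (v x : ℝ) : Real.exp (v * x - x ^ 2 / 2) ≤ Real.exp (v ^ 2 / 2) := by
  apply Real.exp_le_exp.2
  nlinarith [sq_nonneg (v - x)]

lemma integrable_exp_damp (t : ℝ) : Integrable (fun x => Real.exp (t * x)) (damp μ) := by
  unfold damp
  rw [integrable_withDensity_iff meas_damp (Eventually.of_forall fun x => ENNReal.ofReal_lt_top)]
  refine Integrable.of_bound (C := Real.exp (t ^ 2 / 2)) (by fun_prop) ?_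
  refine Eventually.of_forall fun x => ?_
  rw [ENNReal.toReal_ofReal (Real.exp_pos _).le, ← Real.exp_add, Real.norm_eq_abs,
    abs_of_pos (Real.exp_pos _)]
  have := tilt_le t x
  have e : t * x + -x ^ 2 / 2 = t * x - x ^ 2 / 2 := by ring
  rw [e]; exact this

lemma mem_int (t : ℝ) : t ∈ interior (integrableExpSet (fun x : ℝ => x) (damp μ)) := by
  have : integrableExpSet (fun x : ℝ => x) (damp μ) = univ := by
    ext s; simp only [mem_univ, iff_true]; exact integrable_exp_damp μ s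
  rw [this]; simp

lemma integrable_Mm (n : ℕ) (v : ℝ) :
    Integrable (fun x => x ^ n * Real.exp (v * x - x ^ 2 / 2)) μ := by
  have h := integrable_pow_mul_exp_of_mem_interior_integrableExpSet (mem_int μ v) n
  unfold damp at h
  rw [integrable_withDensity_iff meas_damp (Eventually.of_forall fun x => ENNReal.ofReal_lt_top)] at h
  refine h.congr (Eventually.of_forall fun x => ?_)
  show x ^ n * Real.exp (v * x) * (ENNReal.ofReal (Real.exp (-x ^ 2 / 2))).toReal = _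
  rw [ENNReal.toReal_ofReal (Real.exp_pos _).le, mul_assoc, ← Real.exp_add]
  congr 2; ring

lemma Mm_eq (n : ℕ) (v : ℝ) : Mm μ n v = ∫ x, x ^ n * Real.exp (v * x) ∂(damp μ) := by
  unfold Mm damp
  rw [integral_withDensity_eq_integral_toReal_smul meas_damp
    (Eventually.of_forall fun x => ENNReal.ofReal_lt_top)]
  refine integral_congr_ae (Eventually.of_forall fun x => ?_)
  show _ = (ENNReal.ofReal (Real.exp (-x ^ 2 / 2))).toReal • (x ^ n * Real.exp (v * x))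
  rw [ENNReal.toReal_ofReal (Real.exp_pos _).le, smul_eq_mul, mul_comm, mul_assoc, ← Real.exp_add]
  show x ^ n * Real.exp (v * x - x ^ 2 / 2) = _
  congr 2; ring

lemma hasDerivAt_Mm (n : ℕ) (v : ℝ) : HasDerivAt (Mm μ n) (Mm μ (n + 1) v) v := by
  have h := hasDerivAt_integral_pow_mul_exp_real (mem_int μ v) n
  rw [Mm_eq]
  have e : Mm μ n = fun v => ∫ x, x ^ n * Real.exp (v * x) ∂(damp μ) := by
    funext w; exact Mm_eq μ n w
  rw [e]
  exact h

lemma Mm0_pos (v : ℝ) : 0 < Mm μ 0 v := by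
  unfold Mm
  rw [integral_pos_iff_support_of_nonneg]
  · have : Function.support (fun x : ℝ => x ^ 0 * Real.exp (v * x - x ^ 2 / 2)) = univ := by
      ext x; simp [(Real.exp_pos _).ne']
    rw [this]; simp
  · intro x
    simp only [pow_zero, one_mul]
    exact (Real.exp_pos _).le
  · exact integrable_Mm μ 0 v

/-- `K = log ∫ e^{vx-x²/2} μ(dx)` -/
noncomputable def Kf (v : ℝ) : ℝ := Real.log (Mm μ 0 v)
noncomputable def K1 (v : ℝ) : ℝ := Mm μ 1 v / Mm μ 0 v
noncomputable def K2 (v : ℝ) : ℝ := Mm μ 2 v / Mm μ 0 v - K1 μ v ^ 2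
/-- unnormalised third central moment -/
noncomputable def cm3 (v : ℝ) : ℝ := ∫ x, (x - K1 μ v) ^ 3 * Real.exp (v * x - x ^ 2 / 2) ∂μ

lemma hasDerivAt_Kf (v : ℝ) : HasDerivAt (Kf μ) (K1 μ v) v :=
  (hasDerivAt_Mm μ 0 v).log (Mm0_pos μ v).ne'

lemma hasDerivAt_K1 (v : ℝ) : HasDerivAt (K1 μ) (K2 μ v) v := by
  have h0 := (Mm0_pos μ v).ne'
  have h := (hasDerivAt_Mm μ 1 v).div (hasDerivAt_Mm μ 0 v) h0
  refine h.congr_deriv ?_
  unfold K2 K1
  field_simp

lemma cm3_eq (v : ℝ) : cm3 μ v = Mm μ 3 v - 3 * K1 μ v * Mm μ 2 v + 3 * K1 μ v ^ 2 * Mm μ 1 v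
    - K1 μ v ^ 3 * Mm μ 0 v := by
  have e : (fun x : ℝ => (x - K1 μ v) ^ 3 * Real.exp (v * x - x ^ 2 / 2))
      = fun x => (((x ^ 3 * Real.exp (v * x - x ^ 2 / 2))
        - 3 * K1 μ v * (x ^ 2 * Real.exp (v * x - x ^ 2 / 2)))
        + 3 * K1 μ v ^ 2 * (x ^ 1 * Real.exp (v * x - x ^ 2 / 2)))
        - K1 μ v ^ 3 * (x ^ 0 * Real.exp (v * x - x ^ 2 / 2)) := by
    funext x; ring
  have i3 := integrable_Mm μ 3 v
  have i2 := (integrable_Mm μ 2 v).const_mul (3 * K1 μ v)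
  have i1 := (integrable_Mm μ 1 v).const_mul (3 * K1 μ v ^ 2)
  have i0 := (integrable_Mm μ 0 v).const_mul (K1 μ v ^ 3)
  have i32 : Integrable (fun x => (x ^ 3 * Real.exp (v * x - x ^ 2 / 2))
        - 3 * K1 μ v * (x ^ 2 * Real.exp (v * x - x ^ 2 / 2))) μ := i3.sub i2
  have i321 : Integrable (fun x => ((x ^ 3 * Real.exp (v * x - x ^ 2 / 2))
        - 3 * K1 μ v * (x ^ 2 * Real.exp (v * x - x ^ 2 / 2)))
        + 3 * K1 μ v ^ 2 * (x ^ 1 * Real.exp (v * x - x ^ 2 / 2))) μ := i32.add i1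
  unfold cm3
  rw [e, integral_sub i321 i0, integral_add i32 i1, integral_sub i3 i2,
    integral_const_mul, integral_const_mul, integral_const_mul]
  rfl

lemma hasDerivAt_K2 (v : ℝ) : HasDerivAt (K2 μ) (cm3 μ v / Mm μ 0 v) v := by
  have h0 := (Mm0_pos μ v).ne'
  have h := ((hasDerivAt_Mm μ 2 v).div (hasDerivAt_Mm μ 0 v) h0).sub ((hasDerivAt_K1 μ v).pow 2)
  refine h.congr_deriv ?_
  rw [cm3_eq]
  unfold K2 K1
  simp only [Nat.reduceAdd, Nat.cast_ofNat, Nat.add_one_sub_one, pow_one]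
  field_simp
  ring

lemma K2_nonneg (v : ℝ) : 0 ≤ K2 μ v := by
  have h0 := Mm0_pos μ v
  have e : Mm μ 0 v * K2 μ v = ∫ x, (x - K1 μ v) ^ 2 * Real.exp (v * x - x ^ 2 / 2) ∂μ := by
    have e1 : (fun x : ℝ => (x - K1 μ v) ^ 2 * Real.exp (v * x - x ^ 2 / 2))
      = fun x => ((x ^ 2 * Real.exp (v * x - x ^ 2 / 2))
        - 2 * K1 μ v * (x ^ 1 * Real.exp (v * x - x ^ 2 / 2)))
        + K1 μ v ^ 2 * (x ^ 0 * Real.exp (v * x - x ^ 2 / 2)) := by
      funext x; ring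
    have i2 := (integrable_Mm μ 2 v)
    have i1 := (integrable_Mm μ 1 v).const_mul (2 * K1 μ v)
    have i0 := (integrable_Mm μ 0 v).const_mul (K1 μ v ^ 2)
    have i21 : Integrable (fun x => (x ^ 2 * Real.exp (v * x - x ^ 2 / 2))
        - 2 * K1 μ v * (x ^ 1 * Real.exp (v * x - x ^ 2 / 2))) μ := i2.sub i1
    rw [e1, integral_add i21 i0, integral_sub i2 i1, integral_const_mul, integral_const_mul]
    show _ = Mm μ 2 v - 2 * K1 μ v * Mm μ 1 v + K1 μ v ^ 2 * Mm μ 0 v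
    unfold K2 K1
    field_simp
    ring
  have h1 : 0 ≤ Mm μ 0 v * K2 μ v := by
    rw [e]
    exact integral_nonneg fun x => mul_nonneg (sq_nonneg _) (Real.exp_pos _).le
  exact nonneg_of_mul_nonneg_right h1 h0

lemma fV_eq_Mm (v : ℝ) : fV μ v = (Real.sqrt (2 * Real.pi))⁻¹ * Real.exp (-v ^ 2 / 2) * Mm μ 0 v := by
  unfold fV Mm
  rw [← integral_const_mul]
  refine integral_congr_ae (Eventually.of_forall fun x => ?_)
  show ph (v - x) = _
  rw [ph_eq]
  simp only [pow_zero, one_mul]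
  rw [mul_assoc, ← Real.exp_add]
  congr 2; ring

lemma log_fV_eq (v : ℝ) : Real.log (fV μ v) = -Real.log (Real.sqrt (2 * Real.pi)) - v ^ 2 / 2 + Kf μ v := by
  have h0 := (Mm0_pos μ v).ne'
  rw [fV_eq_Mm, Real.log_mul (mul_ne_zero (inv_ne_zero sqrt_two_pi_pos.ne') (Real.exp_pos _).ne') h0,
    Real.log_mul (inv_ne_zero sqrt_two_pi_pos.ne') (Real.exp_pos _).ne', Real.log_inv, Real.log_exp]
  unfold Kf
  ring

lemma Kf_bound (hμ : MemLp (fun x : ℝ => x) 2 μ) :
    ∃ C : ℝ, 0 ≤ C ∧ ∀ v : ℝ, |Kf μ v| ≤ C * (1 + v ^ 2) := by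
  have hi : Integrable (fun x : ℝ => x) μ := hμ.integrable (by norm_num)
  set m := ∫ x, x ∂μ with hm
  set M := ∫ x, x ^ 2 ∂μ with hM
  have hM0 : 0 ≤ M := integral_nonneg fun x => sq_nonneg x
  have hsq : ∀ v : ℝ, ∫ x, (v - x) ^ 2 ∂μ = v ^ 2 - 2 * v * m + M := by
    intro v
    have e : (fun x : ℝ => (v - x) ^ 2) = fun x => (v ^ 2 + (-(2 * v)) * x) + x ^ 2 := by
      funext x; ring
    have i1 : Integrable (fun x : ℝ => v ^ 2 + (-(2 * v)) * x) μ :=
      (integrable_const _).add (hi.const_mul _)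
    rw [e, integral_add i1 hμ.integrable_sq, integral_add (integrable_const _) (hi.const_mul _),
      integral_const_mul]
    simp only [integral_const, probReal_univ, smul_eq_mul, one_mul]
    ring
  set L := Real.log (Real.sqrt (2 * Real.pi)) with hL
  have hL0 : 0 ≤ L := Real.log_nonneg one_le_sqrt_two_pi
  refine ⟨1 + |m| + M + L, by positivity, fun v => ?_⟩
  have h1 := log_fV_ge μ hμ v
  have h2 := log_fV_nonpos μ v
  rw [log_fV_eq, hsq v] at h1
  rw [log_fV_eq] at h2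
  have h3 : |v * m| ≤ |m| * (1 + v ^ 2) := by
    rw [abs_mul, mul_comm]
    refine mul_le_mul_of_nonneg_left ?_ (abs_nonneg m)
    rw [abs_le]
    constructor <;> nlinarith [sq_nonneg (v - 1), sq_nonneg (v + 1), sq_nonneg v]
  have h4 := abs_le.1 h3
  have hv := sq_nonneg v
  have hm0 := abs_nonneg m
  rw [abs_le]
  constructor <;> nlinarith [mul_nonneg hM0 hv, mul_nonneg hL0 hv, mul_nonneg hm0 hv]

end

end Pool.Agent.MP_ec2ab1_pr
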