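import Pool.Agent.Lib.MP_ec2ab1_pr.Transport

set_option autoImplicit false
open MeasureTheory ProbabilityTheory Set Filter Topology

namespace Pool.Agent.MP_ec2ab1_pr

/-- layer kernel: `∫ k t u du = t` -/
noncomputable def lay (t u : ℝ) : ℝ := (if u < t then 1 else 0) - (if u < 0 then 1 else 0)

lemma lay_eq_of_nonneg {t : ℝ} (ht : 0 ≤ t) : lay t = (Ico 0 t).indicator (fun _ => (1:ℝ)) := by
  funext u
  unfold lay
  by_cases h0 : u < 0
  · have h1 : u < t := lt_of_lt_of_le h0 ht
    simp [h0, h1]
  · by_cases h1 : u < t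
    · simp [h0, h1, not_lt.1 h0]
    · simp [h0, h1]

lemma lay_eq_of_neg {t : ℝ} (ht : t < 0) : lay t = (Ico t 0).indicator (fun _ => (-1:ℝ)) := by
  funext u
  unfold lay
  by_cases h0 : u < t
  · have h1 : u < 0 := lt_trans h0 ht
    simp [h0, h1]
  · by_cases h1 : u < 0
    · simp [h0, h1, not_lt.1 h0]
    · simp [h0, h1]

lemma integrable_lay (t : ℝ) : Integrable (lay t) := by
  rcases le_or_gt 0 t with ht | ht
  · rw [lay_eq_of_nonneg ht]
    exact (integrable_indicator_iff measurableSet_Ico).2 (integrableOn_const (by simp) (by simp))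
  · rw [lay_eq_of_neg ht]
    exact (integrable_indicator_iff measurableSet_Ico).2 (integrableOn_const (by simp) (by simp))

lemma integral_lay (t : ℝ) : ∫ u, lay t u = t := by
  rcases le_or_gt 0 t with ht | ht
  · rw [lay_eq_of_nonneg ht, integral_indicator measurableSet_Ico]
    simp [ht]
  · rw [lay_eq_of_neg ht, integral_indicator measurableSet_Ico]
    simp [ht.le]

lemma integral_norm_lay (t : ℝ) : ∫ u, ‖lay t u‖ = |t| := by
  rcases le_or_gt 0 t with ht | ht
  · have : (fun u => ‖lay t u‖) = lay t := by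
      rw [lay_eq_of_nonneg ht]
      funext u
      by_cases hu : u ∈ Ico 0 t <;> simp [hu]
    rw [this, integral_lay, abs_of_nonneg ht]
  · have : (fun u => ‖lay t u‖) = fun u => - lay t u := by
      rw [lay_eq_of_neg ht]
      funext u
      by_cases hu : u ∈ Ico t 0 <;> simp [hu]
    rw [this, integral_neg, integral_lay, abs_of_neg ht]

lemma measurable_lay : Measurable (fun p : ℝ × ℝ => lay p.1 p.2) := by
  unfold lay
  refine Measurable.sub ?_ ?_
  · exact Measurable.ite (measurableSet_lt measurable_snd measurable_fst) measurable_const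
      measurable_const
  · exact Measurable.ite (measurableSet_lt measurable_snd measurable_const) measurable_const
      measurable_const

section
variable {Ω : Type*} [MeasurableSpace Ω] (P : Measure Ω) [SFinite P]

omit [SFinite P] in
lemma integrable_layer {A U : Ω → ℝ} (hA : Measurable A) (hU : Measurable U)
    (hAU : Integrable (fun ω => A ω * U ω) P) :
    Integrable (fun q : Ω × ℝ => A q.1 * lay (U q.1) q.2) (P.prod volume) := by
  have hmeas : Measurable (fun q : Ω × ℝ => A q.1 * lay (U q.1) q.2) :=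
    (hA.comp measurable_fst).mul
      (measurable_lay.comp ((hU.comp measurable_fst).prodMk measurable_snd))
  rw [integrable_prod_iff hmeas.aestronglyMeasurable]
  constructor
  · exact Eventually.of_forall fun ω => (integrable_lay (U ω)).const_mul (A ω)
  · have : (fun ω => ∫ u, ‖A ω * lay (U ω) u‖) = fun ω => ‖A ω * U ω‖ := by
      funext ω
      simp_rw [norm_mul]
      rw [integral_const_mul, integral_norm_lay, Real.norm_eq_abs (U ω)]
    show Integrable (fun ω => ∫ u, ‖A ω * lay (U ω) u‖) P
    rw [this]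
    exact hAU.norm

lemma layer_eq {A U : Ω → ℝ} (hA : Measurable A) (hU : Measurable U)
    (hAU : Integrable (fun ω => A ω * U ω) P) :
    ∫ ω, A ω * U ω ∂P = ∫ u, ∫ ω, A ω * lay (U ω) u ∂P := by
  have h := integrable_layer P hA hU hAU
  rw [← integral_integral_swap (f := fun ω u => A ω * lay (U ω) u) h]
  refine integral_congr_ae (Eventually.of_forall fun ω => ?_)
  show A ω * U ω = ∫ u, A ω * lay (U ω) u
  rw [integral_const_mul, integral_lay]

lemma integrable_layer_snd {A U : Ω → ℝ} (hA : Measurable A) (hU : Measurable U)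
    (hAU : Integrable (fun ω => A ω * U ω) P) :
    Integrable (fun u => ∫ ω, A ω * lay (U ω) u ∂P) := by
  exact (integrable_layer P hA hU hAU).integral_prod_right

omit [SFinite P] in
lemma integral_mul_lay {A U : Ω → ℝ} (hA : Integrable A P) (hU : Measurable U) (u : ℝ) :
    ∫ ω, A ω * lay (U ω) u ∂P
      = ∫ ω in {ω | u < U ω}, A ω ∂P - (if u < 0 then 1 else 0) * ∫ ω, A ω ∂P := by
  have hms : MeasurableSet {ω | u < U ω} := measurableSet_lt measurable_const hU
  have h1 : (fun ω => A ω * lay (U ω) u)
      = fun ω => {ω | u < U ω}.indicator A ω - (if u < 0 then 1 else 0) * A ω := by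
    funext ω
    unfold lay
    by_cases h : u < U ω
    · have : ω ∈ {ω | u < U ω} := h
      rw [indicator_of_mem this]
      simp only [h, if_true]
      ring
    · have : ω ∉ {ω | u < U ω} := h
      rw [indicator_of_notMem this]
      simp only [h, if_false]
      ring
  rw [h1, integral_sub (hA.indicator hms) (hA.const_mul _), integral_indicator hms,
    integral_const_mul]

end

/-- **Rearrangement inequality.** Any coupling of `ν₁` and `ν₂` has mixed moment at most that of
the monotone coupling `(S u, u)`. -/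
lemma rearrangement {Ω : Type*} [MeasurableSpace Ω] (P : Measure Ω) [IsProbabilityMeasure P]
    (ν₁ ν₂ : Measure ℝ) [IsProbabilityMeasure ν₁] [IsProbabilityMeasure ν₂]
    [NullSingletonClass ν₁] [NullSingletonClass ν₂] (hs : StrictMono (cdf ν₁))
    (h1 : MemLp (fun x : ℝ => x) 2 ν₁) (h2 : MemLp (fun x : ℝ => x) 2 ν₂)
    {V U : Ω → ℝ} (hV : Measurable V) (hU : Measurable U)
    (hVm : P.map V = ν₁) (hUm : P.map U = ν₂) :
    ∫ ω, V ω * U ω ∂P ≤ ∫ u, S ν₁ ν₂ u * u ∂ν₂ := by
  have hSm := measurable_S ν₁ ν₂ hs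
  have hmap := map_S ν₁ ν₂ hs
  have hV2 : MemLp V 2 P := by
    have := h1
    rw [← hVm] at this
    exact (memLp_map_measure_iff this.aestronglyMeasurable hV.aemeasurable).1 this
  have hU2 : MemLp U 2 P := by
    have := h2
    rw [← hUm] at this
    exact (memLp_map_measure_iff this.aestronglyMeasurable hU.aemeasurable).1 this
  have hS2 : MemLp (S ν₁ ν₂) 2 ν₂ := by
    have := h1
    rw [← hmap] at this
    exact (memLp_map_measure_iff this.aestronglyMeasurable hSm.aemeasurable).1 this
  have hVU : Integrable (fun ω => V ω * U ω) P := hV2.integrable_mul hU2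
  have hSU : Integrable (fun u => S ν₁ ν₂ u * u) ν₂ := hS2.integrable_mul h2
  have hVi : Integrable V P := hV2.integrable (by norm_num)
  have hSi : Integrable (S ν₁ ν₂) ν₂ := hS2.integrable (by norm_num)
  have hEV : ∫ ω, V ω ∂P = ∫ u, S ν₁ ν₂ u ∂ν₂ := by
    have e1 : ∫ ω, V ω ∂P = ∫ v, v ∂ν₁ := by
      rw [← hVm, integral_map hV.aemeasurable (by fun_prop)]
    have e2 : ∫ u, S ν₁ ν₂ u ∂ν₂ = ∫ v, v ∂ν₁ := by
      conv_rhs => rw [← hmap]
      rw [integral_map hSm.aemeasurable (by fun_prop)]
    rw [e1, e2]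
  rw [layer_eq P hV hU hVU, layer_eq ν₂ hSm measurable_id' hSU]
  refine integral_mono (integrable_layer_snd P hV hU hVU)
    (integrable_layer_snd ν₂ hSm measurable_id' hSU) ?_
  intro u
  show ∫ ω, V ω * lay (U ω) u ∂P ≤ ∫ w, S ν₁ ν₂ w * lay w u ∂ν₂
  rw [integral_mul_lay P hVi hU u, integral_mul_lay ν₂ hSi measurable_id' u, hEV]
  have key : ∫ ω in {ω | u < U ω}, V ω ∂P ≤ ∫ w in {w | u < w}, S ν₁ ν₂ w ∂ν₂ := by
    have hmsU : MeasurableSet {ω | u < U ω} := measurableSet_lt measurable_const hU
    have hmsI : MeasurableSet {w : ℝ | u < w} := measurableSet_lt measurable_const measurable_id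
    have hmeasU : P {ω | u < U ω} = ν₂ {w | u < w} := by
      rw [← hUm, Measure.map_apply hU hmsI]
      rfl
    by_cases hu : u ∈ core ν₂
    · set s := S ν₁ ν₂ u with hsdef
      -- bathtub
      have hb : ∫ ω in {ω | u < U ω}, (V ω - s) ∂P ≤ ∫ w in {w | u < w}, (S ν₁ ν₂ w - s) ∂ν₂ := by
        have e1 : ∫ ω in {ω | u < U ω}, (V ω - s) ∂P ≤ ∫ ω, max (V ω - s) 0 ∂P := by
          have hi : Integrable (fun ω => V ω - s) P := hVi.sub (integrable_const _)
          have hi' : Integrable (fun ω => max (V ω - s) 0) P := hi.pos_part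
          calc ∫ ω in {ω | u < U ω}, (V ω - s) ∂P
              ≤ ∫ ω in {ω | u < U ω}, max (V ω - s) 0 ∂P :=
                integral_mono hi.integrableOn hi'.integrableOn (fun ω => le_max_left _ _)
            _ ≤ ∫ ω, max (V ω - s) 0 ∂P :=
                setIntegral_le_integral hi' (Eventually.of_forall fun ω => le_max_right _ _)
        have e2 : ∫ ω, max (V ω - s) 0 ∂P = ∫ w, max (S ν₁ ν₂ w - s) 0 ∂ν₂ := by
          have a1 : ∫ ω, max (V ω - s) 0 ∂P = ∫ v, max (v - s) 0 ∂ν₁ := by
            rw [← hVm, integral_map hV.aemeasurable (by fun_prop)]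
          have a2 : ∫ w, max (S ν₁ ν₂ w - s) 0 ∂ν₂ = ∫ v, max (v - s) 0 ∂ν₁ := by
            conv_rhs => rw [← hmap]
            rw [integral_map hSm.aemeasurable (by fun_prop)]
          rw [a1, a2]
        have e3 : ∫ w, max (S ν₁ ν₂ w - s) 0 ∂ν₂ = ∫ w in {w | u < w}, (S ν₁ ν₂ w - s) ∂ν₂ := by
          rw [← integral_indicator hmsI]
          refine integral_congr_ae ?_
          filter_upwards [ae_S_lt_iff ν₁ ν₂ hs hu] with w hw
          by_cases hlt : u < w
          · have h3 : s < S ν₁ ν₂ w := hw.2 hlt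
            rw [indicator_of_mem (show w ∈ {w : ℝ | u < w} from hlt)]
            exact max_eq_left (by linarith)
          · have h3 : ¬ s < S ν₁ ν₂ w := fun h => hlt (hw.1 h)
            rw [indicator_of_notMem (show w ∉ {w : ℝ | u < w} from hlt)]
            exact max_eq_right (by linarith [not_lt.1 h3])
        rw [← e3, ← e2]
        exact e1
      rw [integral_sub hVi.integrableOn (integrable_const _),
        integral_sub hSi.integrableOn (integrable_const _)] at hb
      rw [integral_const, integral_const, smul_eq_mul, smul_eq_mul, measureReal_def,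
        measureReal_def, Measure.restrict_apply MeasurableSet.univ,
        Measure.restrict_apply MeasurableSet.univ, univ_inter, univ_inter, hmeasU] at hb
      linarith
    · -- outside the core both sides are trivial
      have hcase : cdf ν₂ u = 0 ∨ cdf ν₂ u = 1 := by
        by_contra hc
        rw [not_or] at hc
        exact hu ⟨lt_of_le_of_ne (cdf_nonneg _ _) (Ne.symm hc.1), lt_of_le_of_ne (cdf_le_one _ _) hc.2⟩
      rcases hcase with h0 | h0
      · have hz : ν₂ (Iic u) = 0 := by rw [← ofReal_cdf ν₂ u, h0]; simp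
        have hae2 : ∀ᵐ w ∂ν₂, w ∈ {w : ℝ | u < w} := by
          rw [ae_iff]
          convert hz using 2
          ext w; simp
        have hae1 : ∀ᵐ ω ∂P, ω ∈ {ω | u < U ω} := by
          rw [← hUm] at hae2
          exact ae_of_ae_map hU.aemeasurable hae2
        have e1 : P.restrict {ω | u < U ω} = P := Measure.restrict_eq_self_of_ae_mem hae1
        have e2 : ν₂.restrict {w : ℝ | u < w} = ν₂ := Measure.restrict_eq_self_of_ae_mem hae2
        rw [e1, e2, hEV]
      · have hz : ν₂ {w : ℝ | u < w} = 0 := by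
          have h3 : ν₂ (Iic u) = 1 := by rw [← ofReal_cdf ν₂ u, h0]; simp
          have h4 : {w : ℝ | u < w} = (Iic u)ᶜ := by ext w; simp
          rw [h4, prob_compl_eq_zero_iff measurableSet_Iic, h3]
        have hz' : P {ω | u < U ω} = 0 := by rw [hmeasU, hz]
        rw [setIntegral_measure_zero _ hz', setIntegral_measure_zero _ hz]
  linarith

end Pool.Agent.MP_ec2ab1_pr
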