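import Pool.Agent.Lib.MP_ec2ab1_pr.Pattern

set_option autoImplicit false
set_option linter.unusedSectionVars false
open MeasureTheory ProbabilityTheory Set Filter Topology

namespace Pool.Agent.MP_ec2ab1_pr

lemma gauss_density : gaussianReal 0 1 = volume.withDensity (fun x => ENNReal.ofReal (ph x)) := by
  rw [gaussianReal_of_var_ne_zero 0 one_ne_zero]
  rfl

lemma integrable_of_quad {P : Measure ℝ} [IsFiniteMeasure P] (hP : MemLp (fun x : ℝ => x) 2 P)
    {F : ℝ → ℝ} (hF : Measurable F) {C a : ℝ} (hC : ∀ y, |F y| ≤ C * (1 + (y - a) ^ 2)) :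
    Integrable F P := by
  have h1 : MemLp (fun x : ℝ => x - a) 2 P := hP.sub (memLp_const a)
  have h2 : Integrable (fun x : ℝ => C * (1 + (x - a) ^ 2)) P :=
    ((integrable_const _).add h1.integrable_sq).const_mul C
  exact Integrable.mono' h2 hF.aestronglyMeasurable (Eventually.of_forall fun y => by
    rw [Real.norm_eq_abs]; exact hC y)

section
variable {μ : Measure ℝ} [IsProbabilityMeasure μ] {f : ℝ → ℝ}

/-- integrals against the difference of the centred density and the gaussian density -/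
lemma int_F_d (hf : Measurable f) (hf0 : ∀ x, 0 ≤ f x)
    (hd : μ = volume.withDensity (fun x => ENNReal.ofReal (f x)))
    (hμ : MemLp (fun x : ℝ => x) 2 μ) (m : ℝ) {F : ℝ → ℝ} (hF : Measurable F) {C : ℝ}
    (hC : ∀ y, |F y| ≤ C * (1 + y ^ 2)) :
    Integrable (fun y => F y * (f (y + m) - ph y)) ∧
    ∫ y, F y * (f (y + m) - ph y) = (∫ y, F (y - m) ∂μ) - ∫ z, F z ∂(gaussianReal 0 1) := by
  have i1 : Integrable (fun y => F (y - m)) μ :=
    integrable_of_quad hμ (hF.comp (measurable_sub_const m)) (C := C) (a := m) (fun y => hC (y - m))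
  have i1' := (integrable_density hf hf0 hd).1 i1
  have i1'' := i1'.comp_add_right m
  have e1 : (fun y => f (y + m) * F (y + m - m)) = fun y => F y * f (y + m) := by
    funext y
    rw [add_sub_cancel_right, mul_comm]
  have j1 : Integrable (fun y => F y * f (y + m)) := by
    rw [← e1]; exact i1''
  have i2 : Integrable F (gaussianReal 0 1) :=
    integrable_of_quad memLp_gauss hF (C := C) (a := 0) (fun y => by simpa using hC y)
  have i2' := (integrable_density measurable_ph (fun x => (ph_pos x).le) gauss_density).1 i2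
  have j2 : Integrable (fun y => F y * ph y) := by
    refine i2'.congr (Eventually.of_forall fun y => ?_)
    show ph y * F y = F y * ph y
    ring
  have e : (fun y => F y * (f (y + m) - ph y)) = fun y => F y * f (y + m) - F y * ph y := by
    funext y; ring
  refine ⟨by rw [e]; exact j1.sub j2, ?_⟩
  rw [e, integral_sub j1 j2]
  congr 1
  · rw [integral_density hf hf0 hd,
      ← integral_add_right_eq_self (fun y => f y * F (y - m)) m, ← e1]
  · rw [integral_gaussian]
    refine integral_congr_ae (Eventually.of_forall fun y => ?_)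
    show F y * ph y = ph y * F y
    ring

lemma moments_d (hf : Measurable f) (hf0 : ∀ x, 0 ≤ f x)
    (hd : μ = volume.withDensity (fun x => ENNReal.ofReal (f x)))
    (hμ : MemLp (fun x : ℝ => x) 2 μ) (hvar : variance (fun x : ℝ => x) μ = 1) {m : ℝ}
    (hm : m = ∫ x, x ∂μ) :
    (Integrable (fun y => f (y + m) - ph y) ∧ ∫ y, (f (y + m) - ph y) = 0) ∧
    (Integrable (fun y => y * (f (y + m) - ph y)) ∧ ∫ y, y * (f (y + m) - ph y) = 0) ∧
    (Integrable (fun y => y ^ 2 * (f (y + m) - ph y)) ∧ ∫ y, y ^ 2 * (f (y + m) - ph y) = 0) := by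
  have hi : Integrable (fun x : ℝ => x) μ := hμ.integrable (by norm_num)
  obtain ⟨a0, b0⟩ := int_F_d hf hf0 hd hμ m (F := fun _ => 1) measurable_const (C := 1)
    (fun y => by
      rw [abs_one]
      nlinarith [sq_nonneg y])
  obtain ⟨a1, b1⟩ := int_F_d hf hf0 hd hμ m (F := fun y => y) measurable_id' (C := 1)
    (fun y => by
      rw [abs_le]
      constructor <;> nlinarith [sq_nonneg (y - 1), sq_nonneg (y + 1)])
  obtain ⟨a2, b2⟩ := int_F_d hf hf0 hd hμ m (F := fun y => y ^ 2) (by fun_prop) (C := 1)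
    (fun y => by
      rw [abs_of_nonneg (sq_nonneg y)]
      linarith)
  have c0 : ∫ _y : ℝ, (1:ℝ) ∂μ = 1 := by simp
  have c1 : ∫ y : ℝ, (y - m) ∂μ = 0 := by
    rw [integral_sub hi (integrable_const _), ← hm]; simp
  have c2 : ∫ y : ℝ, (y - m) ^ 2 ∂μ = 1 := by
    rw [← hvar, variance_eq_integral hμ.aestronglyMeasurable.aemeasurable, ← hm]
  have g0 : ∫ _y : ℝ, (1:ℝ) ∂(gaussianReal 0 1) = 1 := by simp
  have g1 : ∫ y : ℝ, y ∂(gaussianReal 0 1) = 0 := integral_id_gaussianReal
  have g2 : ∫ y : ℝ, y ^ 2 ∂(gaussianReal 0 1) = 1 := by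
    have h := variance_id_gaussianReal (μ := 0) (v := 1)
    rw [variance_eq_integral measurable_id.aemeasurable] at h
    simp only [id_eq, g1, sub_zero, NNReal.coe_one] at h
    exact h
  refine ⟨⟨?_, ?_⟩, ⟨a1, ?_⟩, ⟨a2, ?_⟩⟩
  · refine a0.congr (Eventually.of_forall fun y => ?_)
    show 1 * _ = _
    ring
  · have : ∫ y, (f (y + m) - ph y) = ∫ y, (1:ℝ) * (f (y + m) - ph y) := by simp
    rw [this, b0, c0, g0]; ring
  · rw [b1, c1, g1]; ring
  · rw [b2, c2, g2]; ring

lemma Kf_cont : Continuous (Kf μ) :=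
  continuous_iff_continuousAt.2 fun v => (hasDerivAt_Kf μ v).continuousAt

/-- quadratic growth of translates of `K` -/
lemma Kf_shift_bound (hμ : MemLp (fun x : ℝ => x) 2 μ) (x : ℝ) :
    ∃ C : ℝ, ∀ y : ℝ, |Kf μ (x + y)| ≤ C * (1 + y ^ 2) := by
  obtain ⟨C, hC0, hC⟩ := Kf_bound μ hμ
  refine ⟨C * (2 + 2 * x ^ 2), fun y => (hC (x + y)).trans ?_⟩
  have h1 : 1 + (x + y) ^ 2 ≤ (2 + 2 * x ^ 2) * (1 + y ^ 2) := by
    nlinarith [sq_nonneg (x - y), sq_nonneg (x * y), sq_nonneg x, sq_nonneg y]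
  calc C * (1 + (x + y) ^ 2) ≤ C * ((2 + 2 * x ^ 2) * (1 + y ^ 2)) :=
        mul_le_mul_of_nonneg_left h1 hC0
    _ = _ := by ring

/-- the conclusion in the asymmetric case, for a fixed translate -/
lemma pointwise_of_pattern (hf : Measurable f) (hf0 : ∀ x, 0 ≤ f x)
    (hd : μ = volume.withDensity (fun x => ENNReal.ofReal (f x)))
    (hμ : MemLp (fun x : ℝ => x) 2 μ) (hvar : variance (fun x : ℝ => x) μ = 1) {m : ℝ}
    (hm : m = ∫ x, x ∂μ) (hK : ConvexOn ℝ univ (K1 μ))
    (hpat : (∀ᵐ y, f (y + m) - ph y = 0) ∨ ∃ x1 x2 x3, x1 < x2 ∧ x2 < x3 ∧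
      ∀ y, 0 ≤ (f (y + m) - ph y) * ((y - x1) * (y - x2) * (y - x3))) (x : ℝ) :
    ∫ z, Kf μ (x + z) ∂(gaussianReal 0 1) ≤ ∫ y, Kf μ (x + (y - m)) ∂μ := by
  obtain ⟨C, hC⟩ := Kf_shift_bound hμ x
  have hmeas : Measurable (fun y => Kf μ (x + y)) := (Kf_cont.comp (continuous_const_add x)).measurable
  obtain ⟨iF, eF⟩ := int_F_d hf hf0 hd hμ m hmeas hC
  obtain ⟨⟨i0, z0⟩, ⟨i1, z1⟩, ⟨i2, z2⟩⟩ := moments_d hf hf0 hd hμ hvar hm
  suffices h : 0 ≤ ∫ y, Kf μ (x + y) * (f (y + m) - ph y) by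
    rw [eF] at h
    linarith
  rcases hpat with h0 | ⟨x1, x2, x3, h12, h23, hp⟩
  · have : ∫ y, Kf μ (x + y) * (f (y + m) - ph y) = 0 := by
      rw [← integral_zero ℝ ℝ (μ := volume)]
      refine integral_congr_ae ?_
      filter_upwards [h0] with y hy
      rw [hy, mul_zero]
    rw [this]
  · have hder : ∀ y, HasDerivAt (fun y => Kf μ (x + y)) (K1 μ (x + y)) y := fun y =>
      (hasDerivAt_Kf μ (x + y)).comp_const_add x y
    have hcx : ConvexOn ℝ univ (fun y => K1 μ (x + y)) := by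
      refine ⟨convex_univ, ?_⟩
      intro a _ b _ u v hu hv huv
      have h := hK.2 (mem_univ (x + a)) (mem_univ (x + b)) hu hv huv
      have e : u • (x + a) + v • (x + b) = x + (u • a + v • b) := by
        simp only [smul_eq_mul]
        have : v = 1 - u := by linarith
        rw [this]; ring
      rw [e] at h
      exact h
    obtain ⟨α, β, γ, hq⟩ := interpA hder hcx h12 h23
    obtain ⟨q1, q2⟩ := quad_int i0 i1 i2 α β γ
    rw [z0, z1, z2] at q2
    have key : 0 ≤ ∫ y, (Kf μ (x + y) * (f (y + m) - ph y)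
        - (α + β * y + γ * y ^ 2) * (f (y + m) - ph y)) := by
      apply integral_nonneg_of_ae
      have hT : ∀ᵐ y : ℝ, y ∉ ({x1, x2, x3} : Set ℝ) := by
        have : volume ({x1, x2, x3} : Set ℝ) = 0 := (Set.toFinite _).measure_zero volume
        rw [← compl_compl ({x1, x2, x3} : Set ℝ)] at this
        exact this
      filter_upwards [hT] with y hy
      show 0 ≤ Kf μ (x + y) * (f (y + m) - ph y) - (α + β * y + γ * y ^ 2) * (f (y + m) - ph y)
      simp only [mem_insert_iff, mem_singleton_iff, not_or] at hy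
      obtain ⟨n1, n2, n3⟩ := hy
      have hne : (y - x1) * (y - x2) * (y - x3) ≠ 0 :=
        mul_ne_zero (mul_ne_zero (sub_ne_zero.2 n1) (sub_ne_zero.2 n2)) (sub_ne_zero.2 n3)
      have hsq : 0 < ((y - x1) * (y - x2) * (y - x3)) ^ 2 := by positivity
      have hprod := mul_nonneg (hq y) (hp y)
      have e : (Kf μ (x + y) - (α + β * y + γ * y ^ 2)) * ((y - x1) * (y - x2) * (y - x3)) *
          ((f (y + m) - ph y) * ((y - x1) * (y - x2) * (y - x3)))
          = (Kf μ (x + y) * (f (y + m) - ph y) - (α + β * y + γ * y ^ 2) * (f (y + m) - ph y))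
            * ((y - x1) * (y - x2) * (y - x3)) ^ 2 := by ring
      rw [e] at hprod
      exact nonneg_of_mul_nonneg_left hprod hsq
    rw [integral_sub iF q1, q2] at key
    linarith

end

end Pool.Agent.MP_ec2ab1_pr
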