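import Pool.Agent.Lib.MP_ec2ab1_pr.Conv

set_option autoImplicit false
set_option linter.unusedSectionVars false
open MeasureTheory ProbabilityTheory Set Filter Topology

namespace Pool.Agent.MP_ec2ab1_pr

/-- a signed product with vanishing integral vanishes -/
lemma kill {S : Set ℝ} (hS : MeasurableSet S) {p d : ℝ → ℝ}
    (hi : IntegrableOn (fun y => p y * d y) S) (h0 : ∫ y in S, p y * d y = 0)
    (hs : ∀ y ∈ S, 0 ≤ p y * d y) {T : Set ℝ} (hT : volume T = 0)
    (hz : ∀ y ∈ S, p y = 0 → y ∈ T) : ∀ᵐ y ∂(volume.restrict S), d y = 0 := by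
  have h1 := ae_zero_of_signed hS (D := fun y => p y * d y) hi h0 hs
  have h2 : ∀ᵐ y ∂(volume.restrict S), y ∉ T := by
    apply ae_restrict_of_ae
    rw [← compl_compl T] at hT
    exact hT
  filter_upwards [h1, h2, ae_restrict_mem hS] with y hy1 hy2 hy3
  rcases mul_eq_zero.1 hy1 with h | h
  · exact absurd (hz y hy3 h) hy2
  · exact h

/-- at most one sign change and two moment conditions -/
lemma two_sign {S : Set ℝ} (hS : MeasurableSet S) {ψ d : ℝ → ℝ} (hψ : StrictMonoOn ψ S)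
    (i0 : IntegrableOn d S) (i1 : IntegrableOn (fun y => ψ y * d y) S)
    (z0 : ∫ y in S, d y = 0) (z1 : ∫ y in S, ψ y * d y = 0)
    (H1 : ∀ y0 ∈ S, ∀ y1 ∈ S, ∀ y2 ∈ S, y0 < y1 → y1 < y2 → d y0 < 0 → 0 < d y1 → d y2 < 0 → False)
    (H2 : ∀ y0 ∈ S, ∀ y1 ∈ S, ∀ y2 ∈ S, y0 < y1 → y1 < y2 → 0 < d y0 → d y1 < 0 → 0 < d y2 → False) :
    ∀ᵐ y ∂(volume.restrict S), d y = 0 := by
  have fin : ∀ c : ℝ, (∀ y ∈ S, 0 ≤ (ψ y - c) * d y) → ∀ᵐ y ∂(volume.restrict S), d y = 0 := by
    intro c hc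
    have e : (fun y => (ψ y - c) * d y) = fun y => ψ y * d y - c * d y := by funext y; ring
    have hT : volume {y | y ∈ S ∧ ψ y = c} = 0 := by
      have : ({y | y ∈ S ∧ ψ y = c} : Set ℝ).Subsingleton := by
        rintro a ⟨ha, ha'⟩ b ⟨hb, hb'⟩
        exact hψ.injOn ha hb (ha'.trans hb'.symm)
      exact this.measure_zero volume
    refine kill hS (p := fun y => ψ y - c) (d := d) ?_ ?_ hc hT ?_
    · rw [e]; exact i1.sub (i0.const_mul c)
    · rw [e, integral_sub i1 (i0.const_mul c), integral_const_mul, z0, z1]; simp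
    · intro y hy hy0
      exact ⟨hy, by have : ψ y - c = 0 := hy0; linarith⟩
  by_cases hN : ∃ n ∈ S, d n < 0
  · by_cases hP : ∃ p ∈ S, 0 < d p
    · obtain ⟨n0, hn0, hn0'⟩ := hN
      obtain ⟨p0, hp0, hp0'⟩ := hP
      rcases lt_trichotomy n0 p0 with h | h | h
      · obtain ⟨c, hc⟩ := exists_threshold hψ.monotoneOn (D := d) (by
          intro t ht t1 ht1 htt h1
          by_contra hcon
          push Not at hcon
          rcases lt_trichotomy n0 t with a | a | a
          · exact H1 n0 hn0 t ht t1 ht1 a htt hn0' hcon h1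
          · rw [a] at hn0'; linarith
          · exact H2 t ht n0 hn0 p0 hp0 a h hcon hn0' hp0') ⟨n0, hn0, hn0'⟩ ⟨p0, hp0, hp0'⟩
        exact fin c hc
      · rw [h] at hn0'; linarith
      · obtain ⟨c, hc⟩ := exists_threshold hψ.monotoneOn (D := fun y => - d y) (by
          intro t ht t1 ht1 htt h1
          by_contra hcon
          push Not at hcon
          have h1' : 0 < d t1 := by linarith
          have hcon' : d t < 0 := by linarith
          rcases lt_trichotomy p0 t with a | a | a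
          · exact H2 p0 hp0 t ht t1 ht1 a htt hp0' hcon' h1'
          · rw [a] at hp0'; linarith
          · exact H1 t ht p0 hp0 n0 hn0 a h hcon' hp0' hn0')
          ⟨p0, hp0, by linarith⟩ ⟨n0, hn0, by linarith⟩
        have hint : ∫ y in S, (ψ y - c) * (- d y) = 0 := by
          have e : (fun y => (ψ y - c) * (- d y)) = fun y => c * d y - ψ y * d y := by
            funext y; ring
          rw [e, integral_sub (i0.const_mul c) i1, integral_const_mul, z0, z1]; simp
        have hT : volume {y | y ∈ S ∧ ψ y = c} = 0 := by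
          have : ({y | y ∈ S ∧ ψ y = c} : Set ℝ).Subsingleton := by
            rintro a ⟨ha, ha'⟩ b ⟨hb, hb'⟩
            exact hψ.injOn ha hb (ha'.trans hb'.symm)
          exact this.measure_zero volume
        have hk := kill hS (p := fun y => ψ y - c) (d := fun y => - d y) (by
          have e : (fun y => (ψ y - c) * (- d y)) = fun y => c * d y - ψ y * d y := by
            funext y; ring
          rw [e]; exact (i0.const_mul c).sub i1) hint hc hT (by
          intro y hy hy0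
          exact ⟨hy, by have : ψ y - c = 0 := hy0; linarith⟩)
        filter_upwards [hk] with y hy
        linarith
    · push Not at hP
      have h3 := ae_zero_of_signed hS (D := fun t => - d t) i0.neg (by
        rw [integral_neg, z0, neg_zero]) (fun t ht => by
          have := hP t ht
          show 0 ≤ - d t
          linarith)
      filter_upwards [h3] with y hy
      linarith
  · push Not at hN
    exact ae_zero_of_signed hS i0 z0 hN

lemma quad_int {d : ℝ → ℝ} (i0 : Integrable d) (i1 : Integrable (fun y => y * d y))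
    (i2 : Integrable (fun y => y ^ 2 * d y)) (α β γ : ℝ) :
    Integrable (fun y => (α + β * y + γ * y ^ 2) * d y) ∧
    ∫ y, (α + β * y + γ * y ^ 2) * d y
      = α * (∫ y, d y) + β * (∫ y, y * d y) + γ * ∫ y, y ^ 2 * d y := by
  have e : (fun y => (α + β * y + γ * y ^ 2) * d y)
      = fun y => (α * d y + β * (y * d y)) + γ * (y ^ 2 * d y) := by funext y; ring
  have i01 : Integrable (fun y => α * d y + β * (y * d y)) := (i0.const_mul α).add (i1.const_mul β)
  constructor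
  · rw [e]; exact i01.add (i2.const_mul γ)
  · rw [e, integral_add i01 (i2.const_mul γ), integral_add (i0.const_mul α) (i1.const_mul β),
      integral_const_mul, integral_const_mul, integral_const_mul]

/-- exactly the pattern `(-,+,-)` kills the function -/
lemma mid_kill {d : ℝ → ℝ} (i0 : Integrable d) (i1 : Integrable (fun y => y * d y))
    (i2 : Integrable (fun y => y ^ 2 * d y)) (z0 : ∫ y, d y = 0) (z1 : ∫ y, y * d y = 0)
    (z2 : ∫ y, y ^ 2 * d y = 0)
    (H : ∀ y0 y1 y2 y3, y0 < y1 → y1 < y2 → y2 < y3 → 0 < d y0 → d y1 < 0 → 0 < d y2 → d y3 < 0 →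
      False)
    (H' : ∀ y0 y1 y2 y3, y0 < y1 → y1 < y2 → y2 < y3 → d y0 < 0 → 0 < d y1 → d y2 < 0 → 0 < d y3 →
      False)
    {y0 y1 y2 : ℝ} (h01 : y0 < y1) (h12 : y1 < y2) (s0 : d y0 < 0) (s1 : 0 < d y1)
    (s2 : d y2 < 0) : ∀ᵐ y, d y = 0 := by
  set P : Set ℝ := {y | 0 < d y} with hP
  have hlow : ∀ z ∈ P, y0 < z := by
    intro z hz
    by_contra hc
    push Not at hc
    rcases eq_or_lt_of_le hc with h | h
    · have hz' : 0 < d z := hz
      rw [h] at hz'; linarith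
    · exact H z y0 y1 y2 h h01 h12 hz s0 s1 s2
  have hup : ∀ z ∈ P, z < y2 := by
    intro z hz
    by_contra hc
    push Not at hc
    rcases eq_or_lt_of_le hc with h | h
    · have hz' : 0 < d z := hz
      rw [← h] at hz'; linarith
    · exact H' y0 y1 y2 z h01 h12 h s0 s1 s2 hz
  have hne : P.Nonempty := ⟨y1, s1⟩
  have hb : BddBelow P := ⟨y0, fun z hz => (hlow z hz).le⟩
  have ha : BddAbove P := ⟨y2, fun z hz => (hup z hz).le⟩
  set a := sInf P
  set b := sSup P
  have hs : ∀ y ∈ (univ : Set ℝ), 0 ≤ ((y - a) * (b - y)) * d y := by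
    intro y _
    rcases lt_trichotomy y a with h | h | h
    · have hy : y ∉ P := fun hy => absurd (csInf_le hb hy) (not_le.2 h)
      have hy' : d y ≤ 0 := not_lt.1 hy
      have hab : a ≤ b := csInf_le_csSup hne hb ha
      exact mul_nonneg_of_nonpos_of_nonpos
        (mul_nonpos_of_nonpos_of_nonneg (by linarith) (by linarith)) hy'
    · rw [h]; simp
    · rcases lt_trichotomy y b with h2 | h2 | h2
      · obtain ⟨p, hp, hpy⟩ := exists_lt_of_csInf_lt hne h
        obtain ⟨q, hq, hqy⟩ := exists_lt_of_lt_csSup hne h2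
        have : 0 ≤ d y := by
          by_contra hc
          push Not at hc
          exact H' y0 p y q (hlow p hp) hpy hqy s0 hp hc hq
        exact mul_nonneg (mul_nonneg (by linarith) (by linarith)) this
      · rw [h2]; simp
      · have hy : y ∉ P := fun hy => absurd (le_csSup ha hy) (not_le.2 h2)
        have hy' : d y ≤ 0 := not_lt.1 hy
        exact mul_nonneg_of_nonpos_of_nonpos
          (mul_nonpos_of_nonneg_of_nonpos (by linarith) (by linarith)) hy'
  obtain ⟨q1, q2⟩ := quad_int i0 i1 i2 (-(a * b)) (a + b) (-1)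
  have e : (fun y => (-(a * b) + (a + b) * y + (-1) * y ^ 2) * d y)
      = fun y => ((y - a) * (b - y)) * d y := by funext y; ring
  rw [e] at q1 q2
  have hk := kill MeasurableSet.univ (p := fun y => (y - a) * (b - y)) (d := d) q1.integrableOn (by
    rw [setIntegral_univ, q2, z0, z1, z2]; simp) hs (T := {a, b}) (by
      exact (Set.toFinite _).measure_zero volume) (by
      intro y _ hy
      rcases mul_eq_zero.1 hy with h | h
      · left; linarith
      · right; show y = b; linarith)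
  rwa [Measure.restrict_univ] at hk

/-- orthogonality to quadratics forces the pattern `(-,+,-,+)` if `(+,-,+,-)` is forbidden -/
lemma alt4 {d : ℝ → ℝ} (i0 : Integrable d) (i1 : Integrable (fun y => y * d y))
    (i2 : Integrable (fun y => y ^ 2 * d y)) (z0 : ∫ y, d y = 0) (z1 : ∫ y, y * d y = 0)
    (z2 : ∫ y, y ^ 2 * d y = 0)
    (H : ∀ y0 y1 y2 y3, y0 < y1 → y1 < y2 → y2 < y3 → 0 < d y0 → d y1 < 0 → 0 < d y2 → d y3 < 0 →
      False)
    (hne : ¬ ∀ᵐ y, d y = 0) :
    ∃ y0 y1 y2 y3, y0 < y1 ∧ y1 < y2 ∧ y2 < y3 ∧ d y0 < 0 ∧ 0 < d y1 ∧ d y2 < 0 ∧ 0 < d y3 := by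
  by_contra hcon
  apply hne
  have H' : ∀ y0 y1 y2 y3, y0 < y1 → y1 < y2 → y2 < y3 → d y0 < 0 → 0 < d y1 → d y2 < 0 →
      0 < d y3 → False := by
    intro y0 y1 y2 y3 a b c e f g h
    exact hcon ⟨y0, y1, y2, y3, a, b, c, e, f, g, h⟩
  by_cases c1 : ∃ y0 y1 y2, y0 < y1 ∧ y1 < y2 ∧ d y0 < 0 ∧ 0 < d y1 ∧ d y2 < 0
  · obtain ⟨y0, y1, y2, a, b, s0, s1, s2⟩ := c1
    exact mid_kill i0 i1 i2 z0 z1 z2 H H' a b s0 s1 s2
  by_cases c2 : ∃ y0 y1 y2, y0 < y1 ∧ y1 < y2 ∧ 0 < d y0 ∧ d y1 < 0 ∧ 0 < d y2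
  · obtain ⟨y0, y1, y2, a, b, s0, s1, s2⟩ := c2
    have n1 : (fun y => y * -d y) = fun y => - (y * d y) := by funext y; ring
    have n2 : (fun y => y ^ 2 * -d y) = fun y => - (y ^ 2 * d y) := by funext y; ring
    have := mid_kill (d := fun y => - d y) i0.neg (by rw [n1]; exact i1.neg)
      (by rw [n2]; exact i2.neg) (by rw [integral_neg, z0, neg_zero])
      (by rw [n1, integral_neg, z1, neg_zero]) (by rw [n2, integral_neg, z2, neg_zero])
      (fun y0 y1 y2 y3 a b c e f g h => H' y0 y1 y2 y3 a b c (by linarith) (by linarith)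
        (by linarith) (by linarith))
      (fun y0 y1 y2 y3 a b c e f g h => H y0 y1 y2 y3 a b c (by linarith) (by linarith)
        (by linarith) (by linarith)) a b (by linarith) (by linarith) (by linarith)
    filter_upwards [this] with y hy
    linarith
  · have := two_sign (S := univ) MeasurableSet.univ (ψ := fun y => y) (d := d)
      (fun a _ b _ h => h) i0.integrableOn i1.integrableOn (by rw [setIntegral_univ, z0])
      (by rw [setIntegral_univ, z1])
      (fun y0 _ y1 _ y2 _ a b s0 s1 s2 => c1 ⟨y0, y1, y2, a, b, s0, s1, s2⟩)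
      (fun y0 _ y1 _ y2 _ a b s0 s1 s2 => c2 ⟨y0, y1, y2, a, b, s0, s1, s2⟩)
    rwa [Measure.restrict_univ] at this

/-- break points of the pattern `(-,+,-,+)` -/
lemma pattern4 {d : ℝ → ℝ}
    (H : ∀ y0 y1 y2 y3, y0 < y1 → y1 < y2 → y2 < y3 → 0 < d y0 → d y1 < 0 → 0 < d y2 → d y3 < 0 →
      False)
    (hc1 : ∀ y, 0 < d y → ∃ z < y, 0 < d z)
    (hc2 : ∀ y1 y, 0 < d y1 → y1 < y → d y < 0 → ∃ z, y < z ∧ d z < 0)
    {y0 y1 y2 y3 : ℝ} (h01 : y0 < y1) (h12 : y1 < y2) (h23 : y2 < y3) (s0 : d y0 < 0)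
    (s1 : 0 < d y1) (s2 : d y2 < 0) (s3 : 0 < d y3) :
    ∃ x1 x2 x3, x1 < x2 ∧ x2 < x3 ∧ ∀ y, 0 ≤ d y * ((y - x1) * (y - x2) * (y - x3)) := by
  set P : Set ℝ := {y | 0 < d y} with hP
  set N : Set ℝ := {y | d y < 0} with hN
  set R : Set ℝ := {y | y1 < y ∧ d y < 0} with hR
  have hPlow : ∀ z ∈ P, y0 ≤ z := by
    intro z hz
    by_contra hc
    push Not at hc
    exact H z y0 y1 y2 hc h01 h12 hz s0 s1 s2
  have hNup : ∀ z ∈ N, z ≤ y3 := by
    intro z hz
    by_contra hc
    push Not at hc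
    exact H y1 y2 y3 z h12 h23 hc s1 s2 s3 hz
  have hPne : P.Nonempty := ⟨y1, s1⟩
  have hNne : N.Nonempty := ⟨y2, s2⟩
  have hRne : R.Nonempty := ⟨y2, h12, s2⟩
  have hPb : BddBelow P := ⟨y0, hPlow⟩
  have hNb : BddAbove N := ⟨y3, hNup⟩
  have hRb : BddBelow R := ⟨y1, fun z hz => hz.1.le⟩
  set x1 := sInf P
  set x2 := sInf R
  set x3 := sSup N
  obtain ⟨z1, hz1, hz1'⟩ := hc1 y1 s1
  obtain ⟨z2, hz2, hz2'⟩ := hc2 y1 y2 s1 h12 s2
  have a1 : x1 < y1 := (csInf_le hPb hz1').trans_lt hz1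
  have a2 : y1 ≤ x2 := le_csInf hRne fun z hz => hz.1.le
  have a3 : x2 ≤ y2 := csInf_le hRb ⟨h12, s2⟩
  have a4 : y2 < x3 := hz2.trans_le (le_csSup hNb hz2')
  refine ⟨x1, x2, x3, a1.trans_le a2, a3.trans_lt a4, fun y => ?_⟩
  rcases lt_trichotomy y x1 with h | h | h
  · have hy : y ∉ P := fun hy => absurd (csInf_le hPb hy) (not_le.2 h)
    have hy' : d y ≤ 0 := not_lt.1 hy
    refine mul_nonneg_of_nonpos_of_nonpos hy' ?_
    exact mul_nonpos_of_nonneg_of_nonpos
      (mul_nonneg_of_nonpos_of_nonpos (by linarith) (by linarith)) (by linarith)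
  · rw [h]; simp
  rcases lt_trichotomy y x2 with h2 | h2 | h2
  · have hy' : 0 ≤ d y := by
      by_contra hc
      push Not at hc
      rcases le_or_gt y y1 with h3 | h3
      · obtain ⟨p, hp, hpy⟩ := exists_lt_of_csInf_lt hPne h
        rcases eq_or_lt_of_le h3 with h4 | h4
        · rw [h4] at hc; linarith
        · exact H p y y1 y2 hpy h4 h12 hp hc s1 s2
      · exact absurd (csInf_le hRb ⟨h3, hc⟩) (not_le.2 h2)
    refine mul_nonneg hy' ?_
    exact mul_nonneg_of_nonpos_of_nonpos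
      (mul_nonpos_of_nonneg_of_nonpos (by linarith) (by linarith)) (by linarith)
  · rw [h2]; simp
  rcases lt_trichotomy y x3 with h3 | h3 | h3
  · have hy' : d y ≤ 0 := by
      by_contra hc
      push Not at hc
      obtain ⟨r, hr, hry⟩ := exists_lt_of_csInf_lt hRne h2
      obtain ⟨n, hn, hny⟩ := exists_lt_of_lt_csSup hNne h3
      exact H y1 r y n hr.1 hry hny s1 hr.2 hc hn
    refine mul_nonneg_of_nonpos_of_nonpos hy' ?_
    exact mul_nonpos_of_nonneg_of_nonpos
      (mul_nonneg (by linarith) (by linarith)) (by linarith)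
  · rw [h3]; simp
  · have hy : y ∉ N := fun hy => absurd (le_csSup hNb hy) (not_le.2 h3)
    have hy' : 0 ≤ d y := not_lt.1 hy
    exact mul_nonneg hy' (mul_nonneg (mul_nonneg (by linarith) (by linarith)) (by linarith))

/-- the even case: orthogonality to `1` and `y²` on the half line -/
lemma pattern3 {d : ℝ → ℝ} (i0 : IntegrableOn d (Ioi 0))
    (i2 : IntegrableOn (fun y => y ^ 2 * d y) (Ioi 0)) (z0 : ∫ y in Ioi (0:ℝ), d y = 0)
    (z2 : ∫ y in Ioi (0:ℝ), y ^ 2 * d y = 0)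
    (H : ∀ y0 y1 y2, 0 < y0 → y0 < y1 → y1 < y2 → 0 < d y0 → d y1 < 0 → 0 < d y2 → False)
    (hc : ∀ y, 0 < y → 0 < d y → ∃ z, 0 < z ∧ z < y ∧ 0 < d z)
    (hne : ¬ ∀ᵐ y ∂(volume.restrict (Ioi (0:ℝ))), d y = 0) :
    ∃ x1 x2, 0 ≤ x1 ∧ x1 < x2 ∧ ∀ y, 0 < y → 0 ≤ d y * ((y - x1) * (x2 - y)) := by
  have hex : ∃ y0 y1 y2, 0 < y0 ∧ y0 < y1 ∧ y1 < y2 ∧ d y0 < 0 ∧ 0 < d y1 ∧ d y2 < 0 := by
    by_contra hcon
    apply hne
    refine two_sign (S := Ioi (0:ℝ)) measurableSet_Ioi (ψ := fun y => y ^ 2) (d := d) ?_ i0 i2 z0 z2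
      ?_ ?_
    · intro a ha b hb hab
      have ha' : (0:ℝ) < a := ha
      show a ^ 2 < b ^ 2
      nlinarith
    · intro y0 h0 y1 _ y2 _ a b s0 s1 s2
      exact hcon ⟨y0, y1, y2, h0, a, b, s0, s1, s2⟩
    · intro y0 h0 y1 _ y2 _ a b s0 s1 s2
      exact H y0 y1 y2 h0 a b s0 s1 s2
  obtain ⟨y0, y1, y2, h0, h01, h12, s0, s1, s2⟩ := hex
  set P : Set ℝ := {y | 0 < y ∧ 0 < d y} with hP
  have hlow : ∀ z ∈ P, y0 ≤ z := by
    intro z hz
    by_contra hcc
    push Not at hcc
    exact H z y0 y1 hz.1 hcc h01 hz.2 s0 s1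
  have hup : ∀ z ∈ P, z ≤ y2 := by
    intro z hz
    by_contra hcc
    push Not at hcc
    exact H y1 y2 z (h0.trans h01) h12 hcc s1 s2 hz.2
  have hPne : P.Nonempty := ⟨y1, h0.trans h01, s1⟩
  have hPb : BddBelow P := ⟨y0, hlow⟩
  have hPa : BddAbove P := ⟨y2, hup⟩
  obtain ⟨z, hz0, hz1, hz2⟩ := hc y1 (h0.trans h01) s1
  have hlt : sInf P < sSup P :=
    ((csInf_le hPb ⟨hz0, hz2⟩).trans_lt hz1).trans_le (le_csSup hPa ⟨h0.trans h01, s1⟩)
  refine ⟨sInf P, sSup P, le_csInf hPne (fun z hz => hz.1.le), hlt, fun y hy => ?_⟩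
  rcases lt_trichotomy y (sInf P) with h | h | h
  · have hy' : y ∉ P := fun hy => absurd (csInf_le hPb hy) (not_le.2 h)
    have hy2 : d y ≤ 0 := by
      by_contra hcc
      push Not at hcc
      exact hy' ⟨hy, hcc⟩
    exact mul_nonneg_of_nonpos_of_nonpos hy2
      (mul_nonpos_of_nonpos_of_nonneg (by linarith) (by linarith))
  · rw [h]; simp
  rcases lt_trichotomy y (sSup P) with h2 | h2 | h2
  · obtain ⟨p, hp, hpy⟩ := exists_lt_of_csInf_lt hPne h
    obtain ⟨q, hq, hqy⟩ := exists_lt_of_lt_csSup hPne h2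
    have : 0 ≤ d y := by
      by_contra hcc
      push Not at hcc
      exact H p y q hp.1 hpy hqy hp.2 hcc hq.2
    exact mul_nonneg this (mul_nonneg (by linarith) (by linarith))
  · rw [h2]; simp
  · have hy' : y ∉ P := fun hy => absurd (le_csSup hPa hy) (not_le.2 h2)
    have hy2 : d y ≤ 0 := by
      by_contra hcc
      push Not at hcc
      exact hy' ⟨hy, hcc⟩
    exact mul_nonneg_of_nonpos_of_nonpos hy2
      (mul_nonpos_of_nonneg_of_nonpos (by linarith) (by linarith))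

end Pool.Agent.MP_ec2ab1_pr
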