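import Pool.Agent.Lib.MP_ec2ab1_pr.Bound

set_option autoImplicit false
set_option linter.unusedSectionVars false
open MeasureTheory ProbabilityTheory Set Filter Topology

namespace Pool.Agent.MP_ec2ab1_pr

section
variable {μ : Measure ℝ} [IsProbabilityMeasure μ] {Q : Measure ((ℝ × ℝ) × (ℝ × ℝ))}

/-- algebra of the affine inequality -/
lemma alg_bound {A B C D m M Vr : ℝ} (hM : M - m ^ 2 = 1)
    (hex : A + C = B + D) (hcs : Vr = 3 * M + 1 + m ^ 2 - 2 * (A + B + C + D))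
    (hineq : ∀ a : ℝ, a < 1 → 0 < a → (∃ b, a ≤ b ∧ b < 1 ∧
      b ^ 2 * A + b * B + b * C + D + ((1 - b) * m) * (b * m + 0 + (b * m + m))
        + ((1 - b ^ 2) * M - 2 * b * (1 - b) * m ^ 2) ≤ A + B + C + D)) :
    C + D ≤ 1 - 3 / 4 * Vr := by
  -- the affine function
  have hkey : 2 * A + B + C ≥ 2 + 3 * m ^ 2 := by
    by_contra hc
    have hc' : 0 < (2 + 3 * m ^ 2) - (2 * A + B + C) := by linarith [not_le.1 hc]
    set δ := (2 + 3 * m ^ 2) - (2 * A + B + C) with hδ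
    set K := |A| + 1 + m ^ 2 with hK
    have hKpos : 0 < K := by positivity
    -- choose a close to 1
    have hapos : ∃ a : ℝ, a < 1 ∧ 0 < a ∧ (1 - a) * K < δ := by
      refine ⟨max (1 / 2) (1 - δ / (2 * K)), ?_, ?_, ?_⟩
      · refine max_lt (by norm_num) ?_
        have : 0 < δ / (2 * K) := by positivity
        linarith
      · exact lt_of_lt_of_le (by norm_num) (le_max_left _ _)
      · have h1 : 1 - max (1 / 2) (1 - δ / (2 * K)) ≤ δ / (2 * K) := by
          have := le_max_right (1 / 2) (1 - δ / (2 * K))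
          linarith
        have h2 : (1 - max (1 / 2) (1 - δ / (2 * K))) * K ≤ δ / (2 * K) * K :=
          mul_le_mul_of_nonneg_right h1 hKpos.le
        have h3 : δ / (2 * K) * K = δ / 2 := by field_simp
        linarith
    obtain ⟨a, ha1, ha0, haδ⟩ := hapos
    obtain ⟨b, hab, hb1, hb⟩ := hineq a ha1 ha0
    have hb0 : 0 < b := lt_of_lt_of_le ha0 hab
    have hbK : (1 - b) * K < δ :=
      lt_of_le_of_lt (mul_le_mul_of_nonneg_right (by linarith) hKpos.le) haδ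
    have hMm : M = 1 + m ^ 2 := by linarith
    rw [hMm] at hb
    -- factor (1 - b)
    have hfac : (1 - b) * ((1 + b) * A + B + C - (1 + b) - m ^ 2 * (b + 2)) ≥ 0 := by
      have : (1 - b) * ((1 + b) * A + B + C - (1 + b) - m ^ 2 * (b + 2))
          = (A + B + C + D) - (b ^ 2 * A + b * B + b * C + D + ((1 - b) * m) * (b * m + 0 + (b * m + m))
        + ((1 - b ^ 2) * (1 + m ^ 2) - 2 * b * (1 - b) * m ^ 2)) := by ring
      rw [this]; linarith
    have hpos : 0 ≤ (1 + b) * A + B + C - (1 + b) - m ^ 2 * (b + 2) := by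
      by_contra hneg
      have := mul_neg_of_pos_of_neg (show 0 < 1 - b by linarith) (not_le.1 hneg)
      linarith
    have h4 : (1 - b) * (1 + m ^ 2 - A) ≤ (1 - b) * K := by
      refine mul_le_mul_of_nonneg_left ?_ (by linarith)
      have := neg_abs_le A
      rw [hK]; linarith
    have h5 : (1 + b) * A + B + C - (1 + b) - m ^ 2 * (b + 2)
        = -δ + (1 - b) * (1 + m ^ 2 - A) := by rw [hδ]; ring
    linarith
  linarith

lemma Glued.R_le_one (h : Glued μ Q) (hμ : MemLp (fun x : ℝ => x) 2 μ)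
    (hvar : variance (fun x : ℝ => x) μ = 1)
    [NullSingletonClass (lawU μ)]
    (hsd : ∀ a : ℝ, a < 1 → 0 < a → ∃ b, a ≤ b ∧ b < 1 ∧ ∃ ν : Measure ℝ,
      IsProbabilityMeasure ν ∧ Decomp μ ν b) :
    ∫ q, q.2.2 * (q.1.1 + q.1.2) ∂Q
      ≤ 1 - 3 / 4 * variance (fun q : (ℝ × ℝ) × (ℝ × ℝ) => (q.1.1 + q.1.2) - (q.2.1 + q.2.2)) Q := by
  have := h.prob
  set m := ∫ x, x ∂μ with hm
  set M := ∫ x, x ^ 2 ∂μ with hMdef
  have hM : M - m ^ 2 = 1 := by
    have h1 := variance_eq_sub hμ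
    rw [hvar] at h1
    simp only [Pi.pow_apply] at h1
    rw [hMdef, hm]
    exact h1.symm
  have Mx := memLp_of_map mx' h.map_x hμ
  have Mz := memLp_of_map mz' h.map_z memLp_gauss
  have Mx1 := memLp_of_map mx1 h.map_x1 hμ
  have My1 := memLp_of_map my1 h.map_y1 hμ
  have iA : Integrable (fun q : (ℝ × ℝ) × (ℝ × ℝ) => q.2.1 * q.1.1) Q := Mx.integrable_mul Mx1
  have iB : Integrable (fun q : (ℝ × ℝ) × (ℝ × ℝ) => q.2.1 * q.1.2) Q := Mx.integrable_mul My1
  have iC : Integrable (fun q : (ℝ × ℝ) × (ℝ × ℝ) => q.2.2 * q.1.1) Q := Mz.integrable_mul Mx1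
  have iD : Integrable (fun q : (ℝ × ℝ) × (ℝ × ℝ) => q.2.2 * q.1.2) Q := Mz.integrable_mul My1
  set A := ∫ q, q.2.1 * q.1.1 ∂Q with hA
  set B := ∫ q, q.2.1 * q.1.2 ∂Q with hB
  set C := ∫ q, q.2.2 * q.1.1 ∂Q with hC
  set D := ∫ q, q.2.2 * q.1.2 ∂Q with hD
  have expand : ∀ b : ℝ, ∫ q, (b * q.2.1 + q.2.2) * (b * q.1.1 + q.1.2) ∂Q
      = b ^ 2 * A + b * B + b * C + D := by
    intro b
    have e : (fun q : (ℝ × ℝ) × (ℝ × ℝ) => (b * q.2.1 + q.2.2) * (b * q.1.1 + q.1.2))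
        = fun q => ((b ^ 2 * (q.2.1 * q.1.1) + b * (q.2.1 * q.1.2)) + b * (q.2.2 * q.1.1))
          + q.2.2 * q.1.2 := by funext q; ring
    have i1 : Integrable (fun q : (ℝ × ℝ) × (ℝ × ℝ) =>
      b ^ 2 * (q.2.1 * q.1.1) + b * (q.2.1 * q.1.2)) Q := (iA.const_mul _).add (iB.const_mul _)
    have i2 : Integrable (fun q : (ℝ × ℝ) × (ℝ × ℝ) =>
      (b ^ 2 * (q.2.1 * q.1.1) + b * (q.2.1 * q.1.2)) + b * (q.2.2 * q.1.1)) Q :=
      i1.add (iC.const_mul _)
    rw [e, integral_add i2 iD, integral_add i1 (iC.const_mul _),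
      integral_add (iA.const_mul _) (iB.const_mul _), integral_const_mul, integral_const_mul,
      integral_const_mul]
  have ix : Integrable (fun q : (ℝ × ℝ) × (ℝ × ℝ) => q.2.1) Q := Mx.integrable (by norm_num)
  have iz : Integrable (fun q : (ℝ × ℝ) × (ℝ × ℝ) => q.2.2) Q := Mz.integrable (by norm_num)
  have ix1 : Integrable (fun q : (ℝ × ℝ) × (ℝ × ℝ) => q.1.1) Q := Mx1.integrable (by norm_num)
  have iy1 : Integrable (fun q : (ℝ × ℝ) × (ℝ × ℝ) => q.1.2) Q := My1.integrable (by norm_num)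
  have ex : ∫ q, q.2.1 ∂Q = m := integral_of_map mx' h.map_x (g := fun x => x) measurable_id'
  have ex1 : ∫ q, q.1.1 ∂Q = m := integral_of_map mx1 h.map_x1 (g := fun x => x) measurable_id'
  have ey1 : ∫ q, q.1.2 ∂Q = m := integral_of_map my1 h.map_y1 (g := fun x => x) measurable_id'
  have ez : ∫ q, q.2.2 ∂Q = 0 := by
    rw [integral_of_map mz' h.map_z (g := fun x => x) measurable_id']
    exact integral_id_gaussianReal
  have lin0 : ∀ b : ℝ, ∫ q, (b * q.2.1 + q.2.2) ∂Q = b * m + 0 := by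
    intro b
    rw [integral_add (ix.const_mul b) iz, integral_const_mul, ex, ez]
  have lin1 : ∀ b : ℝ, ∫ q, (b * q.1.1 + q.1.2) ∂Q = b * m + m := by
    intro b
    rw [integral_add (ix1.const_mul b) iy1, integral_const_mul, ex1, ey1]
  have hc : ∫ q, (q.2.1 + q.2.2) * (q.1.1 + q.1.2) ∂Q = A + B + C + D := by
    have := expand 1
    simp only [one_mul, one_pow] at this
    exact this
  -- exchangeability
  have hex : A + C = B + D := by
    have h1 := h.exch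
    have e1 : ∫ q, (q.2.1 + q.2.2) * q.1.1 ∂Q = A + C := by
      rw [hA, hC, ← integral_add iA iC]
      refine integral_congr_ae (Eventually.of_forall fun q => ?_)
      show (q.2.1 + q.2.2) * q.1.1 = q.2.1 * q.1.1 + q.2.2 * q.1.1
      ring
    have e2 : ∫ q, (q.2.1 + q.2.2) * q.1.2 ∂Q = B + D := by
      rw [hB, hD, ← integral_add iB iD]
      refine integral_congr_ae (Eventually.of_forall fun q => ?_)
      show (q.2.1 + q.2.2) * q.1.2 = q.2.1 * q.1.2 + q.2.2 * q.1.2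
      ring
    rw [e1, e2] at h1
    exact h1
  -- second moments
  have hγ2 : ∫ z, z ^ 2 ∂(gaussianReal 0 1) = 1 := by
    have h1 := variance_eq_sub (X := fun x : ℝ => x) (μ := gaussianReal 0 1) memLp_gauss
    rw [variance_fun_id_gaussianReal, integral_id_gaussianReal] at h1
    simp only [Pi.pow_apply] at h1
    simpa using h1.symm
  have sx : ∫ q, q.2.1 ^ 2 ∂Q = M :=
    integral_of_map mx' h.map_x (g := fun x => x ^ 2) (measurable_id'.pow_const 2)
  have sx1 : ∫ q, q.1.1 ^ 2 ∂Q = M :=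
    integral_of_map mx1 h.map_x1 (g := fun x => x ^ 2) (measurable_id'.pow_const 2)
  have sy1 : ∫ q, q.1.2 ^ 2 ∂Q = M :=
    integral_of_map my1 h.map_y1 (g := fun x => x ^ 2) (measurable_id'.pow_const 2)
  have sz : ∫ q, q.2.2 ^ 2 ∂Q = 1 := by
    rw [integral_of_map mz' h.map_z (g := fun x => x ^ 2) (measurable_id'.pow_const 2), hγ2]
  have cxz : ∫ q, q.2.1 * q.2.2 ∂Q = 0 := by
    have h1 : ∫ q, q.2.1 * q.2.2 ∂Q = ∫ p : ℝ × ℝ, p.1 * p.2 ∂(μ.prod (gaussianReal 0 1)) := by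
      have hmm : Measurable (fun p : ℝ × ℝ => p.1 * p.2) := measurable_fst.mul measurable_snd
      rw [← h.snd, integral_map measurable_snd.aemeasurable hmm.aestronglyMeasurable]
    rw [h1, integral_prod_mul (μ := μ) (ν := gaussianReal 0 1) (fun x => x) (fun x => x),
      integral_id_gaussianReal, mul_zero]
  have cxy : ∫ q, q.1.1 * q.1.2 ∂Q = m * m := by
    have h1 : ∫ q, q.1.1 * q.1.2 ∂Q = ∫ p : ℝ × ℝ, p.1 * p.2 ∂(μ.prod μ) := by
      have hmm : Measurable (fun p : ℝ × ℝ => p.1 * p.2) := measurable_fst.mul measurable_snd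
      rw [← h.fst, integral_map measurable_fst.aemeasurable hmm.aestronglyMeasurable]
    rw [h1, integral_prod_mul (μ := μ) (ν := μ) (fun x => x) (fun x => x)]
  have i2x : Integrable (fun q : (ℝ × ℝ) × (ℝ × ℝ) => q.2.1 * q.2.2) Q := Mx.integrable_mul Mz
  have i2y : Integrable (fun q : (ℝ × ℝ) × (ℝ × ℝ) => q.1.1 * q.1.2) Q := Mx1.integrable_mul My1
  have hVV : ∫ q, (q.2.1 + q.2.2) ^ 2 ∂Q = M + 1 := by
    have e : (fun q : (ℝ × ℝ) × (ℝ × ℝ) => (q.2.1 + q.2.2) ^ 2)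
        = fun q => (q.2.1 ^ 2 + 2 * (q.2.1 * q.2.2)) + q.2.2 ^ 2 := by funext q; ring
    have i1 : Integrable (fun q : (ℝ × ℝ) × (ℝ × ℝ) => q.2.1 ^ 2 + 2 * (q.2.1 * q.2.2)) Q :=
      Mx.integrable_sq.add (i2x.const_mul 2)
    rw [e, integral_add i1 Mz.integrable_sq, integral_add Mx.integrable_sq (i2x.const_mul 2),
      integral_const_mul, sx, sz, cxz]
    ring
  have hUU : ∫ q, (q.1.1 + q.1.2) ^ 2 ∂Q = 2 * M + 2 * m ^ 2 := by
    have e : (fun q : (ℝ × ℝ) × (ℝ × ℝ) => (q.1.1 + q.1.2) ^ 2)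
        = fun q => (q.1.1 ^ 2 + 2 * (q.1.1 * q.1.2)) + q.1.2 ^ 2 := by funext q; ring
    have i1 : Integrable (fun q : (ℝ × ℝ) × (ℝ × ℝ) => q.1.1 ^ 2 + 2 * (q.1.1 * q.1.2)) Q :=
      Mx1.integrable_sq.add (i2y.const_mul 2)
    rw [e, integral_add i1 My1.integrable_sq, integral_add Mx1.integrable_sq (i2y.const_mul 2),
      integral_const_mul, sx1, sy1, cxy]
    ring
  have hcs : variance (fun q : (ℝ × ℝ) × (ℝ × ℝ) => (q.1.1 + q.1.2) - (q.2.1 + q.2.2)) Q
      = 3 * M + 1 + m ^ 2 - 2 * (A + B + C + D) := by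
    have MV : MemLp (fun q : (ℝ × ℝ) × (ℝ × ℝ) => q.2.1 + q.2.2) 2 Q := Mx.add Mz
    have MU : MemLp (fun q : (ℝ × ℝ) × (ℝ × ℝ) => q.1.1 + q.1.2) 2 Q := Mx1.add My1
    have MUV : MemLp (fun q : (ℝ × ℝ) × (ℝ × ℝ) => (q.1.1 + q.1.2) - (q.2.1 + q.2.2)) 2 Q :=
      MU.sub MV
    have iVU : Integrable (fun q : (ℝ × ℝ) × (ℝ × ℝ) => (q.2.1 + q.2.2) * (q.1.1 + q.1.2)) Q :=
      MV.integrable_mul MU
    have iV : Integrable (fun q : (ℝ × ℝ) × (ℝ × ℝ) => q.2.1 + q.2.2) Q := ix.add iz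
    have iU : Integrable (fun q : (ℝ × ℝ) × (ℝ × ℝ) => q.1.1 + q.1.2) Q := ix1.add iy1
    have eV : ∫ q, (q.2.1 + q.2.2) ∂Q = m := by rw [integral_add ix iz, ex, ez, add_zero]
    have eU : ∫ q, (q.1.1 + q.1.2) ∂Q = m + m := by rw [integral_add ix1 iy1, ex1, ey1]
    have hmean : ∫ q, ((q.1.1 + q.1.2) - (q.2.1 + q.2.2)) ∂Q = m := by
      rw [integral_sub iU iV, eU, eV]; ring
    have hsq : ∫ q, ((q.1.1 + q.1.2) - (q.2.1 + q.2.2)) ^ 2 ∂Q
        = (2 * M + 2 * m ^ 2) + (M + 1) - 2 * (A + B + C + D) := by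
      have e : (fun q : (ℝ × ℝ) × (ℝ × ℝ) => ((q.1.1 + q.1.2) - (q.2.1 + q.2.2)) ^ 2)
        = fun q => ((q.1.1 + q.1.2) ^ 2 + (q.2.1 + q.2.2) ^ 2)
          + (-2) * ((q.2.1 + q.2.2) * (q.1.1 + q.1.2)) := by funext q; ring
      have i1 : Integrable (fun q : (ℝ × ℝ) × (ℝ × ℝ) =>
        (q.1.1 + q.1.2) ^ 2 + (q.2.1 + q.2.2) ^ 2) Q := MU.integrable_sq.add MV.integrable_sq
      rw [e, integral_add i1 (iVU.const_mul _), integral_add MU.integrable_sq MV.integrable_sq,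
        integral_const_mul, hVV, hUU, hc]
      ring
    have h1 := variance_eq_sub MUV
    simp only [Pi.pow_apply] at h1
    rw [h1, hmean, hsq]
    ring
  -- the goal
  have hgoal : ∫ q, q.2.2 * (q.1.1 + q.1.2) ∂Q = C + D := by
    rw [hC, hD, ← integral_add iC iD]
    refine integral_congr_ae (Eventually.of_forall fun q => ?_)
    show q.2.2 * (q.1.1 + q.1.2) = q.2.2 * q.1.1 + q.2.2 * q.1.2
    ring
  rw [hgoal]
  refine alg_bound hM hex hcs ?_
  intro a ha1 ha0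
  obtain ⟨b, hab, hb1, ν, hν, hd⟩ := hsd a ha1 ha0
  refine ⟨b, hab, hb1, ?_⟩
  have h1 := h.coupling_ineq hμ hd
  rw [expand b, lin0 b, lin1 b, hc, hd.mean hμ, hd.second hμ] at h1
  exact h1

/-- inner layer integral -/
lemma Glued.inner_eq (h : Glued μ Q) [NullSingletonClass (lawU μ)] (u : ℝ) :
    ∫ q in {q : (ℝ × ℝ) × (ℝ × ℝ) | u < q.1.1 + q.1.2}, q.2.2 ∂Q
      = (core (lawU μ)).indicator (fun u => fV μ (S (lawV μ) (lawU μ) u)) u := by
  have := h.prob
  have hs := strictMono_lawV μ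
  have hmU : Measurable (fun q : (ℝ × ℝ) × (ℝ × ℝ) => q.1.1 + q.1.2) := mx1.add my1
  have hmV : Measurable (fun q : (ℝ × ℝ) × (ℝ × ℝ) => q.2.1 + q.2.2) := mx'.add mz'
  have ez : ∫ q, q.2.2 ∂Q = 0 := by
    rw [integral_of_map mz' h.map_z (g := fun x => x) measurable_id']
    exact integral_id_gaussianReal
  by_cases hu : u ∈ core (lawU μ)
  · rw [indicator_of_mem hu]
    have hae : ∀ᵐ q ∂Q, (S (lawV μ) (lawU μ) u < S (lawV μ) (lawU μ) (q.1.1 + q.1.2)
        ↔ u < q.1.1 + q.1.2) := by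
      have h1 := ae_S_lt_iff (lawV μ) (lawU μ) hs hu
      rw [← h.map_U] at h1
      have h2 := ae_of_ae_map hmU.aemeasurable h1
      rw [h.map_U] at h2
      exact h2
    have hset : ({q : (ℝ × ℝ) × (ℝ × ℝ) | u < q.1.1 + q.1.2} : Set _)
        =ᵐ[Q] {q | S (lawV μ) (lawU μ) u < q.2.1 + q.2.2} := by
      filter_upwards [hae, h.eq] with q h1 h2
      apply propext
      show (u < q.1.1 + q.1.2) ↔ (S (lawV μ) (lawU μ) u < q.2.1 + q.2.2)
      rw [← h2]
      exact h1.symm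
    rw [setIntegral_congr_set hset, ← stein_fV, ← h.snd]
    have hms : MeasurableSet {p : ℝ × ℝ | S (lawV μ) (lawU μ) u < p.1 + p.2} :=
      measurableSet_lt measurable_const measurable_add2
    rw [setIntegral_map hms measurable_snd.aestronglyMeasurable measurable_snd.aemeasurable]
    rfl
  · rw [indicator_of_notMem hu]
    have hcase : cdf (lawU μ) u = 0 ∨ cdf (lawU μ) u = 1 := by
      by_contra hc
      rw [not_or] at hc
      exact hu ⟨lt_of_le_of_ne (cdf_nonneg _ _) (Ne.symm hc.1), lt_of_le_of_ne (cdf_le_one _ _) hc.2⟩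
    have hpre : Q {q : (ℝ × ℝ) × (ℝ × ℝ) | u < q.1.1 + q.1.2} = lawU μ (Ioi u) := by
      rw [← h.map_U, Measure.map_apply hmU measurableSet_Ioi]
      rfl
    rcases hcase with h0 | h0
    · have hz : lawU μ (Iic u) = 0 := by rw [← ofReal_cdf (lawU μ) u, h0]; simp
      have hone : lawU μ (Ioi u) = 1 := by
        rw [← compl_Iic, prob_compl_eq_one_iff measurableSet_Iic, hz]
      have hms : MeasurableSet {q : (ℝ × ℝ) × (ℝ × ℝ) | u < q.1.1 + q.1.2} :=
        measurableSet_lt measurable_const hmU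
      have hae : ∀ᵐ q ∂Q, q ∈ {q : (ℝ × ℝ) × (ℝ × ℝ) | u < q.1.1 + q.1.2} := by
        exact (mem_ae_iff_prob_eq_one hms).2 (by rw [hpre, hone])
      rw [Measure.restrict_eq_self_of_ae_mem hae, ez]
    · have hz : lawU μ (Ioi u) = 0 := by
        rw [← compl_Iic, prob_compl_eq_zero_iff measurableSet_Iic, ← ofReal_cdf (lawU μ) u, h0]
        simp
      rw [setIntegral_measure_zero _ (by rw [hpre, hz])]

lemma Glued.R_eq (h : Glued μ Q) (hμ : MemLp (fun x : ℝ => x) 2 μ) [NullSingletonClass (lawU μ)] :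
    Integrable ((core (lawU μ)).indicator (fun u => fV μ (S (lawV μ) (lawU μ) u))) ∧
    ∫ u, (core (lawU μ)).indicator (fun u => fV μ (S (lawV μ) (lawU μ) u)) u
      = ∫ q, q.2.2 * (q.1.1 + q.1.2) ∂Q := by
  have := h.prob
  have Mz := memLp_of_map mz' h.map_z memLp_gauss
  have Mx1 := memLp_of_map mx1 h.map_x1 hμ
  have My1 := memLp_of_map my1 h.map_y1 hμ
  have hmU : Measurable (fun q : (ℝ × ℝ) × (ℝ × ℝ) => q.1.1 + q.1.2) := mx1.add my1
  have MU : MemLp (fun q : (ℝ × ℝ) × (ℝ × ℝ) => q.1.1 + q.1.2) 2 Q := Mx1.add My1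
  have iz : Integrable (fun q : (ℝ × ℝ) × (ℝ × ℝ) => q.2.2) Q := Mz.integrable (by norm_num)
  have hi : Integrable (fun q : (ℝ × ℝ) × (ℝ × ℝ) => q.2.2 * (q.1.1 + q.1.2)) Q :=
    Mz.integrable_mul MU
  have ez : ∫ q, q.2.2 ∂Q = 0 := by
    rw [integral_of_map mz' h.map_z (g := fun x => x) measurable_id']
    exact integral_id_gaussianReal
  have hin : ∀ u : ℝ, ∫ q, q.2.2 * lay (q.1.1 + q.1.2) u ∂Q
      = (core (lawU μ)).indicator (fun u => fV μ (S (lawV μ) (lawU μ) u)) u := by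
    intro u
    rw [integral_mul_lay Q iz hmU u, ez, mul_zero, sub_zero, h.inner_eq u]
  have h1 := integrable_layer_snd Q mz' hmU hi
  have h2 := layer_eq Q mz' hmU hi
  constructor
  · refine h1.congr (Eventually.of_forall fun u => ?_)
    exact hin u
  · rw [h2]
    refine integral_congr_ae (Eventually.of_forall fun u => ?_)
    exact (hin u).symm

end

end Pool.Agent.MP_ec2ab1_pr
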