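import Pool.Agent.Lib.MP_ec2ab1_pr.Assemble

set_option autoImplicit false
set_option linter.unusedSectionVars false
open MeasureTheory ProbabilityTheory Set Filter Topology

namespace Pool.Agent.MP_ec2ab1_pr

lemma map_neg_density {ν : Measure ℝ} {f : ℝ → ℝ} (hf : Measurable f)
    (hd : ν = volume.withDensity (fun x => ENNReal.ofReal (f x))) :
    ν.map (fun x => -x) = volume.withDensity (fun x => ENNReal.ofReal (f (-x))) := by
  refine Measure.ext_of_lintegral _ fun ψ hψ => ?_
  have hf2 : Measurable (fun x => f (-x)) := hf.comp measurable_neg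
  have hψn : Measurable (fun x => ψ (-x)) := hψ.comp measurable_neg
  rw [lintegral_map hψ measurable_neg, hd,
    lintegral_withDensity_eq_lintegral_mul _ hf.ennreal_ofReal hψn,
    lintegral_withDensity_eq_lintegral_mul _ hf2.ennreal_ofReal hψ,
    ← lintegral_neg_eq_self (fun x => ((fun x => ENNReal.ofReal (f (-x))) * ψ) x)]
  refine lintegral_congr fun x => ?_
  show ENNReal.ofReal (f x) * ψ (-x) = ENNReal.ofReal (f (- -x)) * ψ (-x)
  rw [neg_neg]

/-- the core inequality for all classes, after centring at `c` -/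
lemma coreP_class (ν : Measure ℝ) [IsProbabilityMeasure ν] (hν : MemLp (fun x : ℝ => x) 2 ν)
    (hvar : variance (fun x : ℝ => x) ν = 1) (s : Set ℝ) (V V' : ℝ → ℝ) (κ : ℝ) (hs : IsOpen s)
    (hV : ∀ x ∈ s, HasDerivAt V (V' x) x)
    (hd : ν = volume.withDensity (fun x => ENNReal.ofReal
      (s.indicator (fun x => Real.exp (-(κ * |x| + V x))) x)))
    (hcl : (IsUpperSet s ∧ ConcaveOn ℝ s V' ∧ κ = 0) ∨
      (IsLowerSet s ∧ ConvexOn ℝ s V' ∧ κ = 0) ∨
      (s.OrdConnected ∧ (∀ x ∈ s, -x ∈ s ∧ V (-x) = V x) ∧ (∀ x ∈ s, 0 ≤ x → 0 ≤ V' x) ∧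
        ((ConvexOn ℝ (s ∩ Ici 0) V' ∧ κ = 0) ∨
          (s = univ ∧ ConcaveOn ℝ (Ici 0) V' ∧ 0 ≤ κ)))) : CoreP ν := by
  have hc : ContinuousOn V s := fun x hx => (hV x hx).continuousAt.continuousWithinAt
  have hdens0 : κ = 0 → ν = volume.withDensity (fun x => ENNReal.ofReal (dens s V x)) := by
    intro h0
    rw [hd]
    congr 1
    funext x
    unfold dens
    congr 2
    funext y
    rw [h0]; ring_nf
  rcases hcl with ⟨hup, hcV, h0⟩ | ⟨hlow, hcV, h0⟩ | ⟨hs2, hsym, hpos, hcase⟩
  · exact coreP_of_pointwise hν hvar fun x =>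
      classA hs hup hV hcV (hdens0 h0) hν hvar rfl x
  · -- reflection
    apply coreP_reflect
    have hpr : IsProbabilityMeasure (ν.map (fun x : ℝ => -x)) :=
      Measure.isProbabilityMeasure_map measurable_neg.aemeasurable
    have hν2 : MemLp (fun x : ℝ => x) 2 (ν.map (fun x : ℝ => -x)) := by
      refine (memLp_map_measure_iff measurable_id'.aestronglyMeasurable
        measurable_neg.aemeasurable).2 ?_
      exact hν.neg
    have hvar2 : variance (fun x : ℝ => x) (ν.map (fun x : ℝ => -x)) = 1 := by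
      rw [variance_map measurable_id'.aemeasurable measurable_neg.aemeasurable]
      have e : ((fun x : ℝ => x) ∘ fun x => -x) = fun x => (-1) * x := by
        funext x; simp
      rw [e, variance_const_mul, hvar]; norm_num
    have hd2 := map_neg_density (dens_measurable hs.measurableSet hc) (hdens0 h0)
    have e2 : (fun x => ENNReal.ofReal (dens s V (-x)))
        = fun x => ENNReal.ofReal (dens {x | -x ∈ s} (fun x => V (-x)) x) := by
      funext x
      congr 1
    rw [e2] at hd2
    have hs' : IsOpen {x : ℝ | -x ∈ s} := hs.preimage continuous_neg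
    have hup' : IsUpperSet {x : ℝ | -x ∈ s} := by
      intro a b hab ha
      exact hlow (neg_le_neg hab) ha
    have hV2 : ∀ x ∈ {x : ℝ | -x ∈ s}, HasDerivAt (fun x => V (-x)) (-V' (-x)) x := by
      intro x hx
      have h0 : HasDerivAt V (V' (-x)) (0 - x) := by
        rw [zero_sub]; exact hV (-x) hx
      have := h0.comp_const_sub 0 x
      simpa only [zero_sub] using this
    have hcV2 : ConcaveOn ℝ {x : ℝ | -x ∈ s} (fun x => -V' (-x)) := by
      have hconv : Convex ℝ {x : ℝ | -x ∈ s} := by
        have := hcV.1.ordConnected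
        refine (convex_iff_ordConnected).2 ⟨fun a ha b hb z hz => ?_⟩
        exact this.out hb ha ⟨by linarith [hz.2], by linarith [hz.1]⟩
      refine ⟨hconv, ?_⟩
      intro a ha b hb u v hu hv huv
      have h := hcV.2 ha hb hu hv huv
      simp only [smul_eq_mul] at h ⊢
      have e : -(u * a + v * b) = u * -a + v * -b := by ring
      rw [e]
      linarith
    exact coreP_of_pointwise hν2 hvar2 fun x => classA hs' hup' hV2 hcV2 hd2 hν2 hvar2 rfl x
  · rcases hcase with ⟨hcV, h0⟩ | ⟨hsu, hcV, hκ⟩
    · have hd1 := hdens0 h0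
      have hmean : ∫ w, w ∂ν = 0 := by
        have hfu : ∀ x, dens s V (-x) = dens s V x := by
          intro x
          by_cases hx : x ∈ s
          · rw [dens_mem hx, dens_mem (hsym x hx).1, (hsym x hx).2]
          · have hx' : -x ∉ s := fun h => hx (by have := (hsym _ h).1; rwa [neg_neg] at this)
            rw [dens_notMem hx, dens_notMem hx']
        have h := integral_even (dens_measurable hs.measurableSet hc) (dens_nonneg s V) hd1 hfu
          (fun x => x)
        rw [integral_neg] at h
        linarith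
      exact coreP_of_avg hν hvar hmean
        (classB1 hs hs2 (fun x hx => (hsym x hx).1) (fun x hx => (hsym x hx).2) hV hpos hcV hd1 hν
          hvar)
    · subst hsu
      have hd1 : ν = volume.withDensity (fun x => ENNReal.ofReal
          (dens univ (fun x => κ * |x| + V x) x)) := hd
      have hmean : ∫ w, w ∂ν = 0 := by
        have hfu : ∀ x, dens univ (fun x => κ * |x| + V x) (-x)
            = dens univ (fun x => κ * |x| + V x) x := by
          intro x
          rw [dens_mem (mem_univ x), dens_mem (mem_univ (-x)), abs_neg, (hsym x (mem_univ x)).2]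
        have hVc : Continuous V := continuous_iff_continuousAt.2 fun v =>
          (hV v (mem_univ v)).continuousAt
        have hΦc : ContinuousOn (fun x => κ * |x| + V x) univ := by
          apply Continuous.continuousOn; fun_prop
        have h := integral_even (dens_measurable MeasurableSet.univ hΦc) (dens_nonneg _ _) hd1 hfu
          (fun x => x)
        rw [integral_neg] at h
        linarith
      exact coreP_of_avg hν hvar hmean
        (classB2 hκ (fun x => (hsym x (mem_univ x)).2) (fun x => hV x (mem_univ x))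
          (fun x hx => hpos x (mem_univ x) hx) hcV hd1 hν hvar)

/-- the main theorem in the language of the frozen statement -/
theorem signed_entropy (μ : Measure ℝ) [IsProbabilityMeasure μ]
    (hμ : MemLp (fun x : ℝ => x) 2 μ) (hvar : variance (fun x : ℝ => x) μ = 1)
    (s : Set ℝ) (V V' : ℝ → ℝ) (c κ : ℝ) (hs : IsOpen s)
    (hV : ∀ x ∈ s, HasDerivAt V (V' x) x)
    (hd : μ.map (fun x => x - c) = volume.withDensity (fun x => ENNReal.ofReal
      (s.indicator (fun x => Real.exp (-(κ * |x| + V x))) x)))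
    (hcl : (IsUpperSet s ∧ ConcaveOn ℝ s V' ∧ κ = 0) ∨
      (IsLowerSet s ∧ ConvexOn ℝ s V' ∧ κ = 0) ∨
      (s.OrdConnected ∧ (∀ x ∈ s, -x ∈ s ∧ V (-x) = V x) ∧ (∀ x ∈ s, 0 ≤ x → 0 ≤ V' x) ∧
        ((ConvexOn ℝ (s ∩ Ici 0) V' ∧ κ = 0) ∨
          (s = univ ∧ ConcaveOn ℝ (Ici 0) V' ∧ 0 ≤ κ))))
    (hac : (μ.prod μ).map (fun p : ℝ × ℝ => p.1 + p.2) ≪ volume)
    (hint : Integrable (fun x : ℝ =>
        (((μ.prod μ).map (fun p : ℝ × ℝ => p.1 + p.2)).rnDeriv volume x).toReal *
          Real.log ((((μ.prod μ).map (fun p : ℝ × ℝ => p.1 + p.2)).rnDeriv volume x).toReal))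
        volume) :
    (-∫ x : ℝ,
          (((μ.prod μ).map (fun p : ℝ × ℝ => p.1 + p.2)).rnDeriv volume x).toReal *
            Real.log ((((μ.prod μ).map (fun p : ℝ × ℝ => p.1 + p.2)).rnDeriv volume x).toReal))
        ≤ -∫ u, Real.log (∫ y, gaussianPDFReal 0 1 (u - (∫ w, w ∂μ) - y) ∂μ)
            ∂((μ.prod μ).map (fun p : ℝ × ℝ => p.1 + p.2)) ∧
    (-∫ u, Real.log (∫ y, gaussianPDFReal 0 1 (u - (∫ w, w ∂μ) - y) ∂μ)
            ∂((μ.prod μ).map (fun p : ℝ × ℝ => p.1 + p.2)))
        ≤
      -∫ x : ℝ,
          (((μ.prod (gaussianReal 0 1)).map (fun p : ℝ × ℝ => p.1 + p.2)).rnDeriv volume x).toReal *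
            Real.log ((((μ.prod (gaussianReal 0 1)).map
              (fun p : ℝ × ℝ => p.1 + p.2)).rnDeriv volume x).toReal) := by
  have hpr : IsProbabilityMeasure (μ.map (fun x : ℝ => x - c)) :=
    Measure.isProbabilityMeasure_map (measurable_sub_const c).aemeasurable
  have hν2 : MemLp (fun x : ℝ => x) 2 (μ.map (fun x : ℝ => x - c)) := by
    refine (memLp_map_measure_iff measurable_id'.aestronglyMeasurable
      (measurable_sub_const c).aemeasurable).2 ?_
    exact hμ.sub (memLp_const c)
  have hvar2 : variance (fun x : ℝ => x) (μ.map (fun x : ℝ => x - c)) = 1 := by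
    rw [variance_map measurable_id'.aemeasurable (measurable_sub_const c).aemeasurable]
    have e : ((fun x : ℝ => x) ∘ fun x => x - c) = fun x => x - c := by
      funext x; simp
    rw [e, variance_sub_const hμ.aestronglyMeasurable, hvar]
  have hcore := coreP_translate c (hμ.integrable (by norm_num))
    (coreP_class _ hν2 hvar2 s V V' κ hs hV hd hcl)
  exact entropy_of_core hμ hcore hac hint

end Pool.Agent.MP_ec2ab1_pr
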