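import Mathlib

set_option autoImplicit false
open MeasureTheory ProbabilityTheory Set Filter Topology

namespace Pool.Agent.MP_ec2ab1_pr

/-- The cdf of an atomless law is continuous. -/
lemma continuous_cdf (ν : Measure ℝ) [IsProbabilityMeasure ν] [NullSingletonClass ν] :
    Continuous (cdf ν) := by
  rw [continuous_iff_continuousAt]
  intro x
  rw [(cdf ν).mono.continuousAt_iff_leftLim_eq_rightLim, StieltjesFunction.rightLim_eq]
  have h := (cdf ν).measure_singleton x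
  rw [measure_cdf, measure_singleton] at h
  have h2 : (cdf ν) x - Function.leftLim (cdf ν) x ≤ 0 := ENNReal.ofReal_eq_zero.1 h.symm
  have h3 : Function.leftLim (cdf ν) x ≤ cdf ν x := (cdf ν).mono.leftLim_le le_rfl
  linarith

lemma exists_cdf_eq (ν : Measure ℝ) [IsProbabilityMeasure ν] [NullSingletonClass ν] {p : ℝ}
    (h0 : 0 < p) (h1 : p < 1) : ∃ b, cdf ν b = p := by
  have ha : ∃ a, cdf ν a ≤ p :=
    (((tendsto_cdf_atBot ν).eventually (gt_mem_nhds h0)).exists).imp fun a ha => le_of_lt ha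
  have hb : ∃ b, p ≤ cdf ν b :=
    (((tendsto_cdf_atTop ν).eventually (lt_mem_nhds h1)).exists).imp fun a ha => le_of_lt ha
  exact mem_range_of_exists_le_of_exists_ge (continuous_cdf ν) ha hb

/-- probability integral transform, upper bound -/
lemma measure_cdf_le_le (ν : Measure ℝ) [IsProbabilityMeasure ν] [NullSingletonClass ν] {p : ℝ}
    (h0 : 0 ≤ p) : ν.real {u | cdf ν u ≤ p} ≤ p := by
  refine le_of_forall_gt_imp_ge_of_dense ?_
  intro q hq
  by_cases hq1 : q < 1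
  · obtain ⟨b, hb⟩ := exists_cdf_eq ν (lt_of_le_of_lt h0 hq) hq1
    have hsub : {u | cdf ν u ≤ p} ⊆ Iic b := by
      intro u hu
      by_contra hlt
      have hlt' : b ≤ u := le_of_lt (not_le.1 hlt)
      have := monotone_cdf ν hlt'
      have hu' : cdf ν u ≤ p := hu
      linarith
    calc ν.real {u | cdf ν u ≤ p} ≤ ν.real (Iic b) := measureReal_mono hsub
      _ = cdf ν b := (cdf_eq_real ν b).symm
      _ = q := hb
  · exact le_trans measureReal_le_one (not_lt.1 hq1)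

lemma measure_cdf_le_eq (ν : Measure ℝ) [IsProbabilityMeasure ν] [NullSingletonClass ν] {p : ℝ}
    (h0 : 0 < p) (h1 : p < 1) : ν.real {u | cdf ν u ≤ p} = p := by
  refine le_antisymm (measure_cdf_le_le ν h0.le) ?_
  obtain ⟨b, hb⟩ := exists_cdf_eq ν h0 h1
  have hsub : Iic b ⊆ {u | cdf ν u ≤ p} := by
    intro u hu
    have := monotone_cdf ν (show u ≤ b from hu)
    show cdf ν u ≤ p
    linarith
  calc p = cdf ν b := hb.symm
    _ = ν.real (Iic b) := cdf_eq_real ν b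
    _ ≤ _ := measureReal_mono hsub

/-- the set where the cdf is in `(0,1)` -/
def core (ν : Measure ℝ) : Set ℝ := {u | 0 < cdf ν u ∧ cdf ν u < 1}

lemma measurableSet_core (ν : Measure ℝ) : MeasurableSet (core ν) := by
  have hm : Measurable (cdf ν) := (monotone_cdf ν).measurable
  exact (measurableSet_lt measurable_const hm).inter (measurableSet_lt hm measurable_const)

lemma ae_mem_core (ν : Measure ℝ) [IsProbabilityMeasure ν] [NullSingletonClass ν] :
    ∀ᵐ u ∂ν, u ∈ core ν := by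
  have hm : Measurable (cdf ν) := (monotone_cdf ν).measurable
  have h1 : ν.real {u | cdf ν u ≤ 0} = 0 :=
    le_antisymm (measure_cdf_le_le ν le_rfl) measureReal_nonneg
  have h1' : ν {u | cdf ν u ≤ 0} = 0 := by
    rwa [measureReal_eq_zero_iff] at h1
  have h2 : ν.real {u | cdf ν u < 1}ᶜ ≤ 0 := by
    refine le_of_forall_pos_le_add ?_
    intro e he
    rw [zero_add]
    by_cases he1 : e < 1
    · have h3 : ν.real {u | cdf ν u ≤ 1 - e} = 1 - e :=
        measure_cdf_le_eq ν (by linarith) (by linarith)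
      have hms : MeasurableSet {u | cdf ν u ≤ 1 - e} := measurableSet_le hm measurable_const
      have h4 : ν.real {u | cdf ν u ≤ 1 - e}ᶜ = e := by
        rw [probReal_compl_eq_one_sub hms, h3]; ring
      rw [← h4]
      refine measureReal_mono ?_
      intro u hu
      have hu' : ¬ (cdf ν u < 1) := hu
      show ¬ (cdf ν u ≤ 1 - e)
      intro hc
      exact hu' (by linarith)
    · exact le_trans measureReal_le_one (not_lt.1 he1)
  have h2' : ν {u | cdf ν u < 1}ᶜ = 0 := by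
    have := le_antisymm h2 measureReal_nonneg
    rwa [measureReal_eq_zero_iff] at this
  have h3 : ∀ᵐ u ∂ν, 0 < cdf ν u := by
    rw [ae_iff]
    convert h1' using 2
    ext u; simp
  have h4 : ∀ᵐ u ∂ν, cdf ν u < 1 := by
    rw [ae_iff]
    exact h2'
  filter_upwards [h3, h4] with u hu1 hu2
  exact ⟨hu1, hu2⟩

/-- the inverse of the cdf (on `(0,1)`; zero outside the range of the cdf) -/
noncomputable def Finv (ν : Measure ℝ) (p : ℝ) : ℝ :=
  open Classical in if h : ∃ s, cdf ν s = p then h.choose else 0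

lemma cdf_Finv (ν : Measure ℝ) [IsProbabilityMeasure ν] [NullSingletonClass ν] {p : ℝ}
    (h0 : 0 < p) (h1 : p < 1) : cdf ν (Finv ν p) = p := by
  have h := exists_cdf_eq ν h0 h1
  unfold Finv
  rw [dif_pos h]
  exact h.choose_spec

/-- positivity on intervals gives a strictly increasing cdf -/
lemma strictMono_cdf (ν : Measure ℝ) [IsProbabilityMeasure ν]
    (hpos : ∀ a b : ℝ, a < b → 0 < ν (Ioc a b)) : StrictMono (cdf ν) := by
  intro a b hab
  have h := (cdf ν).measure_Ioc a b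
  rw [measure_cdf] at h
  have h2 := hpos a b hab
  rw [h] at h2
  have := ENNReal.ofReal_pos.1 h2
  linarith

lemma cdf_pos_of_strictMono (ν : Measure ℝ) (hs : StrictMono (cdf ν)) (x : ℝ) :
    0 < cdf ν x := by
  have h1 := cdf_nonneg ν (x - 1)
  have h2 := hs (show x - 1 < x by linarith)
  linarith

lemma cdf_lt_one_of_strictMono (ν : Measure ℝ) (hs : StrictMono (cdf ν)) (x : ℝ) :
    cdf ν x < 1 := by
  have h1 := cdf_le_one ν (x + 1)
  have h2 := hs (show x < x + 1 by linarith)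
  linarith

lemma Finv_le_iff (ν : Measure ℝ) [IsProbabilityMeasure ν] [NullSingletonClass ν]
    (hs : StrictMono (cdf ν)) {p : ℝ} (h0 : 0 < p) (h1 : p < 1) (t : ℝ) :
    Finv ν p ≤ t ↔ p ≤ cdf ν t := by
  conv_rhs => rw [← cdf_Finv ν h0 h1]
  exact hs.le_iff_le.symm

lemma Finv_of_not (ν : Measure ℝ) (hs : StrictMono (cdf ν)) {p : ℝ}
    (h : ¬ (0 < p ∧ p < 1)) : Finv ν p = 0 := by
  have hne : ¬ ∃ s, cdf ν s = p := by
    rintro ⟨s, rfl⟩
    exact h ⟨cdf_pos_of_strictMono ν hs s, cdf_lt_one_of_strictMono ν hs s⟩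
  unfold Finv
  rw [dif_neg hne]

lemma measurable_Finv (ν : Measure ℝ) [IsProbabilityMeasure ν] [NullSingletonClass ν]
    (hs : StrictMono (cdf ν)) : Measurable (Finv ν) := by
  refine measurable_of_Iic ?_
  intro t
  have : Finv ν ⁻¹' Iic t = (Ioo 0 1 ∩ Iic (cdf ν t)) ∪ ((Ioo (0:ℝ) 1)ᶜ ∩ {_p | (0:ℝ) ≤ t}) := by
    ext p
    by_cases hp : 0 < p ∧ p < 1
    · have := Finv_le_iff ν hs hp.1 hp.2 t
      simp only [mem_preimage, mem_Iic, mem_union, mem_inter_iff, mem_Ioo, mem_compl_iff,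
        mem_ofPred_eq]
      rw [this]
      tauto
    · simp only [mem_preimage, mem_Iic, mem_union, mem_inter_iff, mem_Ioo, mem_compl_iff,
        mem_ofPred_eq, Finv_of_not ν hs hp]
      tauto
  rw [this]
  exact (measurableSet_Ioo.inter measurableSet_Iic).union
    (measurableSet_Ioo.compl.inter (MeasurableSet.const _))

/-- the increasing map from `ν₂` to `ν₁` -/
noncomputable def S (ν₁ ν₂ : Measure ℝ) (u : ℝ) : ℝ := Finv ν₁ (cdf ν₂ u)

section
variable (ν₁ ν₂ : Measure ℝ) [IsProbabilityMeasure ν₁] [IsProbabilityMeasure ν₂]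
  [NullSingletonClass ν₁] [NullSingletonClass ν₂]

omit [IsProbabilityMeasure ν₂] [NullSingletonClass ν₂] in
lemma cdf_S {u : ℝ} (hu : u ∈ core ν₂) : cdf ν₁ (S ν₁ ν₂ u) = cdf ν₂ u :=
  cdf_Finv ν₁ hu.1 hu.2

omit [IsProbabilityMeasure ν₂] [NullSingletonClass ν₂] in
lemma measurable_S (hs : StrictMono (cdf ν₁)) : Measurable (S ν₁ ν₂) :=
  (measurable_Finv ν₁ hs).comp (monotone_cdf ν₂).measurable

lemma map_S (hs : StrictMono (cdf ν₁)) : ν₂.map (S ν₁ ν₂) = ν₁ := by
  have : IsProbabilityMeasure (ν₂.map (S ν₁ ν₂)) :=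
    Measure.isProbabilityMeasure_map (measurable_S ν₁ ν₂ hs).aemeasurable
  refine Measure.ext_of_Iic _ _ ?_
  intro t
  rw [Measure.map_apply (measurable_S ν₁ ν₂ hs) measurableSet_Iic]
  have h0 := cdf_pos_of_strictMono ν₁ hs t
  have h1 := cdf_lt_one_of_strictMono ν₁ hs t
  have hset : ν₂ (S ν₁ ν₂ ⁻¹' Iic t) = ν₂ {u | cdf ν₂ u ≤ cdf ν₁ t} := by
    refine measure_congr ?_
    filter_upwards [ae_mem_core ν₂] with u hu
    apply propext
    show S ν₁ ν₂ u ≤ t ↔ cdf ν₂ u ≤ cdf ν₁ t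
    exact Finv_le_iff ν₁ hs hu.1 hu.2 t
  rw [hset, ← ofReal_cdf ν₁ t]
  have := measure_cdf_le_eq ν₂ h0 h1
  rw [← this, ofReal_measureReal]
  simp only [this]

omit [IsProbabilityMeasure ν₂] [NullSingletonClass ν₂] in
lemma S_lt_S_iff (hs : StrictMono (cdf ν₁)) {u w : ℝ} (hu : u ∈ core ν₂) (hw : w ∈ core ν₂) :
    S ν₁ ν₂ u < S ν₁ ν₂ w ↔ cdf ν₂ u < cdf ν₂ w := by
  rw [← hs.lt_iff_lt, cdf_S ν₁ ν₂ hu, cdf_S ν₁ ν₂ hw]

/-- almost surely `S u < S w` iff `u < w`. -/
lemma ae_S_lt_iff (hs : StrictMono (cdf ν₁)) {u : ℝ} (hu : u ∈ core ν₂) :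
    ∀ᵐ w ∂ν₂, (S ν₁ ν₂ u < S ν₁ ν₂ w ↔ u < w) := by
  have hm : Measurable (cdf ν₂) := (monotone_cdf ν₂).measurable
  have hnull : ν₂.real ({w | cdf ν₂ w ≤ cdf ν₂ u} \ Iic u) = 0 := by
    have hsub : Iic u ⊆ {w | cdf ν₂ w ≤ cdf ν₂ u} := fun w hw => monotone_cdf ν₂ hw
    have h := measureReal_sdiff (μ := ν₂) hsub measurableSet_Iic
    rw [h, measure_cdf_le_eq ν₂ hu.1 hu.2, ← cdf_eq_real]
    simp
  have hnull' : ν₂ ({w | cdf ν₂ w ≤ cdf ν₂ u} \ Iic u) = 0 := by
    rwa [measureReal_eq_zero_iff] at hnull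
  have h2 : ∀ᵐ w ∂ν₂, w ∉ ({w | cdf ν₂ w ≤ cdf ν₂ u} \ Iic u) := measure_eq_zero_iff_ae_notMem.1 hnull'
  filter_upwards [h2, ae_mem_core ν₂] with w hw hwc
  rw [S_lt_S_iff ν₁ ν₂ hs hu hwc]
  constructor
  · intro h
    by_contra hc
    have := monotone_cdf ν₂ (not_lt.1 hc)
    linarith
  · intro h
    by_contra hc
    exact hw ⟨not_lt.1 hc, not_le.2 h⟩

end

end Pool.Agent.MP_ec2ab1_pr
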